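import Pool.Agent.V8H36.IS.TraceGW
import Pool.Agent.H344R2.Blocks

/-!
Isolated zeros in families (helper36): weighted trace inequality with blocks.
-/

open scoped BigOperators ComplexConjugate

namespace V8H36.IS

open H344 (gen gen_sum gen_sq)

/-- The weighted trace inequality with blocks: a test matrix `Y ≤ 1` on `SA`, and every point of
`S2` attached (with parameter `t`) to a point outside `S`. -/
theorem trace_blocks_w {E : Type*} [NormedAddCommGroup E] [InnerProductSpace ℂ E]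
    (φ : ℂ → ℂ) (k : ℂ → E) (hk : ∀ z w, inner ℂ (k z) (k w) = φ (w - (starRingEnd ℂ) z))
    (hev : ∀ z, φ (-z) = φ z) (h0 : φ 0 = 1)
    (Z : Finset ℂ) (hZ : ∀ z ∈ Z, (starRingEnd ℂ) z ∈ Z) (a : ℂ → ℂ)
    (hac : ∀ z ∈ Z, a ((starRingEnd ℂ) z) = (starRingEnd ℂ) (a z))
    (s : ℂ → ℂ) (hs : ∀ z, s z ^ 2 = cw a z)
    (S SA S2 : Finset ℂ) (hSZ : S ⊆ Z)
    (hSr : ∀ z ∈ S, z.im = 0 ∧ 0 ≤ (a z).re ∧ (a z).re ≤ 1)
    (hd : Disjoint SA S2) (hSA : SA ⊆ S) (hS2 : S2 ⊆ S)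
    (o : ℂ → ℂ) (ho : ∀ x ∈ S2, o x ∈ Z.filter (fun z => 0 ≤ z.im) ∧ o x ∉ S)
    (t : ℂ → ℝ) (ht : ∀ z, ∑ x ∈ S2.filter (fun x => o x = z), t x ^ 2 ≤ 2)
    (Y : ℂ → ℂ → ℝ)
    (hY : ∀ v : ℂ → ℂ, ∑ x ∈ SA, ∑ y ∈ SA, Y x y * ((starRingEnd ℂ (v x)) * v y).re
        ≤ ∑ x ∈ SA, ‖v x‖ ^ 2) :
    4 * (∑ z ∈ Z, a z).re - 3 * (S.card : ℝ) -
      4 * (((Z.filter (fun z => 0 ≤ z.im)) \ S).card : ℝ)
      + (2 * ∑ x ∈ SA, ∑ y ∈ SA, Y x y * (rw' φ s x y - if x = y then 1 else 0)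
          - ∑ x ∈ SA, ∑ y ∈ SA, (Y x y) ^ 2)
      + ∑ x ∈ S2, (4 * t x * rw' φ s x (o x) - 2 * t x ^ 2 * rw' φ s (o x) (o x))
      ≤ (∑ z ∈ Z, ∑ w ∈ Z, a z * a w * (φ (z - w)) ^ 2).re := by
  classical
  set P := Z.filter (fun z => 0 ≤ z.im) with hP
  have hSP : S ⊆ P := by
    intro z hz
    simp only [hP, Finset.mem_filter]
    exact ⟨hSZ hz, (hSr z hz).1.ge⟩
  have hAP : SA ⊆ P := hSA.trans hSP
  have h2P : S2 ⊆ P := hS2.trans hSP
  have hd' : ∀ z, z ∈ SA → z ∉ S2 := fun z h => Finset.disjoint_left.mp hd h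
  have hoP : ∀ x ∈ S2, o x ∈ P := fun x hx => (ho x hx).1
  have hoA : ∀ x ∈ S2, o x ∉ SA ∧ o x ∉ S2 := fun x hx =>
    ⟨fun h => (ho x hx).2 (hSA h), fun h => (ho x hx).2 (hS2 h)⟩
  set r := rw' φ s with hr
  set τ : ℂ → ℝ := fun z => ∑ x ∈ S2.filter (fun x => o x = z), t x ^ 2 with hτ
  set c : ℂ → ℝ := fun z => if z ∈ SA then 0 else if z ∈ S then 1 else 2 - τ z with hc
  set D := gen SA S2 o (fun z w => (if z = w then 1 else 0) + Y z w) t c with hDdef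
  have hτsum : ∀ g : ℂ → ℝ, ∑ z ∈ P, τ z * g z = ∑ x ∈ S2, t x ^ 2 * g (o x) := by
    intro g
    rw [← Finset.sum_fiberwise_of_maps_to hoP (fun x => t x ^ 2 * g (o x))]
    refine Finset.sum_congr rfl fun z _ => ?_
    simp only [hτ]
    rw [Finset.sum_mul]
    refine Finset.sum_congr rfl fun x hx => ?_
    rw [(Finset.mem_filter.mp hx).2]
  have hτ0 : ∀ z, 0 ≤ τ z := fun z => Finset.sum_nonneg fun x _ => sq_nonneg _
  have hτS : ∀ z ∈ S, τ z = 0 := by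
    intro z hz
    simp only [hτ]
    rw [Finset.filter_eq_empty_iff.mpr, Finset.sum_empty]
    intro x hx h
    exact (ho x hx).2 (h ▸ hz)
  have hSsplit : ∀ g : ℂ → ℝ, ∑ z ∈ S, g z = ∑ z ∈ S \ SA, g z + ∑ z ∈ SA, g z := fun g =>
    (Finset.sum_sdiff hSA).symm
  -- diagonal sum
  have hcsum : ∀ g : ℂ → ℝ, ∑ z ∈ P, c z * g z = ∑ z ∈ S \ SA, g z + ∑ z ∈ P \ S, 2 * g z -
      ∑ z ∈ P \ S, τ z * g z := by
    intro g
    rw [← Finset.sum_sdiff hSP, hSsplit]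
    have e1 : ∑ z ∈ SA, c z * g z = 0 := Finset.sum_eq_zero fun z hz => by simp [hc, hz]
    have e2 : ∑ z ∈ S \ SA, c z * g z = ∑ z ∈ S \ SA, g z := Finset.sum_congr rfl fun z hz => by
      have h1 := Finset.mem_sdiff.mp hz
      simp [hc, h1.1, h1.2]
    have e3 : ∑ z ∈ P \ S, c z * g z = ∑ z ∈ P \ S, 2 * g z - ∑ z ∈ P \ S, τ z * g z := by
      rw [← Finset.sum_sub_distrib]
      refine Finset.sum_congr rfl fun z hz => ?_
      have h1 := (Finset.mem_sdiff.mp hz).2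
      have h2 : z ∉ SA := fun h => h1 (hSA h)
      simp only [hc, h1, h2, if_false]
      ring
    rw [e1, e2, e3]
    ring
  have hτsum' : ∀ g : ℂ → ℝ, ∑ z ∈ P \ S, τ z * g z = ∑ x ∈ S2, t x ^ 2 * g (o x) := by
    intro g
    rw [← hτsum g, ← Finset.sum_sdiff hSP]
    have : ∑ z ∈ S, τ z * g z = 0 := Finset.sum_eq_zero fun z hz => by rw [hτS z hz, zero_mul]
    rw [this, add_zero]
  obtain ⟨hCS, hcr, hsym, hNs, hmain⟩ := trace_gen_w φ k hk hev h0 Z hZ a hac s hs D (by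
    intro v
    rw [hDdef, gen_sum P SA S2 hAP h2P o hoP _ _ _
      (fun z w => ((starRingEnd ℂ (v z)) * v w).re), hcsum, hτsum']
    have e0 : ∀ z, ((starRingEnd ℂ (v z)) * v z).re = ‖v z‖ ^ 2 := by
      intro z
      rw [Complex.conj_mul', ← Complex.ofReal_pow, Complex.ofReal_re]
    simp only [e0]
    have e1 : ∑ z ∈ SA, ∑ w ∈ SA, ((if z = w then 1 else 0) + Y z w) *
        ((starRingEnd ℂ) (v z) * v w).re ≤ 2 * ∑ z ∈ SA, ‖v z‖ ^ 2 := by
      have e3 : ∑ z ∈ SA, ∑ w ∈ SA, ((if z = w then 1 else 0) + Y z w) *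
        ((starRingEnd ℂ) (v z) * v w).re = ∑ z ∈ SA, ‖v z‖ ^ 2 +
        ∑ z ∈ SA, ∑ w ∈ SA, Y z w * ((starRingEnd ℂ) (v z) * v w).re := by
        rw [← Finset.sum_add_distrib]
        refine Finset.sum_congr rfl fun z hz => ?_
        simp_rw [add_mul, ite_mul, one_mul, zero_mul]
        rw [Finset.sum_add_distrib, Finset.sum_ite_eq, if_pos hz, e0]
      rw [e3]
      have := hY v
      linarith
    have e2 : ∑ x ∈ S2, t x * (((starRingEnd ℂ) (v x) * v (o x)).re +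
        ((starRingEnd ℂ) (v (o x)) * v x).re) ≤ ∑ x ∈ S2, (‖v x‖ ^ 2 + t x ^ 2 * ‖v (o x)‖ ^ 2) := by
      refine Finset.sum_le_sum fun x _ => ?_
      have a1 : |((starRingEnd ℂ) (v x) * v (o x)).re| ≤ ‖v x‖ * ‖v (o x)‖ := by
        refine (Complex.abs_re_le_norm _).trans ?_
        rw [norm_mul, Complex.norm_conj]
      have a2 : |((starRingEnd ℂ) (v (o x)) * v x).re| ≤ ‖v x‖ * ‖v (o x)‖ := by
        refine (Complex.abs_re_le_norm _).trans ?_
        rw [norm_mul, Complex.norm_conj, mul_comm]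
      calc t x * (((starRingEnd ℂ) (v x) * v (o x)).re + ((starRingEnd ℂ) (v (o x)) * v x).re)
          ≤ |t x * (((starRingEnd ℂ) (v x) * v (o x)).re + ((starRingEnd ℂ) (v (o x)) * v x).re)| :=
            le_abs_self _
        _ = |t x| * |((starRingEnd ℂ) (v x) * v (o x)).re + ((starRingEnd ℂ) (v (o x)) * v x).re| :=
            abs_mul _ _
        _ ≤ |t x| * (2 * (‖v x‖ * ‖v (o x)‖)) := by
            apply mul_le_mul_of_nonneg_left _ (abs_nonneg _)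
            refine (abs_add_le _ _).trans ?_
            linarith
        _ ≤ ‖v x‖ ^ 2 + t x ^ 2 * ‖v (o x)‖ ^ 2 := by
            rw [← sq_abs (t x)]
            nlinarith [sq_nonneg (‖v x‖ - |t x| * ‖v (o x)‖)]
    rw [Finset.sum_add_distrib] at e2
    have e4 : ∑ i ∈ P, ‖v i‖ ^ 2 = ∑ i ∈ P \ S, ‖v i‖ ^ 2 + (∑ i ∈ S \ SA, ‖v i‖ ^ 2 +
        ∑ i ∈ SA, ‖v i‖ ^ 2) := by
      rw [← Finset.sum_sdiff hSP, hSsplit]
    have e5 : ∑ x ∈ S2, ‖v x‖ ^ 2 ≤ ∑ x ∈ S \ SA, ‖v x‖ ^ 2 := by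
      apply Finset.sum_le_sum_of_subset_of_nonneg
      · intro z hz
        exact Finset.mem_sdiff.mpr ⟨hS2 hz, fun h => hd' z h hz⟩
      · intro z _ _; positivity
    rw [e4, ← Finset.mul_sum]
    linarith)
  change ∀ z, 4 * (cw a z).re ≤ r z z at hcr
  change ∀ z w, r z w = r w z at hsym
  -- values on S
  have hrSS : ∀ z ∈ S, r z z = (a z).re ∧ 4 * (cw a z).re = (a z).re := by
    intro z hz
    obtain ⟨h1, h2, h3⟩ := hSr z hz
    have hzc : (starRingEnd ℂ) z = z := Complex.conj_eq_iff_im.mpr h1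
    have haz := hac z (hSZ hz)
    rw [hzc] at haz
    have hai : (a z).im = 0 := Complex.conj_eq_iff_im.mp haz.symm
    have hcz : cw a z = a z / 4 := by unfold cw; rw [if_pos h1]
    have hcre : (cw a z).re = (a z).re / 4 := by rw [hcz]; simp
    have hcim : (cw a z).im = 0 := by rw [hcz]; simp [hai]
    refine ⟨?_, by rw [hcre]; ring⟩
    simp only [hr, rw']
    rw [hzc, sub_self, h0, mul_one, mul_one]
    have e1 : ((starRingEnd ℂ) (s z) * (starRingEnd ℂ) (s z)).re = (cw a z).re := by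
      rw [← map_mul, Complex.conj_re, ← sq, hs]
    have e2 : ((starRingEnd ℂ) (s z) * s z).re = (cw a z).re := by
      have h4 : (starRingEnd ℂ) (s z) * s z = ((‖s z‖ ^ 2 : ℝ) : ℂ) := by
        rw [Complex.conj_mul']; push_cast; rfl
      rw [h4, Complex.ofReal_re]
      have h5 : ‖s z‖ ^ 2 = ‖cw a z‖ := by rw [← hs z, norm_pow]
      rw [h5]
      have h6 : cw a z = (((cw a z).re : ℝ) : ℂ) := by
        apply Complex.ext
        · simp
        · simp [hcim]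
      have h7 : 0 ≤ (cw a z).re := by rw [hcre]; linarith
      calc ‖cw a z‖ = ‖(((cw a z).re : ℝ) : ℂ)‖ := by rw [← h6]
        _ = (cw a z).re := by rw [Complex.norm_real, Real.norm_eq_abs, abs_of_nonneg h7]
    rw [e1, e2, hcre]
    ring
  -- evaluate the linear term
  have hlin : ∑ z ∈ P, ∑ w ∈ P, D z w * r z w = (∑ z ∈ SA, r z z + ∑ z ∈ SA, ∑ w ∈ SA,
      Y z w * r z w) + ∑ x ∈ S2, t x * (2 * r x (o x)) + (∑ z ∈ S \ SA, r z z +
        ∑ z ∈ P \ S, 2 * r z z - ∑ x ∈ S2, t x ^ 2 * r (o x) (o x)) := by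
    rw [hDdef, gen_sum P SA S2 hAP h2P o hoP _ _ _ r, hcsum (fun z => r z z), hτsum' (fun z => r z z)]
    congr 1
    congr 1
    · rw [← Finset.sum_add_distrib]
      refine Finset.sum_congr rfl fun z hz => ?_
      simp_rw [add_mul, ite_mul, one_mul, zero_mul]
      rw [Finset.sum_add_distrib, Finset.sum_ite_eq, if_pos hz]
    · refine Finset.sum_congr rfl fun x _ => ?_
      rw [hsym (o x) x]; ring
  have hquad : ∑ z ∈ P, ∑ w ∈ P, (D z w) ^ 2 = ((SA.card : ℝ) + 2 * ∑ z ∈ SA, Y z z +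
      ∑ z ∈ SA, ∑ w ∈ SA, (Y z w) ^ 2) + ∑ x ∈ S2, 2 * t x ^ 2 + (((S \ SA).card : ℝ) +
        ∑ z ∈ P \ S, (2 - τ z) ^ 2) := by
    have e1 : ∀ z w, (D z w) ^ 2 = gen SA S2 o (fun z w => ((if z = w then 1 else 0) + Y z w) ^ 2)
        (fun z => t z ^ 2) (fun z => c z ^ 2) z w * 1 := by
      intro z w
      rw [hDdef, gen_sq SA S2 o hd hoA _ _ _ (fun z hz => by simp [hc, hz]), mul_one]
    simp_rw [e1]
    rw [gen_sum P SA S2 hAP h2P o hoP _ _ _ (fun _ _ => 1)]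
    congr 1
    · congr 1
      · rw [Finset.card_eq_sum_ones, Nat.cast_sum, Finset.mul_sum, ← Finset.sum_add_distrib,
          ← Finset.sum_add_distrib]
        refine Finset.sum_congr rfl fun z hz => ?_
        have : ∀ w, ((if z = w then 1 else 0) + Y z w) ^ 2 * 1 =
            (if z = w then 1 + 2 * Y z w else 0) + (Y z w) ^ 2 := by
          intro w
          split_ifs <;> ring
        simp_rw [this]
        rw [Finset.sum_add_distrib, Finset.sum_ite_eq, if_pos hz]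
        simp
      · refine Finset.sum_congr rfl fun x _ => ?_
        ring
    · rw [← Finset.sum_sdiff hSP, hSsplit]
      have a1 : ∑ z ∈ SA, c z ^ 2 * 1 = 0 := Finset.sum_eq_zero fun z hz => by simp [hc, hz]
      have a2 : ∑ z ∈ S \ SA, c z ^ 2 * 1 = ((S \ SA).card : ℝ) := by
        rw [Finset.card_eq_sum_ones, Nat.cast_sum]
        refine Finset.sum_congr rfl fun z hz => ?_
        have h1 := Finset.mem_sdiff.mp hz
        simp [hc, h1.1, h1.2]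
      have a3 : ∑ z ∈ P \ S, c z ^ 2 * 1 = ∑ z ∈ P \ S, (2 - τ z) ^ 2 := by
        refine Finset.sum_congr rfl fun z hz => ?_
        have h1 := (Finset.mem_sdiff.mp hz).2
        have h2 : z ∉ SA := fun h => h1 (hSA h)
        simp only [hc, h1, h2, if_false, mul_one]
      rw [a1, a2, a3]
      ring
  -- the diagonal part with b
  have hbs : ∑ z ∈ P, (r z z - 4 * (cw a z).re) = ∑ z ∈ P \ S, (r z z - 4 * (cw a z).re) := by
    rw [← Finset.sum_sdiff hSP]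
    have : ∑ z ∈ S, (r z z - 4 * (cw a z).re) = 0 := Finset.sum_eq_zero fun z hz => by
      rw [(hrSS z hz).1, (hrSS z hz).2, sub_self]
    rw [this, add_zero]
  have hNsplit : (∑ z ∈ Z, a z).re = ∑ z ∈ S, (a z).re + ∑ z ∈ P \ S, 4 * (cw a z).re := by
    rw [← hNs, ← Finset.sum_sdiff hSP, add_comm]
    congr 1
    exact Finset.sum_congr rfl fun z hz => (hrSS z hz).2
  have hcardS : (S.card : ℝ) = (SA.card : ℝ) + ((S \ SA).card : ℝ) := by
    rw [← Finset.card_sdiff_add_card_eq_card hSA]; push_cast; ring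
  have hOsum : ∑ z ∈ P \ S, (2 - τ z) ^ 2 ≤ ∑ z ∈ P \ S, (4 - 4 * τ z + 2 * τ z) := by
    refine Finset.sum_le_sum fun z hz => ?_
    have h1 := hτ0 z
    have h2 : τ z ≤ 2 := ht z
    nlinarith
  have hOsum2 : ∑ z ∈ P \ S, (4 - 4 * τ z + 2 * τ z) = 4 * ((P \ S).card : ℝ) -
      2 * ∑ x ∈ S2, t x ^ 2 := by
    have a1 := hτsum' (fun _ => 1)
    simp only [mul_one] at a1
    rw [← a1, Finset.mul_sum, ← nsmul_eq_mul', ← Finset.sum_const, ← Finset.sum_sub_distrib]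
    exact Finset.sum_congr rfl fun z _ => by ring
  have hSa : ∑ z ∈ S, (a z).re ≤ (S.card : ℝ) := by
    rw [Finset.card_eq_sum_ones, Nat.cast_sum]
    exact Finset.sum_le_sum fun z hz => by simpa using (hSr z hz).2.2
  have hSr2 : ∑ z ∈ S, (a z).re = ∑ z ∈ SA, r z z + ∑ z ∈ S \ SA, r z z := by
    rw [add_comm, ← hSsplit]
    exact Finset.sum_congr rfl fun z hz => (hrSS z hz).1.symm
  have e9 : ∑ z ∈ P \ S, (r z z - 4 * (cw a z).re) = ∑ z ∈ P \ S, r z z -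
      ∑ z ∈ P \ S, 4 * (cw a z).re := Finset.sum_sub_distrib ..
  have e10 : ∑ z ∈ P \ S, 2 * r z z = 2 * ∑ z ∈ P \ S, r z z := by rw [Finset.mul_sum]
  have e11 : ∑ x ∈ S2, (4 * t x * r x (o x) - 2 * t x ^ 2 * r (o x) (o x)) =
      2 * ∑ x ∈ S2, t x * (2 * r x (o x)) - 2 * ∑ x ∈ S2, t x ^ 2 * r (o x) (o x) := by
    rw [Finset.mul_sum, Finset.mul_sum, ← Finset.sum_sub_distrib]
    exact Finset.sum_congr rfl fun x _ => by ring
  have e12 : ∑ x ∈ S2, 2 * t x ^ 2 = 2 * ∑ x ∈ S2, t x ^ 2 := by rw [Finset.mul_sum]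
  have e13 : ∑ x ∈ SA, ∑ y ∈ SA, Y x y * (r x y - if x = y then 1 else 0) =
      ∑ z ∈ SA, ∑ w ∈ SA, Y z w * r z w - ∑ z ∈ SA, Y z z := by
    rw [← Finset.sum_sub_distrib]
    refine Finset.sum_congr rfl fun z hz => ?_
    simp_rw [mul_sub, mul_ite, mul_one, mul_zero]
    rw [Finset.sum_sub_distrib, Finset.sum_ite_eq, if_pos hz]
  rw [hlin, hquad, hbs] at hmain
  rw [hNsplit, e13, e11]
  linarith

end V8H36.IS
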