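import Pool.Agent.H344R2.Close

/-!
Isolated zeros in families (helper36): blocks of close points for a general kernel.
-/

open Complex Filter Topology Set MeasureTheory
open scoped BigOperators ComplexConjugate

namespace V8H36.IS

open H370 (gersh)
open H344 (dbl_union closeS mem_closeS closeS_split closeS_sub)

/-- the quantity gained from an off-diagonal test matrix `Y` -/
noncomputable def YTg (R : ℝ → ℝ → ℝ) (S : Finset ℝ) (Y : ℝ → ℝ → ℝ) : ℝ :=
  2 * ∑ x ∈ S, ∑ y ∈ S, Y x y * (R x y - if x = y then 1 else 0)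
    - ∑ x ∈ S, ∑ y ∈ S, (Y x y) ^ 2

/-- there is a test matrix on `C` with gain at least `q` per point -/
def GoodG (R : ℝ → ℝ → ℝ) (q : ℝ) (C : Finset ℝ) : Prop :=
  ∃ Y : ℝ → ℝ → ℝ, (∀ v : ℝ → ℂ, ∑ x ∈ C, ∑ y ∈ C, Y x y * (conj (v x) * v y).re ≤
    ∑ x ∈ C, ‖v x‖ ^ 2) ∧ q * (C.card : ℝ) ≤ YTg R C Y

/-- the test matrix `t·(R - 1)` -/
noncomputable def ytg (R : ℝ → ℝ → ℝ) (t x y : ℝ) : ℝ := if x = y then 0 else t * R x y

lemma ytg_abs_le {R : ℝ → ℝ → ℝ} (hR : ∀ x y, |R x y| ≤ 1) (t x y : ℝ) (ht : 0 ≤ t) :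
    |ytg R t x y| ≤ if x = y then 0 else t := by
  unfold ytg
  split_ifs with h
  · simp
  · rw [abs_mul, abs_of_nonneg ht]
    have := hR x y
    nlinarith

lemma ytg_block {R : ℝ → ℝ → ℝ} (hR : ∀ x y, |R x y| ≤ 1) (t : ℝ) (k : ℕ) (ht : 0 ≤ t)
    (hk : (k : ℝ) * t ≤ 1) (B : Finset ℝ) (hB : B.card ≤ k + 1) (v : ℝ → ℂ) :
    ∑ x ∈ B, ∑ y ∈ B, ytg R t x y * (conj (v x) * v y).re ≤ ∑ x ∈ B, ‖v x‖ ^ 2 := by
  classical
  have hr : ∀ p ∈ B, ∑ q ∈ B, (if p = q then (0 : ℝ) else t) ≤ 1 := by
    intro p hp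
    have h1 : ∑ q ∈ B, (if p = q then (0 : ℝ) else t) = ∑ q ∈ B.erase p, t := by
      rw [← Finset.add_sum_erase B _ hp, if_pos rfl, zero_add]
      refine Finset.sum_congr rfl fun q hq => ?_
      rw [if_neg (Finset.ne_of_mem_erase hq).symm]
    rw [h1, Finset.sum_const, Finset.card_erase_of_mem hp, nsmul_eq_mul]
    refine le_trans ?_ hk
    apply mul_le_mul_of_nonneg_right _ ht
    exact_mod_cast (by omega : B.card - 1 ≤ k)
  apply gersh
  · intro p hp
    exact (Finset.sum_le_sum fun q _ => ytg_abs_le hR t p q ht).trans (hr p hp)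
  · intro q hq
    refine (Finset.sum_le_sum fun p _ => ytg_abs_le hR t p q ht).trans ?_
    have := hr q hq
    simpa only [eq_comm] using this

lemma YTg_ytg (R : ℝ → ℝ → ℝ) (t : ℝ) (B : Finset ℝ) : YTg R B (ytg R t) =
    (2 * t - t ^ 2) * ∑ x ∈ B, ∑ y ∈ B, (if x = y then 0 else (R x y) ^ 2) := by
  unfold YTg
  rw [Finset.mul_sum, Finset.mul_sum, ← Finset.sum_sub_distrib]
  refine Finset.sum_congr rfl fun x _ => ?_
  rw [Finset.mul_sum, Finset.mul_sum, ← Finset.sum_sub_distrib]
  refine Finset.sum_congr rfl fun y _ => ?_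
  unfold ytg
  split_ifs <;> ring

lemma YTg_triple {R : ℝ → ℝ → ℝ} (hs : ∀ x y, R x y = R y x) (t : ℝ) (x1 x2 x3 : ℝ)
    (h12 : x1 < x2) (h23 : x2 < x3) :
    YTg R {x1, x2, x3} (ytg R t) = 2 * (2 * t - t ^ 2) * (R x2 x1 ^ 2 +
      R x3 x2 ^ 2 + R x3 x1 ^ 2) := by
  rw [YTg_ytg]
  have n12 : x1 ≠ x2 := h12.ne
  have n23 : x2 ≠ x3 := h23.ne
  have n13 : x1 ≠ x3 := (h12.trans h23).ne
  have e1 : x1 ∉ ({x2, x3} : Finset ℝ) := by simp [n12, n13]
  have e2 : x2 ∉ ({x3} : Finset ℝ) := by simp [n23]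
  simp only [Finset.sum_insert e1, Finset.sum_insert e2, Finset.sum_singleton, if_true,
    if_neg n12, if_neg n12.symm, if_neg n23, if_neg n23.symm, if_neg n13, if_neg n13.symm]
  rw [hs x1 x2, hs x2 x3, hs x1 x3]
  ring

lemma glueg (R : ℝ → ℝ → ℝ) (A B : Finset ℝ) (hd : Disjoint A B) (YA YB : ℝ → ℝ → ℝ)
    (hA : ∀ v : ℝ → ℂ, ∑ x ∈ A, ∑ y ∈ A, YA x y * (conj (v x) * v y).re ≤ ∑ x ∈ A, ‖v x‖ ^ 2)
    (hB : ∀ v : ℝ → ℂ, ∑ x ∈ B, ∑ y ∈ B, YB x y * (conj (v x) * v y).re ≤ ∑ x ∈ B, ‖v x‖ ^ 2) :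
    ∃ Y : ℝ → ℝ → ℝ, (∀ v : ℝ → ℂ, ∑ x ∈ A ∪ B, ∑ y ∈ A ∪ B, Y x y * (conj (v x) * v y).re ≤
      ∑ x ∈ A ∪ B, ‖v x‖ ^ 2) ∧ YTg R (A ∪ B) Y = YTg R A YA + YTg R B YB := by
  classical
  refine ⟨fun x y => if x ∈ A ∧ y ∈ A then YA x y else if x ∈ B ∧ y ∈ B then YB x y else 0,
    fun v => ?_, ?_⟩
  · have := dbl_union A B hd (fun x y => YA x y * (conj (v x) * v y).re)
      (fun x y => YB x y * (conj (v x) * v y).re)
    simp only [ite_mul, zero_mul]
    rw [this, Finset.sum_union hd]
    exact add_le_add (hA v) (hB v)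
  · unfold YTg
    have h1 := dbl_union A B hd
      (fun x y => YA x y * (R x y - if x = y then 1 else 0))
      (fun x y => YB x y * (R x y - if x = y then 1 else 0))
    have h2 := dbl_union A B hd (fun x y => YA x y ^ 2) (fun x y => YB x y ^ 2)
    have e1 : ∀ x y : ℝ, (if x ∈ A ∧ y ∈ A then YA x y else if x ∈ B ∧ y ∈ B then YB x y else 0) *
        (R x y - if x = y then 1 else 0) =
        (if x ∈ A ∧ y ∈ A then YA x y * (R x y - if x = y then 1 else 0) else
          if x ∈ B ∧ y ∈ B then YB x y * (R x y - if x = y then 1 else 0)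
          else 0) := by
      intro x y
      by_cases c1 : x ∈ A ∧ y ∈ A
      · simp only [if_pos c1]
      · by_cases c2 : x ∈ B ∧ y ∈ B
        · simp only [if_neg c1, if_pos c2]
        · simp only [if_neg c1, if_neg c2, zero_mul]
    have e2 : ∀ x y : ℝ, (if x ∈ A ∧ y ∈ A then YA x y else if x ∈ B ∧ y ∈ B then YB x y
        else 0) ^ 2 = (if x ∈ A ∧ y ∈ A then YA x y ^ 2 else if x ∈ B ∧ y ∈ B then YB x y ^ 2
        else 0) := by
      intro x y
      by_cases c1 : x ∈ A ∧ y ∈ A
      · simp only [if_pos c1]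
      · by_cases c2 : x ∈ B ∧ y ∈ B
        · simp only [if_neg c1, if_pos c2]
        · simp only [if_neg c1, if_neg c2]; norm_num
    simp only [e1, e2]
    rw [h1, h2]
    ring

lemma GoodG.union {R : ℝ → ℝ → ℝ} {q : ℝ} {A B : Finset ℝ} (hA : GoodG R q A)
    (hB : GoodG R q B) (hd : Disjoint A B) : GoodG R q (A ∪ B) := by
  obtain ⟨YA, a1, a2⟩ := hA
  obtain ⟨YB, b1, b2⟩ := hB
  obtain ⟨Y, h1, h2⟩ := glueg R A B hd YA YB a1 b1
  refine ⟨Y, h1, ?_⟩
  rw [h2, Finset.card_union_of_disjoint hd]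
  push_cast
  linarith

lemma GoodG.empty (R : ℝ → ℝ → ℝ) (q : ℝ) : GoodG R q ∅ :=
  ⟨fun _ _ => 0, fun v => by simp, by simp [YTg]⟩

lemma GoodG.pair {R : ℝ → ℝ → ℝ} (hs : ∀ x y, R x y = R y x) (hR : ∀ x y, |R x y| ≤ 1)
    {q x y : ℝ} (hxy : x ≠ y) (h : q ≤ R x y ^ 2) : GoodG R q {x, y} := by
  classical
  refine ⟨ytg R 1, fun v => ytg_block hR 1 1 (by norm_num) (by norm_num) _
    Finset.card_le_two v, ?_⟩
  rw [YTg_ytg, Finset.card_pair hxy]
  have e1 : x ∉ ({y} : Finset ℝ) := by simpa using hxy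
  simp only [Finset.sum_insert e1, Finset.sum_singleton, if_true, if_neg hxy, if_neg hxy.symm]
  rw [hs y x]
  push_cast
  linarith

lemma GoodG.triple {R : ℝ → ℝ → ℝ} (hs : ∀ x y, R x y = R y x) (hR : ∀ x y, |R x y| ≤ 1)
    {q x1 x2 x3 : ℝ} (h12 : x1 < x2) (h23 : x2 < x3)
    (h1 : q ≤ R x1 x2 ^ 2) (h2 : q ≤ R x2 x3 ^ 2) :
    GoodG R q {x1, x2, x3} := by
  classical
  refine ⟨ytg R (1 / 2), fun v => ytg_block hR (1 / 2) 2 (by norm_num) (by norm_num) _
    Finset.card_le_three v, ?_⟩
  rw [YTg_triple hs _ _ _ _ h12 h23]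
  rw [hs x1 x2] at h1
  rw [hs x2 x3] at h2
  have h3 : 0 ≤ R x3 x1 ^ 2 := sq_nonneg _
  have e1 : x1 ∉ ({x2, x3} : Finset ℝ) := by simp [h12.ne, (h12.trans h23).ne]
  rw [Finset.card_insert_of_notMem e1, Finset.card_pair h23.ne]
  push_cast
  norm_num
  linarith

theorem close_good_g {R : ℝ → ℝ → ℝ} (hs : ∀ x y, R x y = R y x) (hR : ∀ x y, |R x y| ≤ 1)
    {q ρ : ℝ} (S0 : Finset ℝ)
    (hq : ∀ x ∈ S0, ∀ y ∈ S0, |x - y| ≤ ρ → q ≤ R x y ^ 2) :
    ∀ (n : ℕ) (S : Finset ℝ), S.card = n → S ⊆ S0 → GoodG R q (closeS ρ S) := by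
  classical
  intro n
  induction n using Nat.strong_induction_on with
  | _ n ih =>
    intro S hSn hSS0
    rcases S.eq_empty_or_nonempty with hSe | hSne
    · subst hSe
      have : closeS ρ (∅ : Finset ℝ) = ∅ := by
        unfold closeS; simp
      rw [this]
      exact GoodG.empty R q
    · set x1 := S.min' hSne with hx1
      have hx1S : x1 ∈ S := S.min'_mem hSne
      have hx1m : ∀ y ∈ S, x1 ≤ y := fun y hy => S.min'_le y hy
      set S1 := S.erase x1 with hS1
      have hc1 : S1.card < n := by rw [← hSn]; exact Finset.card_erase_lt_of_mem hx1S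
      have hSS1 : S = {x1} ∪ S1 := by
        rw [hS1, ← Finset.insert_eq, Finset.insert_erase hx1S]
      by_cases hcl : x1 ∈ closeS ρ S
      · obtain ⟨-, y, hyS, hyne, hyd⟩ := mem_closeS.mp hcl
        have hyS1 : y ∈ S1 := Finset.mem_erase.mpr ⟨hyne, hyS⟩
        have hS1ne : S1.Nonempty := ⟨y, hyS1⟩
        set x2 := S1.min' hS1ne with hx2
        have hx2S1 : x2 ∈ S1 := S1.min'_mem hS1ne
        have hx2m : ∀ y ∈ S1, x2 ≤ y := fun y hy => S1.min'_le y hy
        have hx2S : x2 ∈ S := Finset.mem_of_mem_erase hx2S1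
        have h12 : x1 < x2 := lt_of_le_of_ne (hx1m x2 hx2S) (Ne.symm (Finset.ne_of_mem_erase hx2S1))
        have hd12 : x2 - x1 ≤ ρ := by
          have h1 := hx2m y hyS1
          rw [abs_le] at hyd
          linarith [hyd.1]
        have ha12 : |x1 - x2| ≤ ρ := by rw [abs_le]; constructor <;> linarith
        set S2 := S1.erase x2 with hS2
        have hc2 : S2.card < n := (Finset.card_erase_lt_of_mem hx2S1).trans hc1
        have hS2S : S2 ⊆ S := (Finset.erase_subset _ _).trans (Finset.erase_subset _ _)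
        have hSS2 : S = {x1, x2} ∪ S2 := by
          rw [hSS1, ← Finset.insert_eq, Finset.insert_union, ← Finset.insert_eq,
            hS2, Finset.insert_erase hx2S1]
        have hx2c : x2 ∈ closeS ρ S := mem_closeS.mpr ⟨hx2S, x1, hx1S, h12.ne, by
          rw [abs_sub_comm]; exact ha12⟩
        have hS2gt : ∀ z ∈ S2, x2 < z := fun z hz =>
          lt_of_le_of_ne (hx2m z (Finset.mem_of_mem_erase hz)) (Ne.symm (Finset.ne_of_mem_erase hz))
        have hpair : GoodG R q {x1, x2} := GoodG.pair hs hR h12.ne (hq x1 (hSS0 hx1S) x2 (hSS0 hx2S) ha12)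
        have hB12 : ∀ b ∈ ({x1, x2} : Finset ℝ), b ∈ closeS ρ S := by
          intro b hb
          rw [Finset.mem_insert, Finset.mem_singleton] at hb
          rcases hb with rfl | rfl
          · exact hcl
          · exact hx2c
        have hdisj2 : Disjoint ({x1, x2} : Finset ℝ) (closeS ρ S2) := by
          rw [Finset.disjoint_left]
          intro b hb hb2
          have := hS2gt b (closeS_sub hb2)
          rw [Finset.mem_insert, Finset.mem_singleton] at hb
          rcases hb with rfl | rfl <;> linarith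
        by_cases hB1 : ∃ z ∈ S2, z - x2 ≤ ρ
        · obtain ⟨z0, hz0, hz0d⟩ := hB1
          have hS2ne : S2.Nonempty := ⟨z0, hz0⟩
          set x3 := S2.min' hS2ne with hx3
          have hx3S2 : x3 ∈ S2 := S2.min'_mem hS2ne
          have hx3m : ∀ y ∈ S2, x3 ≤ y := fun y hy => S2.min'_le y hy
          have hx3S : x3 ∈ S := by rw [hSS2]; exact Finset.mem_union_right _ hx3S2
          have h23 : x2 < x3 := hS2gt x3 hx3S2
          have hd23 : x3 - x2 ≤ ρ := by linarith [hx3m z0 hz0]
          have ha23 : |x2 - x3| ≤ ρ := by rw [abs_le]; constructor <;> linarith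
          set S3 := S2.erase x3 with hS3
          have hc3 : S3.card < n := (Finset.card_erase_lt_of_mem hx3S2).trans hc2
          have hS3gt : ∀ z ∈ S3, x3 < z := fun z hz =>
            lt_of_le_of_ne (hx3m z (Finset.mem_of_mem_erase hz)) (Ne.symm (Finset.ne_of_mem_erase hz))
          by_cases hB2 : ∃ w ∈ S3, w - x3 ≤ ρ
          · obtain ⟨w0, hw0, hw0d⟩ := hB2
            have hsp := closeS_split (ρ := ρ) hSS2 hB12 (by
              intro z hz y hy hzy
              have hzx2 : z - x2 ≤ ρ := by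
                rw [abs_le] at hzy
                rw [Finset.mem_insert, Finset.mem_singleton] at hy
                rcases hy with rfl | rfl <;> linarith [hzy.2]
              by_cases hz3 : z = x3
              · subst hz3
                refine mem_closeS.mpr ⟨hz, w0, Finset.mem_of_mem_erase hw0,
                  (hS3gt w0 hw0).ne', ?_⟩
                have := hS3gt w0 hw0
                rw [abs_le]; constructor <;> linarith
              · have h3z : x3 < z := lt_of_le_of_ne (hx3m z hz) (Ne.symm hz3)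
                refine mem_closeS.mpr ⟨hz, x3, hx3S2, h3z.ne, ?_⟩
                rw [abs_le]; constructor <;> linarith)
            rw [hsp]
            exact hpair.union (ih _ hc2 S2 rfl (hS2S.trans hSS0)) hdisj2
          · push Not at hB2
            have hSS3 : S = {x1, x2, x3} ∪ S3 := by
              rw [hSS2]
              have : S2 = {x3} ∪ S3 := by
                rw [hS3, ← Finset.insert_eq, Finset.insert_erase hx3S2]
              rw [this, ← Finset.union_assoc]
              congr 1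
              ext z
              simp only [Finset.mem_union, Finset.mem_insert, Finset.mem_singleton]
              tauto
            have hx3c : x3 ∈ closeS ρ S := mem_closeS.mpr ⟨hx3S, x2, hx2S, h23.ne, by
              rw [abs_sub_comm]; exact ha23⟩
            have hsp := closeS_split (ρ := ρ) hSS3 (by
              intro b hb
              simp only [Finset.mem_insert, Finset.mem_singleton] at hb
              rcases hb with rfl | rfl | rfl
              · exact hcl
              · exact hx2c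
              · exact hx3c) (by
              intro z hz y hy hzy
              exfalso
              have h1 := hB2 z hz
              rw [abs_le] at hzy
              simp only [Finset.mem_insert, Finset.mem_singleton] at hy
              rcases hy with rfl | rfl | rfl <;> linarith [hzy.2])
            rw [hsp]
            refine (GoodG.triple hs hR h12 h23 (hq x1 (hSS0 hx1S) x2 (hSS0 hx2S) ha12)
              (hq x2 (hSS0 hx2S) x3 (hSS0 hx3S) ha23)).union
              (ih _ hc3 S3 rfl (((Finset.erase_subset _ _).trans hS2S).trans hSS0)) ?_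
            rw [Finset.disjoint_left]
            intro b hb hb2
            have := hS3gt b (closeS_sub hb2)
            simp only [Finset.mem_insert, Finset.mem_singleton] at hb
            rcases hb with rfl | rfl | rfl <;> linarith
        · push Not at hB1
          have hsp := closeS_split (ρ := ρ) hSS2 hB12 (by
            intro z hz y hy hzy
            exfalso
            have h1 := hB1 z hz
            rw [abs_le] at hzy
            rw [Finset.mem_insert, Finset.mem_singleton] at hy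
            rcases hy with rfl | rfl <;> linarith [hzy.2])
          rw [hsp]
          exact hpair.union (ih _ hc2 S2 rfl (hS2S.trans hSS0)) hdisj2
      · have : closeS ρ S = closeS ρ S1 := by
          ext z
          constructor
          · intro hz
            obtain ⟨h1, y, hy, hyz, hd⟩ := mem_closeS.mp hz
            have hzx : z ≠ x1 := fun h => hcl (h ▸ hz)
            have hyx : y ≠ x1 := by
              rintro rfl
              exact hcl (mem_closeS.mpr ⟨hx1S, z, h1, hyz.symm, by rw [abs_sub_comm]; exact hd⟩)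
            exact mem_closeS.mpr ⟨Finset.mem_erase.mpr ⟨hzx, h1⟩, y,
              Finset.mem_erase.mpr ⟨hyx, hy⟩, hyz, hd⟩
          · intro hz
            obtain ⟨h1, y, hy, hyz, hd⟩ := mem_closeS.mp hz
            exact mem_closeS.mpr ⟨Finset.mem_of_mem_erase h1, y, Finset.mem_of_mem_erase hy,
              hyz, hd⟩
        rw [this]
        exact ih _ hc1 S1 rfl ((Finset.erase_subset _ _).trans hSS0)

end V8H36.IS
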