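import Pool.Agent.V8H36.IS.FamG
import Pool.Agent.W388.TW.FinEA

/-!
Isolated zeros in families (helper36): the family theorem for any functional
(`W388.final_core_D` with a general functional).
-/

open Complex Filter Topology Set MeasureTheory
open H370 (zset mult NN Nd Ns)

set_option maxHeartbeats 4000000

namespace V8H36.IS

open H385 W388

/-- the family theorem from the mean square hypothesis -/
theorem final_core_G (d A : ℝ) (hd : 1 ≤ d) (hA : 1 ≤ A) (C3 : ℝ) (hC3 : 0 < C3) (M : ℕ)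
    (c : ℕ → ℂ)
    (F : (q : ℕ) → DirichletCharacter ℂ q → ℂ → ℂ) (hF : TwE d A M c F)
    (γ β c' : ℝ) (h0 : 0 < γ) (hπ : γ < Real.pi) (hβ : 0 < β) (hc' : 0 ≤ c')
    (hR0 : 0 ≤ Rw γ 0) (H : HYM M c γ β c') (ε : ℝ) (hε : 0 < ε) :
    ∃ K η X0 : ℝ, 1 ≤ K ∧ 0 < η ∧ 1 ≤ X0 ∧
    ∀ (X Y : ℕ) (T : ℝ), X0 ≤ X → K * X ≤ Y → (Y : ℝ) ≤ (X : ℝ) ^ (1 + η) →
      (Real.log X) ^ 2 ≤ T → T ≤ (X : ℝ) ^ η →
      ∀ G : (q : ℕ) → DirichletCharacter ℂ q → ℝ,
      (∀ (q : ℕ) (χ : DirichletCharacter ℂ q), X < q → q ≤ Y → Nat.Coprime q M → χ.IsPrimitive →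
        ∀ V1 V2 : ℝ, T - 3 * Real.log X ≤ V1 → V1 ≤ T - 3 * Real.log X + 1 →
        2 * T + 3 * Real.log X - 1 ≤ V2 → V2 ≤ 2 * T + 3 * Real.log X → G q χ ≤
        (2 / (Real.sqrt Real.pi * (β * Real.log X))) *
          (∫ u in (0 : ℝ)..(β * Real.log X), Rw γ (u / (β * Real.log X)) *
          ∫ t : ℝ, ‖BB (F q χ) V1 V2 T u t‖ ^ 2)
        + C3 * (Real.log X + T * Real.exp (-(Real.log X) ^ 2 / 2)) * Real.log (q * T)) →
      primFamM M X Y G ≤
        (d * Rw γ 0 / β + c' / d + ε) * primFamM M X Y (fun q χ => (NN (F q χ) T (2 * T) : ℝ)) := by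
  have hgood := hF
  obtain ⟨C1, hC1, hfam⟩ := fam_abstract_G γ h0 hπ d A hd hA C3 hC3
  obtain ⟨C2, hC2, hlow⟩ := N_lower_D d A hd hA
  have hd0 : 0 < d := by linarith
  -- choose ε1
  have hpi := Real.pi_pos
  set CC : ℝ := C1 with hCC
  have hCC0 : 0 < CC := hC1
  obtain ⟨ε1, hε1, hε1a, hε1b⟩ : ∃ ε1 : ℝ, 0 < ε1 ∧ ε1 ≤ ε / 8 ∧ 6 * Real.pi * CC * ε1 / β ≤ ε / 8 := by
    refine ⟨min (ε / 8) (ε / 8 * β / (6 * Real.pi * CC)), ?_, min_le_left _ _, ?_⟩
    · exact lt_min (by positivity) (by positivity)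
    · have : 6 * Real.pi * CC * min (ε / 8) (ε / 8 * β / (6 * Real.pi * CC)) ≤
          6 * Real.pi * CC * (ε / 8 * β / (6 * Real.pi * CC)) := by
        gcongr; exact min_le_right _ _
      rw [div_le_iff₀ hβ]
      refine this.trans (le_of_eq ?_)
      field_simp
  obtain ⟨K, η0, X0, hK, hη0, hX0, hmain⟩ := H ε1 hε1
  -- choose η
  obtain ⟨η, hη, hη1, hηη0, hη2⟩ : ∃ η : ℝ, 0 < η ∧ η ≤ 1 ∧ η ≤ η0 ∧
      8 * η * (d ^ 2 * Rw γ 0 / β) ≤ ε / 8 := by
    refine ⟨min (min 1 η0) (ε / 64 / (d ^ 2 * Rw γ 0 / β + 1)), ?_, ?_, ?_, ?_⟩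
    · exact lt_min (lt_min one_pos hη0) (by positivity)
    · exact (min_le_left _ _).trans (min_le_left _ _)
    · exact (min_le_left _ _).trans (min_le_right _ _)
    · have h1 : min (min 1 η0) (ε / 64 / (d ^ 2 * Rw γ 0 / β + 1)) ≤ ε / 64 / (d ^ 2 * Rw γ 0 / β + 1) :=
        min_le_right _ _
      have h2 : 0 ≤ d ^ 2 * Rw γ 0 / β := by positivity
      have h3 : ε / 64 / (d ^ 2 * Rw γ 0 / β + 1) * (d ^ 2 * Rw γ 0 / β) ≤ ε / 64 := by
        rw [div_mul_eq_mul_div, div_le_iff₀ (by positivity)]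
        exact NL.b9 (by positivity)
      have h4 : min (min 1 η0) (ε / 64 / (d ^ 2 * Rw γ 0 / β + 1)) * (d ^ 2 * Rw γ 0 / β) ≤
          ε / 64 / (d ^ 2 * Rw γ 0 / β + 1) * (d ^ 2 * Rw γ 0 / β) := mul_le_mul_of_nonneg_right h1 h2
      exact NL.b10 h4 h3
  -- choose L0
  set L0 : ℝ := 8 + 4 * β + 1 / β + CC * (12 / β + 3) * (2 * Real.pi) * (8 / ε) +
    10 * Real.pi * C2 * (d ^ 2 * Rw γ 0 / β + c' + ε) * (2 / ε) with hL0
  have hL0a : 4 * β + 8 ≤ L0 := by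
    have : 0 ≤ 1 / β + CC * (12 / β + 3) * (2 * Real.pi) * (8 / ε) +
      10 * Real.pi * C2 * (d ^ 2 * Rw γ 0 / β + c' + ε) * (2 / ε) := by positivity
    rw [hL0]; linarith
  have hL0b : 1 / β ≤ L0 := by
    have : 0 ≤ 8 + 4 * β + CC * (12 / β + 3) * (2 * Real.pi) * (8 / ε) +
      10 * Real.pi * C2 * (d ^ 2 * Rw γ 0 / β + c' + ε) * (2 / ε) := by positivity
    rw [hL0]; linarith
  have hL0c : CC * (12 / β + 3) * (2 * Real.pi) ≤ ε / 8 * L0 := by
    have h1 : 0 ≤ 8 + 4 * β + 1 / β +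
      10 * Real.pi * C2 * (d ^ 2 * Rw γ 0 / β + c' + ε) * (2 / ε) := by positivity
    have h2 : ε / 8 * L0 = CC * (12 / β + 3) * (2 * Real.pi) + ε / 8 * (8 + 4 * β + 1 / β +
      10 * Real.pi * C2 * (d ^ 2 * Rw γ 0 / β + c' + ε) * (2 / ε)) := by
      rw [hL0]; field_simp; ring
    rw [h2]
    have := mul_nonneg (show 0 ≤ ε / 8 by positivity) h1
    linarith
  have hL0d : 10 * Real.pi * C2 * (d ^ 2 * Rw γ 0 / β + c' + ε) ≤ ε / 2 * L0 := by
    have h1 : 0 ≤ 8 + 4 * β + 1 / β + CC * (12 / β + 3) * (2 * Real.pi) * (8 / ε) := by positivity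
    have h2 : ε / 2 * L0 = 10 * Real.pi * C2 * (d ^ 2 * Rw γ 0 / β + c' + ε) + ε / 2 * (8 + 4 * β + 1 / β +
      CC * (12 / β + 3) * (2 * Real.pi) * (8 / ε)) := by
      rw [hL0]; field_simp; ring
    rw [h2]
    have := mul_nonneg (show 0 ≤ ε / 2 by positivity) h1
    linarith
  refine ⟨K, η, max X0 (Real.exp L0), hK, hη, le_max_of_le_left hX0, ?_⟩
  intro X Y T hX hKX hY hT1 hT2 G hG
  have hXX0 : X0 ≤ X := (le_max_left _ _).trans hX
  have hXe : Real.exp L0 ≤ X := (le_max_right _ _).trans hX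
  have hX1 : (1 : ℝ) ≤ X := hX0.trans hXX0
  have hXpos : (0 : ℝ) < X := by linarith
  have hXn : 1 ≤ X := by exact_mod_cast hX1
  set L : ℝ := Real.log X with hL
  have hLL0 : L0 ≤ L := by
    rw [hL, Real.le_log_iff_exp_le hXpos]; exact hXe
  have hXexp : (X : ℝ) = Real.exp L := by rw [hL, Real.exp_log hXpos]
  have hXη : (X : ℝ) ^ η = Real.exp (η * L) := by
    rw [Real.rpow_def_of_pos hXpos, mul_comm]
  have hT2' : T ≤ Real.exp (η * L) := by rw [← hXη]; exact hT2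
  have hXY : (X : ℝ) ≤ Y := NL.b11 hXpos.le hK hKX
  have hYpos : (0 : ℝ) < Y := by linarith
  obtain ⟨p1, p2, p3, p4, p5, p6⟩ := param_ok β L T η hβ hη1 (by linarith) (by linarith) hT1 hT2'
  have hTpos : 0 < T := by linarith
  have hL8 : 8 ≤ L := by linarith
  have hYη : Real.log (Y * T) ≤ (1 + 2 * η) * L := by
    rw [Real.log_mul hYpos.ne' hTpos.ne']
    have h1 : Real.log Y ≤ (1 + η) * L := by
      have := Real.log_le_log hYpos hY
      rwa [Real.log_rpow hXpos] at this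
    have h2 : Real.log T ≤ η * L := by
      have := Real.log_le_log hTpos hT2'
      rwa [Real.log_exp] at this
    linarith
  obtain ⟨Yf, y1, y2, hy1, hy2, m1, m2, m3, m4, m5⟩ := hmain X Y T hXX0 hKX
    (hY.trans (Real.rpow_le_rpow_of_exponent_le hX1 (by linarith))) hT1
    (hT2.trans (Real.rpow_le_rpow_of_exponent_le hX1 hηη0))
  -- family data
  have hdata : ∀ p ∈ primSetM M X Y, 0 ≤ (1 / (p.1 : ℝ) ^ 2) ∧ (1 : ℝ) ≤ (p.1 : ℝ) ∧
      GoodE d A (p.1 : ℝ) (F p.1 p.2)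
        (fun n => p.2 (n : ZMod p.1) * c n * (ArithmeticFunction.vonMangoldt n : ℂ)) ∧
      Real.log ((p.1 : ℝ) * T) ≤ (1 + 2 * η) * L := by
    intro p hp
    obtain ⟨h1, h2, h4, h3⟩ := (mem_primSetM M X Y p).mp hp
    have hq : NeZero p.1 := ⟨by omega⟩
    refine ⟨by positivity, by exact_mod_cast (show 1 ≤ p.1 by omega), ?_, ?_⟩
    · exact hgood p.1 p.2 (by omega) h4 h3
    · refine le_trans (Real.log_le_log ?_ ?_) hYη
      · have : (0 : ℝ) < (p.1 : ℝ) := by exact_mod_cast (show 0 < p.1 by omega)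
        positivity
      · have : (p.1 : ℝ) ≤ Y := by exact_mod_cast h2
        exact mul_le_mul_of_nonneg_right this hTpos.le
  have hLm : (1 + 2 * η) * L ≤ 3 * L := mul_le_mul_of_nonneg_right (by linarith) (by linarith)
  have hLm1 : 1 ≤ (1 + 2 * η) * L := NL.b12 hη (by linarith)
  have hLm0 : 0 ≤ (1 + 2 * η) * L := by linarith
  have hLm2 : ((1 + 2 * η) * L) ^ 2 ≤ 9 * L ^ 2 := by
    have h0 : ((1 + 2 * η) * L) ^ 2 ≤ (3 * L) ^ 2 := pow_le_pow_left₀ hLm0 hLm 2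
    linarith [show (3 * L) ^ 2 = 9 * L ^ 2 by ring]
  have hW : ∑ p ∈ primSetM M X Y, (1 / (p.1 : ℝ) ^ 2) = WM M X Y := by
    unfold WM; rw [primFamM_eq]; simp
  have hW0 : 0 ≤ WM M X Y := primFamM_nonneg _ _ _ _ (fun _ _ => zero_le_one)
  have hms : ∀ u ∈ Set.Icc 0 (β * L),
        ∫ t : ℝ, ∑ p ∈ primSetM M X Y, (1 / (p.1 : ℝ) ^ 2) *
          ‖∑' n : ℕ, (p.2 (n : ZMod p.1) * c n * (ArithmeticFunction.vonMangoldt n : ℂ)) *
            ((Real.sqrt n : ℂ)⁻¹ * bt T u t (Real.log n))‖ ^ 2 ≤ Yf u := by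
    intro u hu
    refine le_trans (le_of_eq ?_) (m1 u hu)
    congr 1
    funext t
    rw [primFamM_eq]
  have hexp : ((1 + 2 * η) * L) ^ 2 * Real.exp (β * L - L ^ 2 / 2) ≤ Real.exp (-(β * L)) :=
    le_trans (mul_le_mul_of_nonneg_right hLm2 (Real.exp_pos _).le) p5
  have k1 := hfam (primSetM M X Y) (fun p => 1 / (p.1 : ℝ) ^ 2) (fun p => (p.1 : ℝ))
    (fun p => F p.1 p.2)
    (fun p n => p.2 (n : ZMod p.1) * c n * (ArithmeticFunction.vonMangoldt n : ℂ))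
    T L (β * L) ((1 + 2 * η) * L) y1 y2 Yf (fun p => G p.1 p.2)
    hdata p1 p2 p3 p4 hLm1 hexp hy1 hy2 hms m2 m3 (by
      intro p hp V1 V2 v1 v2 v3 v4
      obtain ⟨h1, h2, h4, h3⟩ := (mem_primSetM M X Y p).mp hp
      exact hG p.1 p.2 h1 h2 h4 h3 V1 V2 v1 v2 v3 v4)
  -- lower bound for the number of zeros
  have hN : WM M X Y * (d * (T / (2 * Real.pi) * L) - 5 * C2 * T) ≤
      primFamM M X Y (fun q χ => (NN (F q χ) T (2 * T) : ℝ)) := by
    have : WM M X Y * (d * (T / (2 * Real.pi) * L) - 5 * C2 * T) =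
        primFamM M X Y (fun _ _ => d * (T / (2 * Real.pi) * L) - 5 * C2 * T) := by
      rw [primFamM_eq, ← hW, Finset.sum_mul]
    rw [this]
    refine primFamM_mono _ _ _ _ _ (fun q χ hq1 hq2 hqM hχ => ?_)
    have hq : NeZero q := ⟨by omega⟩
    have hqX : (X : ℝ) ≤ q := by exact_mod_cast hq1.le
    have hqY : (q : ℝ) ≤ Y := by exact_mod_cast hq2
    have hq0 : (0 : ℝ) < q := by linarith
    have hT1' : 1 ≤ T := by linarith
    have hl := hlow q (F q χ) _ (by linarith) (hgood q χ (by omega) hqM hχ) T L p1 p2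
    have hlog1 : L ≤ Real.log (q * T) := by
      rw [hL]
      refine Real.log_le_log hXpos ?_
      calc (X : ℝ) = X * 1 := (mul_one _).symm
        _ ≤ q * T := mul_le_mul hqX hT1' zero_le_one hq0.le
    have hlog2 : Real.log (q * T) ≤ 3 * L := by
      refine le_trans ?_ hLm
      refine le_trans (Real.log_le_log (by positivity) ?_) hYη
      exact mul_le_mul_of_nonneg_right hqY hTpos.le
    refine le_trans ?_ hl
    have a1 : d * (T / (2 * Real.pi) * L) ≤ T / (2 * Real.pi) * (d * Real.log (q * T)) := by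
      calc d * (T / (2 * Real.pi) * L) = T / (2 * Real.pi) * (d * L) := by ring
        _ ≤ _ := mul_le_mul_of_nonneg_left (mul_le_mul_of_nonneg_left hlog1 hd0.le) (by positivity)
    have a2 : L * Real.log (q * T) ≤ 3 * T := by
      have : L * Real.log (q * T) ≤ L * (3 * L) := mul_le_mul_of_nonneg_left hlog2 (by linarith)
      linarith [show L * (3 * L) = 3 * L ^ 2 by ring]
    have a3 : T * Real.log (q * T) ^ 2 * Real.exp (-L ^ 2 / 2) ≤ T := by
      have b1 : Real.log (q * T) ^ 2 ≤ (3 * L) ^ 2 := pow_le_pow_left₀ (by linarith) hlog2 2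
      have b2 : Real.log (q * T) ^ 2 * Real.exp (-L ^ 2 / 2) ≤ 1 := by
        refine le_trans (mul_le_mul_of_nonneg_right b1 (Real.exp_pos _).le) ?_
        rw [show (3 * L) ^ 2 = 9 * L ^ 2 by ring]; exact p6
      calc _ = T * (Real.log (q * T) ^ 2 * Real.exp (-L ^ 2 / 2)) := by ring
        _ ≤ T * 1 := mul_le_mul_of_nonneg_left b2 hTpos.le
        _ = T := mul_one T
    have a4 : C2 * (T + L * Real.log (q * T) + T * Real.log (q * T) ^ 2 * Real.exp (-L ^ 2 / 2)) ≤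
        C2 * (5 * T) := mul_le_mul_of_nonneg_left (by linarith) hC2.le
    linarith
  have hL0L : ε / 8 * L0 ≤ ε / 8 * L := mul_le_mul_of_nonneg_left hLL0 (by positivity)
  have hL0L' : ε / 2 * L0 ≤ ε / 2 * L := mul_le_mul_of_nonneg_left hLL0 (by positivity)
  have core : ∀ (D : ℝ) (SM : ℝ), 0 < D → D ≤ CC →
      SM ≤ WM M X Y * (d * ((1 + 2 * η) * L)) ^ 2 * Rw γ 0 * T / (2 * Real.pi * (β * L)) +
        (2 / (Real.sqrt Real.pi * (β * L))) * (∫ u in (0 : ℝ)..(β * L), Rw γ (u / (β * L)) * Yf u) +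
      D * (WM M X Y * (((1 + 2 * η) * L) ^ 2 * L / (β * L) + ((1 + 2 * η) * L) * T / (β * L) +
        L * ((1 + 2 * η) * L)) + Real.sqrt (WM M X Y) * ((1 + 2 * η) * L) * T *
          (Real.sqrt y1 + Real.sqrt y2) / (β * L)) →
      SM ≤ (d * Rw γ 0 / β + c' / d + ε) * primFamM M X Y (fun q χ => (NN (F q χ) T (2 * T) : ℝ)) := by
    intro D SM hD hDC hSM
    refine numeric_core_D d β c' ε (Rw γ 0) D C2 η ε1 L T (WM M X Y) _ SM _ _ hd hβ hc' hε hR0 hD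
      hC2 hη hη1 hε1 hL8 hT1 hW0 hη2 hε1a ?_ ?_ ?_ m4 m5 hSM hN
      (primFamM_nonneg _ _ _ _ (fun _ _ => Nat.cast_nonneg _))
    · refine le_trans ?_ (hL0c.trans hL0L)
      have : 0 ≤ (12 / β + 3) * (2 * Real.pi) := by positivity
      rw [mul_assoc, mul_assoc]
      exact mul_le_mul_of_nonneg_right hDC this
    · refine le_trans ?_ hε1b
      gcongr
    · exact hL0d.trans hL0L'
  refine core C1 _ hC1 le_rfl ?_
  rw [primFamM_eq]
  rw [hW] at k1
  refine k1.trans (le_of_eq ?_)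
  ring

end V8H36.IS
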