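import Pool.Agent.V8H36.IS.PerC
import Pool.Agent.H344R2.KBounds

/-!
Isolated zeros in families (helper36): bounds for the kernel `phiw`.
-/

open Complex Filter Topology Set MeasureTheory
open scoped BigOperators ComplexConjugate

namespace V8H36.IS

open H385

lemma gw_cont (γ : ℝ) : Continuous (gw γ) := WinAux.cont γ

lemma gw_even (γ t : ℝ) : gw γ (-t) = gw γ t := by
  unfold gw
  rw [mul_neg, Real.cos_neg]

lemma kapw_re_gen (γ u v : ℝ) : (kapw γ ((u : ℂ) + I * v)).re =
    ∫ t in (-1 / 2 : ℝ)..(1 / 2), gw γ t * (Real.exp (-v * t) * Real.cos (u * t)) := by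
  unfold kapw
  have h := ContinuousLinearMap.intervalIntegral_comp_comm (μ := volume) Complex.reCLM
    (f := fun t : ℝ => (gw γ t : ℂ) * cexp (I * ((u : ℂ) + I * v) * t)) (a := (-1 / 2 : ℝ))
    (b := 1 / 2)
    (by
      apply Continuous.intervalIntegrable
      have := gw_cont γ
      fun_prop)
  simp only [Complex.reCLM_apply] at h
  rw [← h]
  apply intervalIntegral.integral_congr
  intro t _
  simp only
  rw [Complex.re_ofReal_mul]
  congr 1
  rw [Complex.exp_re]
  have h1 : (I * ((u : ℂ) + I * v) * t).re = -v * t := by simp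
  have h2 : (I * ((u : ℂ) + I * v) * t).im = u * t := by simp
  rw [h1, h2]

lemma kapw_re_cosh (γ u v : ℝ) : (kapw γ ((u : ℂ) + I * v)).re =
    ∫ t in (-1 / 2 : ℝ)..(1 / 2), gw γ t * (Real.cosh (v * t) * Real.cos (u * t)) := by
  have hc := gw_cont γ
  have h1 := kapw_re_gen γ u v
  have h2 : (kapw γ ((u : ℂ) + I * v)).re =
    ∫ t in (-1 / 2 : ℝ)..(1 / 2), gw γ t * (Real.exp (v * t) * Real.cos (u * t)) := by
    rw [h1]
    have h := intervalIntegral.integral_comp_neg (a := (-1 / 2 : ℝ)) (b := 1 / 2)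
      (fun t : ℝ => gw γ t * (Real.exp (v * t) * Real.cos (u * t)))
    have e1 : (-(1 / 2) : ℝ) = -1 / 2 := by norm_num
    have e2 : (-(-1 / 2) : ℝ) = 1 / 2 := by norm_num
    rw [e1, e2] at h
    rw [← h]
    apply intervalIntegral.integral_congr
    intro t _
    simp only
    rw [gw_even, mul_neg u, Real.cos_neg]
    ring_nf
  have h3 : (∫ t in (-1 / 2 : ℝ)..(1 / 2), gw γ t * (Real.exp (-v * t) * Real.cos (u * t))) +
      (∫ t in (-1 / 2 : ℝ)..(1 / 2), gw γ t * (Real.exp (v * t) * Real.cos (u * t))) =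
      2 * ∫ t in (-1 / 2 : ℝ)..(1 / 2), gw γ t * (Real.cosh (v * t) * Real.cos (u * t)) := by
    rw [← intervalIntegral.integral_add, ← intervalIntegral.integral_const_mul]
    · apply intervalIntegral.integral_congr
      intro t _
      simp only
      rw [Real.cosh_eq, ← neg_mul]
      ring
    · apply Continuous.intervalIntegrable; fun_prop
    · apply Continuous.intervalIntegrable; fun_prop
  rw [← h1, ← h2] at h3
  linarith

variable {γ : ℝ} (h0 : 0 < γ) (hπ : γ < Real.pi)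
include h0 hπ

lemma int_gw : ∫ t in (-1 / 2 : ℝ)..(1 / 2), gw γ t = 1 := by
  have h := kapw_re_cosh γ 0 0
  have e : (((0 : ℝ) : ℂ) + I * ((0 : ℝ) : ℂ)) = 0 := by simp
  rw [e, kapw_zero γ h0 hπ, Complex.one_re] at h
  refine Eq.trans ?_ h.symm
  apply intervalIntegral.integral_congr
  intro t _
  simp

/-- the second moment of the window is at most that of the uniform distribution -/
lemma gw_sq_le : ∫ t in (-1 / 2 : ℝ)..(1 / 2), gw γ t * t ^ 2 ≤ 1 / 12 := by
  have hc := gw_cont γ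
  have hs := WinAux.sin_pos h0 hπ
  set x0 : ℝ := Real.sqrt (1 / 12) with hx0
  have hx0sq : x0 ^ 2 = 1 / 12 := Real.sq_sqrt (by norm_num)
  have hx00 : 0 ≤ x0 := Real.sqrt_nonneg _
  have hx01 : x0 ≤ 1 / 2 := by
    rw [hx0, Real.sqrt_le_left (by norm_num)]; norm_num
  have hanti : ∀ x y : ℝ, |x| ≤ |y| → |y| ≤ 1 / 2 → gw γ y ≤ gw γ x := by
    intro x y hxy hy
    unfold gw
    apply div_le_div_of_nonneg_right _ (by positivity)
    apply mul_le_mul_of_nonneg_left _ h0.le
    rw [← Real.cos_abs (γ * y), ← Real.cos_abs (γ * x)]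
    apply Real.cos_le_cos_of_nonneg_of_le_pi (abs_nonneg _)
    · rw [abs_mul, abs_of_pos h0]; nlinarith [abs_nonneg y]
    · rw [abs_mul, abs_mul, abs_of_pos h0]
      exact mul_le_mul_of_nonneg_left hxy h0.le
  have hpt : ∀ t ∈ Set.Icc (-1 / 2 : ℝ) (1 / 2), gw γ t * t ^ 2 ≤
      (1 / 12) * gw γ t + (gw γ x0) * (t ^ 2 - 1 / 12) := by
    intro t ht
    have hta : |t| ≤ 1 / 2 := by rw [abs_le]; constructor <;> linarith [ht.1, ht.2]
    have hx0a : |x0| = x0 := abs_of_nonneg hx00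
    have key : (gw γ t - gw γ x0) * (t ^ 2 - x0 ^ 2) ≤ 0 := by
      rcases le_total |t| |x0| with h | h
      · have h1 := hanti t x0 h (by rw [hx0a]; exact hx01)
        have h2 : t ^ 2 ≤ x0 ^ 2 := sq_le_sq.mpr h
        exact mul_nonpos_of_nonneg_of_nonpos (by linarith) (by linarith)
      · have h1 := hanti x0 t h hta
        have h2 : x0 ^ 2 ≤ t ^ 2 := sq_le_sq.mpr h
        exact mul_nonpos_of_nonpos_of_nonneg (by linarith) (by linarith)
    rw [hx0sq] at key
    nlinarith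
  calc ∫ t in (-1 / 2 : ℝ)..(1 / 2), gw γ t * t ^ 2 ≤
      ∫ t in (-1 / 2 : ℝ)..(1 / 2), ((1 / 12) * gw γ t + (gw γ x0) * (t ^ 2 - 1 / 12)) := by
        apply intervalIntegral.integral_mono_on (by norm_num)
        · apply Continuous.intervalIntegrable; fun_prop
        · apply Continuous.intervalIntegrable; fun_prop
        exact hpt
    _ = 1 / 12 := by
        rw [intervalIntegral.integral_add, intervalIntegral.integral_const_mul,
          intervalIntegral.integral_const_mul, int_gw h0 hπ, intervalIntegral.integral_sub]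
        · simp only [integral_pow, intervalIntegral.integral_const, smul_eq_mul]
          norm_num
        · apply Continuous.intervalIntegrable; fun_prop
        · apply Continuous.intervalIntegrable; fun_prop
        · apply Continuous.intervalIntegrable; fun_prop
        · apply Continuous.intervalIntegrable; fun_prop

/-- lower bound for the real part of the kernel in a box -/
lemma kapw_lower {R u v : ℝ} (hu : |u| ≤ R) (hR : R ≤ Real.pi) :
    1 - R ^ 2 / 24 ≤ (kapw γ ((u : ℂ) + I * v)).re := by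
  rw [kapw_re_cosh]
  have hc := gw_cont γ
  have hsq := gw_sq_le h0 hπ
  have h1 : ∫ t in (-1 / 2 : ℝ)..(1 / 2), (gw γ t - R ^ 2 / 2 * (gw γ t * t ^ 2)) ≤
      ∫ t in (-1 / 2 : ℝ)..(1 / 2), gw γ t * (Real.cosh (v * t) * Real.cos (u * t)) := by
    apply intervalIntegral.integral_mono_on (by norm_num)
    · apply Continuous.intervalIntegrable; fun_prop
    · apply Continuous.intervalIntegrable; fun_prop
    intro t ht
    have hg := gw_nonneg γ h0 hπ t ht.1 ht.2
    have hat : |t| ≤ 1 / 2 := by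
      rw [abs_le]; constructor <;> linarith [ht.1, ht.2]
    have h2 : 0 ≤ Real.cos (u * t) := by
      apply Real.cos_nonneg_of_mem_Icc
      have h3 : |u * t| ≤ Real.pi / 2 := by
        rw [abs_mul]
        nlinarith [abs_nonneg t, abs_nonneg u, Real.pi_pos]
      rw [abs_le] at h3
      exact ⟨by linarith [h3.1], h3.2⟩
    have h4 : 1 - (u * t) ^ 2 / 2 ≤ Real.cos (u * t) := Real.one_sub_sq_div_two_le_cos
    have h5 : (u * t) ^ 2 ≤ R ^ 2 * t ^ 2 := by
      rw [mul_pow]
      apply mul_le_mul_of_nonneg_right _ (sq_nonneg _)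
      rw [← sq_abs u]
      exact pow_le_pow_left₀ (abs_nonneg _) hu 2
    have h6 : 1 ≤ Real.cosh (v * t) := Real.one_le_cosh _
    have h7 : 1 - R ^ 2 / 2 * t ^ 2 ≤ Real.cosh (v * t) * Real.cos (u * t) := by
      nlinarith
    calc gw γ t - R ^ 2 / 2 * (gw γ t * t ^ 2) = gw γ t * (1 - R ^ 2 / 2 * t ^ 2) := by ring
      _ ≤ _ := mul_le_mul_of_nonneg_left h7 hg
  have h2 : ∫ t in (-1 / 2 : ℝ)..(1 / 2), (gw γ t - R ^ 2 / 2 * (gw γ t * t ^ 2)) =
      1 - R ^ 2 / 2 * ∫ t in (-1 / 2 : ℝ)..(1 / 2), gw γ t * t ^ 2 := by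
    rw [intervalIntegral.integral_sub, intervalIntegral.integral_const_mul, int_gw h0 hπ]
    · apply Continuous.intervalIntegrable; fun_prop
    · apply Continuous.intervalIntegrable; fun_prop
  rw [h2] at h1
  refine le_trans ?_ h1
  have h3 : 0 ≤ R ^ 2 := sq_nonneg R
  nlinarith

lemma kapw_norm (u v : ℝ) : ‖kapw γ ((u : ℂ) + I * v)‖ ≤ Real.exp (|v| / 2) := by
  unfold kapw
  have hc := gw_cont γ
  calc ‖∫ x in (-1 / 2 : ℝ)..(1 / 2), (gw γ x : ℂ) * cexp (I * ((u : ℂ) + I * v) * x)‖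
      ≤ ∫ x in (-1 / 2 : ℝ)..(1 / 2), gw γ x * Real.exp (|v| / 2) := by
        apply intervalIntegral.norm_integral_le_of_norm_le (by norm_num)
        · refine Filter.Eventually.of_forall fun x hx => ?_
          have hg := gw_nonneg γ h0 hπ x hx.1.le hx.2
          rw [norm_mul, Complex.norm_real, Real.norm_of_nonneg hg, Complex.norm_exp]
          apply mul_le_mul_of_nonneg_left _ hg
          apply Real.exp_le_exp.mpr
          have h1 : (I * ((u : ℂ) + I * v) * x).re = -v * x := by simp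
          rw [h1]
          have hax : |x| ≤ 1 / 2 := by
            rw [abs_le]; constructor <;> linarith [hx.1, hx.2]
          calc -v * x ≤ |-v * x| := le_abs_self _
            _ = |v| * |x| := by rw [abs_mul, abs_neg]
            _ ≤ |v| * (1 / 2) := mul_le_mul_of_nonneg_left hax (abs_nonneg _)
            _ = |v| / 2 := by ring
        · apply Continuous.intervalIntegrable; fun_prop
    _ = Real.exp (|v| / 2) := by
        rw [intervalIntegral.integral_mul_const, int_gw h0 hπ, one_mul]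

lemma kapw_imag (v : ℝ) : (kapw γ (I * v : ℂ)).re ≤ 1 + (Real.cosh (v / 2) - 1) / 3 := by
  have h := kapw_re_cosh γ 0 v
  simp only [Complex.ofReal_zero, zero_add, zero_mul, Real.cos_zero, mul_one] at h
  rw [h]
  have hc := gw_cont γ
  have hsq := gw_sq_le h0 hπ
  have h5 : 1 ≤ Real.cosh (v / 2) := Real.one_le_cosh _
  calc ∫ t in (-1 / 2 : ℝ)..(1 / 2), gw γ t * Real.cosh (v * t)
      ≤ ∫ t in (-1 / 2 : ℝ)..(1 / 2), (gw γ t + gw γ t * t ^ 2 * (4 * (Real.cosh (v / 2) - 1))) := by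
        apply intervalIntegral.integral_mono_on (by norm_num)
        · apply Continuous.intervalIntegrable; fun_prop
        · apply Continuous.intervalIntegrable; fun_prop
        intro t ht
        have hg := gw_nonneg γ h0 hπ t ht.1 ht.2
        have h1 := H344.cosh_scale (v / 2) (2 * t) (by
          rw [abs_le]; constructor <;> linarith [ht.1, ht.2])
        rw [show v / 2 * (2 * t) = v * t by ring] at h1
        have h2 := mul_le_mul_of_nonneg_left h1 hg
        calc gw γ t * Real.cosh (v * t) ≤ gw γ t * (1 + (2 * t) ^ 2 * (Real.cosh (v / 2) - 1)) := h2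
          _ = _ := by ring
    _ = 1 + (∫ t in (-1 / 2 : ℝ)..(1 / 2), gw γ t * t ^ 2) * (4 * (Real.cosh (v / 2) - 1)) := by
        rw [intervalIntegral.integral_add, intervalIntegral.integral_mul_const, int_gw h0 hπ]
        · apply Continuous.intervalIntegrable; fun_prop
        · apply Continuous.intervalIntegrable; fun_prop
    _ ≤ 1 + (1 / 12) * (4 * (Real.cosh (v / 2) - 1)) := by
        have : (∫ t in (-1 / 2 : ℝ)..(1 / 2), gw γ t * t ^ 2) * (4 * (Real.cosh (v / 2) - 1)) ≤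
            (1 / 12) * (4 * (Real.cosh (v / 2) - 1)) :=
          mul_le_mul_of_nonneg_right hsq (by linarith)
        linarith
    _ = _ := by ring

theorem kernel_ok' (c : ℝ) (hc0 : 0 ≤ c) (hc : c ≤ 13 / 10) (e1 : ℝ) (he1 : 0 < e1)
    (he1' : e1 ≤ 1) (L : ℝ) (hL : max 100 (1 / e1) ≤ L) (Λ : ℝ) (hΛ0 : 0 ≤ Λ) (hΛ1 : Λ ≤ 2 * L) :
      KerOK γ Λ (2 * Real.exp (-L ^ 2 / 2)) (c / L) (5 / 4 / L) ((1 - e1) * (1 - c ^ 2 / 6) ^ 2) := by
  have hL1 : 100 ≤ L := (le_max_left _ _).trans hL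
  have hL2 : 1 / e1 ≤ L := (le_max_right _ _).trans hL
  have hL0 : 0 < L := by linarith
  have hLe : 1 ≤ L * e1 := by rw [div_le_iff₀ he1] at hL2; exact hL2
  have hpi3 := Real.pi_gt_three
  set e := 2 * Real.exp (-L ^ 2 / 2) with he
  have he0 : 0 < e := by positivity
  set δ : ℝ := 1 / L ^ 2 with hδ
  have hδ0 : 0 < δ := by positivity
  have hδL : δ * L ^ 2 = 1 := by rw [hδ]; field_simp
  have hδ1 : δ ≤ 0.0001 := by
    rw [hδ, div_le_iff₀ (by positivity)]; nlinarith
  have hδe : δ ≤ 0.01 * e1 := by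
    rw [hδ, div_le_iff₀ (by positivity)]
    nlinarith
  have heδ : e ≤ 4 * δ := by
    have h1 := Real.add_one_le_exp (L ^ 2 / 2)
    have h2 : Real.exp (-L ^ 2 / 2) * Real.exp (L ^ 2 / 2) = 1 := by
      rw [← Real.exp_add]; ring_nf; exact Real.exp_zero
    have h3 : Real.exp (-L ^ 2 / 2) * (L ^ 2 / 2) ≤ 1 := by
      calc Real.exp (-L ^ 2 / 2) * (L ^ 2 / 2) ≤ Real.exp (-L ^ 2 / 2) * Real.exp (L ^ 2 / 2) :=
            mul_le_mul_of_nonneg_left (by linarith) (Real.exp_pos _).le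
        _ = 1 := h2
    have h4 : e * L ^ 2 ≤ 4 := by rw [he]; linarith
    have h5 : e * L ^ 2 ≤ (4 * δ) * L ^ 2 := by linarith
    exact le_of_mul_le_mul_right h5 (by positivity)
  set K : ℝ := 1 - c ^ 2 / 6 with hK
  have hc2 : c ^ 2 ≤ 1.69 := by nlinarith
  have hK1 : 0.71 ≤ K := by rw [hK]; norm_num at hc2 ⊢; linarith
  have hK2 : K ≤ 1 := by rw [hK]; have := sq_nonneg c; linarith
  have hsc : ∀ x : ℝ, |x| ≤ c / L → |Λ * x| ≤ 2 * c := by
    intro x hx
    rw [abs_mul, abs_of_nonneg hΛ0]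
    calc Λ * |x| ≤ (2 * L) * (c / L) := mul_le_mul hΛ1 hx (abs_nonneg _) (by linarith)
      _ = 2 * c := by field_simp
  have hsq : ∀ x : ℝ, |x| ≤ c / L → x ^ 2 ≤ 1.69 * δ := by
    intro x hx
    rw [← sq_abs]
    have h1 : |x| ^ 2 ≤ (c / L) ^ 2 := pow_le_pow_left₀ (abs_nonneg _) hx 2
    have h2 : (c / L) ^ 2 = c ^ 2 * δ := by rw [hδ]; field_simp
    rw [h2] at h1
    exact h1.trans (mul_le_mul_of_nonneg_right hc2 hδ0.le)
  have hKR : 1 - (2 * c) ^ 2 / 24 = K := by rw [hK]; ring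
  have hRpi : 2 * c ≤ Real.pi := by linarith
  constructor
  · intro x y hxy
    have e2 : phiw γ Λ ((x : ℂ) - y) = kapw γ (((Λ * (x - y) : ℝ) : ℂ) + I * ((0 : ℝ) : ℂ)) *
        ((Real.exp (-(x - y) ^ 2 / 8) : ℝ) : ℂ) := by
      unfold phiw
      push_cast
      congr 2
      ring
    rw [e2, Complex.re_mul_ofReal, mul_pow]
    have h1 := kapw_lower h0 hπ (v := 0) (hsc (x - y) hxy) hRpi
    rw [hKR] at h1
    have h2 : K ^ 2 ≤ (kapw γ (((Λ * (x - y) : ℝ) : ℂ) + I * ((0 : ℝ) : ℂ))).re ^ 2 :=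
      pow_le_pow_left₀ (by linarith) h1 2
    have h3 : 1 - 0.5 * δ ≤ Real.exp (-(x - y) ^ 2 / 8) ^ 2 := by
      rw [← Real.exp_nat_mul]
      have h4 := Real.add_one_le_exp (((2 : ℕ) : ℝ) * (-(x - y) ^ 2 / 8))
      have h5 := hsq (x - y) hxy
      push_cast at h4 ⊢
      norm_num at h5 ⊢
      linarith
    have h6 : 1 - e1 ≤ (1 - e) ^ 2 * (1 - 0.5 * δ) := by
      have h7 : 1 - 8 * δ ≤ (1 - e) ^ 2 := by nlinarith
      have h8 : (1 - 8 * δ) * (1 - 0.5 * δ) ≤ (1 - e) ^ 2 * (1 - 0.5 * δ) :=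
        mul_le_mul_of_nonneg_right h7 (by norm_num at hδ1 ⊢; linarith)
      refine le_trans ?_ h8
      norm_num at hδe ⊢
      nlinarith
    have h9 : (1 - e) ^ 2 * (1 - 0.5 * δ) * K ^ 2 ≤ (1 - e) ^ 2 *
        ((kapw γ (((Λ * (x - y) : ℝ) : ℂ) + I * ((0 : ℝ) : ℂ))).re ^ 2 *
          Real.exp (-(x - y) ^ 2 / 8) ^ 2) := by
      rw [mul_assoc]
      apply mul_le_mul_of_nonneg_left _ (sq_nonneg _)
      rw [mul_comm]
      apply mul_le_mul h2 h3 _ (sq_nonneg _)
      norm_num at hδ1 ⊢; linarith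
    exact (mul_le_mul_of_nonneg_right h6 (sq_nonneg K)).trans h9
  · intro x w hwx hw0 hw1
    set d := w.re - x with hd
    set η := w.im with hη
    have hη2 : η ^ 2 ≤ 1.5625 * δ := by
      calc η ^ 2 ≤ (5 / 4 / L) ^ 2 := pow_le_pow_left₀ hw0 hw1 2
        _ = 1.5625 * δ := by rw [hδ]; field_simp; norm_num
    have hΛη0 : 0 ≤ Λ * η := mul_nonneg hΛ0 hw0
    have hΛη1 : Λ * η ≤ 5 / 2 := by
      calc Λ * η ≤ (2 * L) * (5 / 4 / L) := mul_le_mul hΛ1 hw1 hw0 (by linarith)
        _ = 5 / 2 := by field_simp; norm_num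
    have hΛη2 : Λ * η ≤ 4 * Real.pi / 5 := by
      have := Real.pi_gt_d4
      norm_num at this ⊢
      linarith
    -- the diagonal value
    have hdiag : (phiw γ Λ (w - conj w)).re ≤ 2.94 := by
      have e2 : phiw γ Λ (w - conj w) = kapw γ (I * ((2 * (Λ * η) : ℝ) : ℂ)) *
          ((Real.exp (η ^ 2 / 2) : ℝ) : ℂ) := by
        have e1 : w - conj w = I * ((2 * η : ℝ) : ℂ) := by
          apply Complex.ext
          · simp
          · simp [hη]; ring
        unfold phiw
        rw [e1]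
        congr 1
        · congr 1
          push_cast; ring
        · push_cast
          congr 1
          have := I_sq
          linear_combination (-(η : ℂ) ^ 2 / 2) * this
      rw [e2, Complex.re_mul_ofReal]
      have h1 := kapw_imag h0 hπ (2 * (Λ * η))
      rw [show 2 * (Λ * η) / 2 = Λ * η by ring] at h1
      have h2 := H344.cosh_num hΛη0 hΛη2
      have h6 : (kapw γ (I * ((2 * (Λ * η) : ℝ) : ℂ))).re ≤ 2.934 := by
        refine h1.trans ?_
        norm_num at h2 ⊢
        linarith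
      have h8 : Real.exp (η ^ 2 / 2) ≤ 1.001 := by
        have h9 : η ^ 2 / 2 ≤ 0.0004 := by
          norm_num at hη2 hδ1 ⊢; linarith
        have h10 := Real.one_sub_le_exp_neg (η ^ 2 / 2)
        rw [Real.exp_neg] at h10
        have h7 : 0 < Real.exp (η ^ 2 / 2) := Real.exp_pos _
        have h8 : Real.exp (η ^ 2 / 2) * (1 - η ^ 2 / 2) ≤ 1 := by
          calc Real.exp (η ^ 2 / 2) * (1 - η ^ 2 / 2) ≤ Real.exp (η ^ 2 / 2) *
                (Real.exp (η ^ 2 / 2))⁻¹ := mul_le_mul_of_nonneg_left h10 h7.le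
            _ = 1 := mul_inv_cancel₀ h7.ne'
        have h11 : Real.exp (η ^ 2 / 2) * 0.9996 ≤ 1 := by
          refine le_trans (mul_le_mul_of_nonneg_left ?_ h7.le) h8
          norm_num at h9 ⊢
          linarith
        norm_num at h11 ⊢
        linarith
      have h12 : 0 ≤ (kapw γ (I * ((2 * (Λ * η) : ℝ) : ℂ))).re := by
        have h13 := kapw_lower h0 hπ (R := 0) (u := 0) (v := 2 * (Λ * η)) (by simp) (by linarith)
        simp only [Complex.ofReal_zero, zero_add] at h13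
        norm_num at h13 ⊢
        linarith
      calc (kapw γ (I * ((2 * (Λ * η) : ℝ) : ℂ))).re * Real.exp (η ^ 2 / 2) ≤ 2.934 * 1.001 :=
            mul_le_mul h6 h8 (Real.exp_pos _).le (by norm_num)
        _ ≤ 2.94 := by norm_num
    -- the off-diagonal value
    have hd2 := hsq d hwx
    have e2 : phiw γ Λ (w - x) = kapw γ ((Λ * d : ℝ) + I * (Λ * η : ℝ)) +
        kapw γ ((Λ * d : ℝ) + I * (Λ * η : ℝ)) * (cexp (-((d : ℂ) + I * η) ^ 2 / 8) - 1) := by
      have e1 : w - x = (d : ℂ) + I * η := by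
        apply Complex.ext
        · simp [hd]
        · simp [hη]
      unfold phiw
      rw [e1]
      have : (Λ : ℂ) * ((d : ℂ) + I * η) = ((Λ * d : ℝ) : ℂ) + I * ((Λ * η : ℝ) : ℂ) := by
        push_cast; ring
      rw [this]
      ring
    have h1 : K ≤ (kapw γ ((Λ * d : ℝ) + I * (Λ * η : ℝ))).re := by
      have := kapw_lower h0 hπ (v := Λ * η) (hsc d hwx) hRpi
      rw [hKR] at this
      exact this
    have h2 : ‖-((d : ℂ) + I * η) ^ 2 / 8‖ ≤ 0.5 * δ := by
      rw [norm_div, norm_neg, norm_pow]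
      have h3 : ‖(d : ℂ) + I * η‖ ^ 2 = d ^ 2 + η ^ 2 := by
        rw [← Complex.normSq_eq_norm_sq, Complex.normSq_apply]
        simp
        ring
      rw [h3]
      norm_num at hη2 hd2 ⊢
      linarith
    have h5 : ‖cexp (-((d : ℂ) + I * η) ^ 2 / 8) - 1‖ ≤ δ := by
      have h4 := Complex.norm_exp_sub_one_le (x := -((d : ℂ) + I * η) ^ 2 / 8) (by
        refine h2.trans ?_
        norm_num at hδ1 ⊢
        linarith)
      refine h4.trans ?_
      norm_num at h2 ⊢
      linarith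
    have h6 : ‖kapw γ ((Λ * d : ℝ) + I * (Λ * η : ℝ))‖ ≤ 4 := by
      refine (kapw_norm h0 hπ _ _).trans ?_
      rw [abs_of_nonneg hΛη0]
      have h7 : Real.exp (Λ * η / 2) ^ 2 ≤ 4 ^ 2 := by
        rw [← Real.exp_nat_mul]
        have : ((2 : ℕ) : ℝ) * (Λ * η / 2) = Λ * η := by push_cast; ring
        rw [this]
        refine (Real.exp_le_exp.mpr hΛη2).trans (H344.exp_num.trans (by norm_num))
      exact le_of_sq_le_sq h7 (by norm_num)
    have h8 : ‖kapw γ ((Λ * d : ℝ) + I * (Λ * η : ℝ)) * (cexp (-((d : ℂ) + I * η) ^ 2 / 8) - 1)‖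
        ≤ 4 * δ := by
      rw [norm_mul]
      exact mul_le_mul h6 h5 (norm_nonneg _) (by norm_num)
    have hoff : K - 4 * δ ≤ (phiw γ Λ (w - x)).re := by
      rw [e2, Complex.add_re]
      have h9 := Complex.abs_re_le_norm
        (kapw γ ((Λ * d : ℝ) + I * (Λ * η : ℝ)) * (cexp (-((d : ℂ) + I * η) ^ 2 / 8) - 1))
      have h10 := (abs_le.mp (h9.trans h8)).1
      linarith
    have hnorm : ‖phiw γ Λ (w - x)‖ ≤ 4.1 := by
      rw [e2]
      refine (norm_add_le _ _).trans ?_
      have := add_le_add h6 h8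
      refine this.trans ?_
      norm_num at hδ1 ⊢
      linarith
    have hen : e * ‖phiw γ Λ (w - x)‖ ≤ 16.4 * δ := by
      calc e * ‖phiw γ Λ (w - x)‖ ≤ (4 * δ) * 4.1 :=
            mul_le_mul heδ hnorm (norm_nonneg _) (by positivity)
        _ = 16.4 * δ := by norm_num; ring
    have hdf : K - 0.0021 ≤ (phiw γ Λ (w - x)).re - e * ‖phiw γ Λ (w - x)‖ := by
      norm_num at hδ1 hen ⊢
      linarith
    refine ⟨by norm_num at hdf hK1 ⊢; linarith, ?_⟩
    have hsq2 : (K - 0.0021) ^ 2 ≤ ((phiw γ Λ (w - x)).re - e * ‖phiw γ Λ (w - x)‖) ^ 2 :=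
      pow_le_pow_left₀ (by norm_num at hK1 ⊢; linarith) hdf 2
    have hKK : 0.994 * K ^ 2 ≤ (K - 0.0021) ^ 2 := by
      norm_num at hK1 ⊢
      nlinarith
    have he2 : e ≤ 0.0004 := by norm_num at hδ1 ⊢; linarith
    have hd0 : 0 ≤ (phiw γ Λ (w - conj w)).re + 1 ∨ (phiw γ Λ (w - conj w)).re + 1 ≤ 0 :=
      le_total _ _
    have hRHS : 3.97 * K ^ 2 ≤ 4 * (1 - e) *
        ((phiw γ Λ (w - x)).re - e * ‖phiw γ Λ (w - x)‖) ^ 2 := by
      have h11 : 0.994 * K ^ 2 ≤ ((phiw γ Λ (w - x)).re - e * ‖phiw γ Λ (w - x)‖) ^ 2 :=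
        hKK.trans hsq2
      have h12 : (3.9984 : ℝ) ≤ 4 * (1 - e) := by norm_num at he2 ⊢; linarith
      calc 3.97 * K ^ 2 ≤ 3.9984 * (0.994 * K ^ 2) := by
            have := sq_nonneg K
            norm_num; nlinarith
        _ ≤ _ := mul_le_mul h12 h11 (by positivity) (by linarith)
    refine le_trans ?_ hRHS
    rcases hd0 with h13 | h13
    · calc (1 - e1) * K ^ 2 * (1 + e) * ((phiw γ Λ (w - conj w)).re + 1) ≤
          1 * K ^ 2 * 1.0004 * (2.94 + 1) := by
            apply mul_le_mul _ (by linarith) h13 (by positivity)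
            apply mul_le_mul _ (by norm_num at he2 ⊢; linarith) (by linarith) (by positivity)
            exact mul_le_mul_of_nonneg_right (by linarith) (sq_nonneg K)
        _ ≤ 3.97 * K ^ 2 := by
            have := sq_nonneg K
            norm_num; nlinarith
    · have h14 : (1 - e1) * K ^ 2 * (1 + e) * ((phiw γ Λ (w - conj w)).re + 1) ≤ 0 := by
        apply mul_nonpos_of_nonneg_of_nonpos _ h13
        have : 0 ≤ 1 - e1 := by linarith
        positivity
      have := sq_nonneg K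
      norm_num at h14 ⊢
      linarith

end V8H36.IS
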