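import Pool.Agent.V8H36.IS.PerC

/-!
Isolated zeros in families (helper36): the inequality for the number of isolated zeros of one
L-function.
-/

open Complex Filter Topology Set MeasureTheory
open scoped BigOperators ComplexConjugate
open H370 (zset mult NN Nd Ns)

namespace V8H36.IS

open H385 W388
open H385.PerChi (zz_spec zz_refl zz_inj zz_re zz_im kk log_bd)
open W388.PerChiD (zset_refl mult_refl)

/-- simple zeros on the line with ordinate in `(T, 2T]` and no other zero in the box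
`|Im| ≤ ρ`, `|Re - 1/2| ≤ h` around them -/
def isoB (F : ℂ → ℂ) (T ρ h : ℝ) : Set ℂ :=
  {s | s ∈ zset F T (2 * T) ∧ s.re = 1 / 2 ∧ mult F s = 1 ∧
    ∀ s' : ℂ, 0 < s'.re → s'.re < 1 → F s' = 0 → s' ≠ s → |s'.im - s.im| ≤ ρ → h < |s'.re - 1 / 2|}

/-- simple zeros on the line with ordinate in `(T, 2T]` whose ordinate differs by more than `ρ`
from the ordinates of all other zeros -/
def isoT (F : ℂ → ℂ) (T ρ : ℝ) : Set ℂ :=
  {s | s ∈ zset F T (2 * T) ∧ s.re = 1 / 2 ∧ mult F s = 1 ∧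
    ∀ s' : ℂ, 0 < s'.re → s'.re < 1 → F s' = 0 → s' ≠ s → ρ < |s'.im - s.im|}

/-- counting zeros off the line -/
lemma off_count {d A Q : ℝ} {F : ℂ → ℂ} {a : ℕ → ℂ} (hF : GoodE d A Q F a) (T : ℝ) (hT : 1 ≤ T)
    (hfin : (zset F T (2 * T)).Finite) (hmp : ∀ s ∈ hfin.toFinset, 1 ≤ mult F s) :
    (Ns F T (2 * T) : ℝ) + 2 * ((hfin.toFinset.filter (fun s => 1 / 2 < s.re)).card : ℝ) ≤
      NN F T (2 * T) := by
  classical
  set Zf := hfin.toFinset with hZf
  have hmem : ∀ {s}, s ∈ Zf ↔ s ∈ zset F T (2 * T) := by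
    intro s; rw [hZf, Set.Finite.mem_toFinset]
  have hNs : (Ns F T (2 * T) : ℝ) =
      ((Zf.filter (fun s => s.re = 1 / 2 ∧ mult F s = 1)).card : ℝ) := by
    unfold Ns
    have : {s : ℂ | s ∈ zset F T (2 * T) ∧ s.re = 1 / 2 ∧ mult F s = 1} =
        ((Zf.filter (fun s => s.re = 1 / 2 ∧ mult F s = 1) : Finset ℂ) : Set ℂ) := by
      ext s
      simp [hZf]
    rw [this, Set.ncard_coe_finset]
  have hN : (NN F T (2 * T) : ℝ) = ∑ s ∈ Zf, (mult F s : ℝ) := by
    unfold NN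
    rw [finsum_mem_eq_finite_toFinset_sum _ hfin]
    push_cast; rfl
  have hrefl : (Zf.filter (fun s => s.re < 1 / 2)).card = (Zf.filter (fun s => 1 / 2 < s.re)).card := by
    refine Finset.card_nbij' (fun s => 1 - conj s) (fun s => 1 - conj s) ?_ ?_ ?_ ?_
    · intro s hs
      simp only [Finset.coe_filter, Set.mem_ofPred_eq] at hs ⊢
      refine ⟨hmem.mpr (zset_refl hF hT (hmem.mp hs.1)), ?_⟩
      simp; linarith [hs.2]
    · intro s hs
      simp only [Finset.coe_filter, Set.mem_ofPred_eq] at hs ⊢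
      refine ⟨hmem.mpr (zset_refl hF hT (hmem.mp hs.1)), ?_⟩
      simp; linarith [hs.2]
    · intro s _; simp
    · intro s _; simp
  have h1 : (Ns F T (2 * T) : ℝ) + ((Zf.filter (fun s => 1 / 2 < s.re)).card : ℝ) +
      ((Zf.filter (fun s => s.re < 1 / 2)).card : ℝ) ≤ NN F T (2 * T) := by
    rw [hNs, hN, Finset.card_filter, Finset.card_filter, Finset.card_filter, Nat.cast_sum,
      Nat.cast_sum, Nat.cast_sum, ← Finset.sum_add_distrib, ← Finset.sum_add_distrib]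
    refine Finset.sum_le_sum fun s hs => ?_
    have hm : (1 : ℝ) ≤ (mult F s : ℝ) := by exact_mod_cast hmp s hs
    rcases lt_trichotomy s.re (1 / 2) with h | h | h
    · rw [if_neg (by rintro ⟨h1, -⟩; linarith), if_neg (by linarith), if_pos h]
      push_cast; linarith
    · rw [if_neg (show ¬ (1 / 2 < s.re) by linarith), if_neg (show ¬ (s.re < 1 / 2) by linarith)]
      split_ifs <;> push_cast <;> linarith
    · rw [if_neg (by rintro ⟨h1, -⟩; linarith), if_pos h, if_neg (by linarith)]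
      push_cast; linarith
  rw [hrefl] at h1
  linarith

/-- zeros isolated in the box but not totally isolated -/
lemma far_count {d A Q : ℝ} {F : ℂ → ℂ} {a : ℕ → ℂ} (hF : GoodE d A Q F a) (T ρ h : ℝ) (hT : 1 ≤ T)
    (hh : 0 ≤ h)
    (hfin : (zset F T (2 * T)).Finite) (hmp : ∀ s ∈ hfin.toFinset, 1 ≤ mult F s)
    (K : Finset ℂ) (hK : ∀ s ∈ K, s ∈ isoB F T ρ h ∧ s ∉ isoT F T ρ ∧ T + ρ < s.im ∧
      s.im ≤ 2 * T - ρ) :
    (Ns F T (2 * T) : ℝ) + (K.card : ℝ) ≤ NN F T (2 * T) := by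
  classical
  set Zf := hfin.toFinset with hZf
  have hmem : ∀ {s}, s ∈ Zf ↔ s ∈ zset F T (2 * T) := by
    intro s; rw [hZf, Set.Finite.mem_toFinset]
  have hex : ∀ s ∈ K, ∃ w : ℂ, w ∈ Zf ∧ 1 / 2 < w.re ∧ |w.im - s.im| ≤ ρ := by
    intro s hs
    obtain ⟨hB, hnT, h1, h2⟩ := hK s hs
    obtain ⟨b1, b2, b3, b4⟩ := hB
    have h3 : ∃ s' : ℂ, 0 < s'.re ∧ s'.re < 1 ∧ F s' = 0 ∧ s' ≠ s ∧ |s'.im - s.im| ≤ ρ := by
      by_contra hcon
      push Not at hcon
      exact hnT ⟨b1, b2, b3, fun s' c1 c2 c3 c4 => hcon s' c1 c2 c3 c4⟩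
    obtain ⟨s', c1, c2, c3, c4, c5⟩ := h3
    have c6 := b4 s' c1 c2 c3 c4 c5
    obtain ⟨c7, c8⟩ := abs_le.mp c5
    have c9 : s' ∈ zset F T (2 * T) := ⟨c1, c2, by linarith, by linarith, c3⟩
    rcases lt_trichotomy s'.re (1 / 2) with h | h | h
    · refine ⟨1 - conj s', hmem.mpr (zset_refl hF hT c9), ?_, ?_⟩
      · simp; linarith
      · simpa using c5
    · rw [h, sub_self, abs_zero] at c6
      linarith
    · exact ⟨s', hmem.mpr c9, h, c5⟩
  set o : ℂ → ℂ := fun s => if hs : ∃ w : ℂ, w ∈ Zf ∧ 1 / 2 < w.re ∧ |w.im - s.im| ≤ ρ then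
    hs.choose else 0 with ho
  have hoP : ∀ s ∈ K, o s ∈ Zf ∧ 1 / 2 < (o s).re ∧ |(o s).im - s.im| ≤ ρ := by
    intro s hs
    simp only [ho, dif_pos (hex s hs)]
    exact (hex s hs).choose_spec
  have hfar : ∀ s ∈ K, ∀ s' ∈ K, |s'.im - s.im| ≤ ρ → s' = s := by
    intro s hs s' hs' hss
    by_contra hne
    obtain ⟨⟨b1, b2, b3, b4⟩, -⟩ := hK s hs
    obtain ⟨⟨c1, c2, c3, c4⟩, -⟩ := hK s' hs'
    have h1 := b4 s' c1.1 c1.2.1 c1.2.2.2.2 hne hss
    rw [c2, sub_self, abs_zero] at h1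
    linarith
  have hcard : ∀ z ∈ K.image o, (K.filter (fun x => o x = z)).card ≤ 2 := by
    intro z _
    have h1 : K.filter (fun x => o x = z) ⊆
        (K.filter (fun x => o x = z ∧ x.im ≤ z.im)) ∪ (K.filter (fun x => o x = z ∧ z.im < x.im)) := by
      intro x hx
      rw [Finset.mem_union, Finset.mem_filter, Finset.mem_filter]
      rw [Finset.mem_filter] at hx
      rcases le_or_gt x.im z.im with h | h
      · exact Or.inl ⟨hx.1, hx.2, h⟩
      · exact Or.inr ⟨hx.1, hx.2, h⟩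
    have h2 : (K.filter (fun x => o x = z ∧ x.im ≤ z.im)).card ≤ 1 := by
      rw [Finset.card_le_one]
      intro x hx y hy
      rw [Finset.mem_filter] at hx hy
      have bx := (hoP x hx.1).2.2
      have bY := (hoP y hy.1).2.2
      rw [hx.2.1, abs_le] at bx
      rw [hy.2.1, abs_le] at bY
      exact hfar y hy.1 x hx.1 (by rw [abs_le]; constructor <;> linarith [bx.1, bx.2, bY.1, bY.2])
    have h3 : (K.filter (fun x => o x = z ∧ z.im < x.im)).card ≤ 1 := by
      rw [Finset.card_le_one]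
      intro x hx y hy
      rw [Finset.mem_filter] at hx hy
      have bx := (hoP x hx.1).2.2
      have bY := (hoP y hy.1).2.2
      rw [hx.2.1, abs_le] at bx
      rw [hy.2.1, abs_le] at bY
      exact hfar y hy.1 x hx.1 (by rw [abs_le]; constructor <;> linarith [bx.1, bx.2, bY.1, bY.2])
    have h4 := Finset.card_le_card h1
    have h5 := Finset.card_union_le (K.filter (fun x => o x = z ∧ x.im ≤ z.im))
      (K.filter (fun x => o x = z ∧ z.im < x.im))
    omega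
  have h1 := Finset.card_le_mul_card_image (f := o) K 2 hcard
  have h2 : (K.image o).card ≤ (Zf.filter (fun s => 1 / 2 < s.re)).card := by
    apply Finset.card_le_card
    intro z hz
    obtain ⟨s, hs, rfl⟩ := Finset.mem_image.mp hz
    exact Finset.mem_filter.mpr ⟨(hoP s hs).1, (hoP s hs).2.1⟩
  have h3 := off_count hF T hT hfin hmp
  have h4 : (K.card : ℝ) ≤ 2 * ((Zf.filter (fun s => 1 / 2 < s.re)).card : ℝ) := by
    exact_mod_cast h1.trans (Nat.mul_le_mul_left 2 h2)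
  linarith

theorem per_chi_iso (γ : ℝ) (h0 : 0 < γ) (hπ : γ < Real.pi) (d A : ℝ) (hd : 1 ≤ d)
    (hA : 1 ≤ A) :
    ∃ C : ℝ, 0 < C ∧ ∀ (Q : ℝ) (F : ℂ → ℂ) (a : ℕ → ℂ), 1 ≤ Q → GoodE d A Q F a →
    ∀ T κ Λ V1 V2 ρ h q : ℝ, 3 ≤ κ → 8 * κ ≤ T → 1 ≤ Λ → T - 3 * κ ≤ V1 → V1 ≤ T - 3 * κ + 1 →
      2 * T + 3 * κ - 1 ≤ V2 → V2 ≤ 2 * T + 3 * κ → 0 ≤ ρ → ρ ≤ 1 → 0 ≤ h → 0 ≤ q → q ≤ 1 →
      KerOK γ Λ (2 * Real.exp (-κ ^ 2 / 2)) ρ h q →
      2 * (NN F T (2 * T) : ℝ) - (Ns F T (2 * T) : ℝ) +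
        q * ((Ns F T (2 * T) : ℝ) - ((isoB F T ρ h).ncard : ℝ)) ≤
        (2 / (Real.sqrt Real.pi * Λ)) * (∫ u in (0 : ℝ)..Λ, Rw γ (u / Λ) *
          ∫ t : ℝ, ‖BB F V1 V2 T u t‖ ^ 2)
        + C * (κ + T * Real.exp (-κ ^ 2 / 2)) * Real.log (Q * T) ∧
      2 * (NN F T (2 * T) : ℝ) - (Ns F T (2 * T) : ℝ) +
        q * (2 * (Ns F T (2 * T) : ℝ) - (NN F T (2 * T) : ℝ) - ((isoT F T ρ).ncard : ℝ)) ≤
        (2 / (Real.sqrt Real.pi * Λ)) * (∫ u in (0 : ℝ)..Λ, Rw γ (u / Λ) *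
          ∫ t : ℝ, ‖BB F V1 V2 T u t‖ ^ 2)
        + C * (κ + T * Real.exp (-κ ^ 2 / 2)) * Real.log (Q * T) := by
  classical
  obtain ⟨C1, hC1, hcore⟩ := core_iso γ h0 hπ d A hd hA
  obtain ⟨C0, hC0, hcount⟩ := zcount_long_D d A hd hA
  refine ⟨C1 + 40 * C0, by positivity, ?_⟩
  intro Q F a hQ hFU T κ Λ V1 V2 ρ h q hκ hκT hΛ hV1 hV1' hV2 hV2' hρ hρ1 hh hq0 hq1 hker
  have hT24 : 24 ≤ T := by linarith
  have hfin : (zset F T (2 * T)).Finite := zset_finite_D hA hQ hFU T _ (by linarith)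
  have hfinV : (zset F V1 V2).Finite := zset_finite_D hA hQ hFU V1 V2 (by linarith)
  have hmulti : ∀ s ∈ hfin.toFinset, 1 ≤ mult F s := by
    intro s hs
    rw [Set.Finite.mem_toFinset] at hs
    exact LocD.mult_pos_D hA hFU (by linarith [hs.2.2.1]) hs.2.2.2.2
  set Zf := hfin.toFinset with hZf
  have hmem : ∀ {s}, s ∈ Zf ↔ s ∈ zset F T (2 * T) := by
    intro s; rw [hZf, Set.Finite.mem_toFinset]
  -- the sets
  set SS := Zf.filter (fun s => s.re = 1 / 2 ∧ mult F s = 1) with hSS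
  have hNs : (Ns F T (2 * T) : ℝ) = (SS.card : ℝ) := by
    unfold Ns
    have : {s : ℂ | s ∈ zset F T (2 * T) ∧ s.re = 1 / 2 ∧ mult F s = 1} =
        ((SS : Finset ℂ) : Set ℂ) := by
      ext s
      simp [hSS, hZf]
    rw [this, Set.ncard_coe_finset]
  set IB := Zf.filter (fun s => s ∈ isoB F T ρ h) with hIB
  set IT := Zf.filter (fun s => s ∈ isoT F T ρ) with hIT
  have hNB : ((isoB F T ρ h).ncard : ℝ) = (IB.card : ℝ) := by
    have : isoB F T ρ h = ((IB : Finset ℂ) : Set ℂ) := by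
      ext s
      simp only [hIB, Finset.coe_filter, Set.mem_setOf_eq, hmem]
      exact ⟨fun hs => ⟨hs.1, hs⟩, fun hs => hs.2⟩
    rw [this, Set.ncard_coe_finset]
  have hNT : ((isoT F T ρ).ncard : ℝ) = (IT.card : ℝ) := by
    have : isoT F T ρ = ((IT : Finset ℂ) : Set ℂ) := by
      ext s
      simp only [hIT, Finset.coe_filter, Set.mem_setOf_eq, hmem]
      exact ⟨fun hs => ⟨hs.1, hs⟩, fun hs => hs.2⟩
    rw [this, Set.ncard_coe_finset]
  set E1 := Zf.filter (fun s => s.im ≤ T + κ + 1) with hE1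
  set E2 := Zf.filter (fun s => 2 * T - κ - 1 < s.im) with hE2
  set NI := SS.filter (fun s => T + κ + ρ ≤ s.im ∧ s.im ≤ 2 * T - κ - ρ ∧
      ∃ s' ∈ hfinV.toFinset, s' ≠ s ∧ |s'.im - s.im| ≤ ρ ∧ |s'.re - 1 / 2| ≤ h) with hNI
  -- edges
  have hL0 : 0 ≤ Real.log (Q * T) := Real.log_nonneg (by nlinarith)
  have hE1c : (E1.card : ℝ) ≤ C0 * (2 * κ) * (2 * Real.log (Q * T)) := by
    have hf : (zset F T (T + κ + 1)).Finite := zset_finite_D hA hQ hFU T _ (by linarith)
    have h1 : (E1.card : ℝ) ≤ NN F T (T + κ + 1) := by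
      unfold NN
      rw [finsum_mem_eq_finite_toFinset_sum _ hf, Nat.cast_sum, Finset.card_eq_sum_ones,
        Nat.cast_sum]
      have h2 : E1 ⊆ hf.toFinset := by
        intro s hs
        obtain ⟨a1, a2⟩ := Finset.mem_filter.mp hs
        obtain ⟨b1, b2, b3, b4, b5⟩ := hmem.mp a1
        rw [Set.Finite.mem_toFinset]
        exact ⟨b1, b2, b3, a2, b5⟩
      calc ∑ s ∈ E1, ((1 : ℕ) : ℝ) ≤ ∑ s ∈ E1, (mult F s : ℝ) := by
            refine Finset.sum_le_sum fun s hs => ?_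
            exact_mod_cast hmulti s (Finset.mem_filter.mp hs).1
        _ ≤ ∑ s ∈ hf.toFinset, (mult F s : ℝ) :=
            Finset.sum_le_sum_of_subset_of_nonneg h2 fun _ _ _ => Nat.cast_nonneg _
    have h2 := hcount Q F a hQ hFU T (T + κ + 1) (by linarith) (by linarith)
    have h3 : Real.log (Q * (T + κ + 1)) ≤ 2 * Real.log (Q * T) :=
      log_bd hQ (by linarith) (by linarith) (by linarith)
    have h4 : 0 ≤ Real.log (Q * (T + κ + 1)) := Real.log_nonneg (by nlinarith)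
    calc (E1.card : ℝ) ≤ C0 * (T + κ + 1 - T) * Real.log (Q * (T + κ + 1)) := h1.trans h2
      _ ≤ C0 * (2 * κ) * (2 * Real.log (Q * T)) := by
          apply mul_le_mul _ h3 h4 (by positivity)
          exact mul_le_mul_of_nonneg_left (by linarith) hC0.le
  have hE2c : (E2.card : ℝ) ≤ C0 * (2 * κ) * (2 * Real.log (Q * T)) := by
    have hf : (zset F (2 * T - κ - 1) (2 * T)).Finite :=
      zset_finite_D hA hQ hFU _ _ (by linarith)
    have h1 : (E2.card : ℝ) ≤ NN F (2 * T - κ - 1) (2 * T) := by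
      unfold NN
      rw [finsum_mem_eq_finite_toFinset_sum _ hf, Nat.cast_sum, Finset.card_eq_sum_ones,
        Nat.cast_sum]
      have h2 : E2 ⊆ hf.toFinset := by
        intro s hs
        obtain ⟨a1, a2⟩ := Finset.mem_filter.mp hs
        obtain ⟨b1, b2, b3, b4, b5⟩ := hmem.mp a1
        rw [Set.Finite.mem_toFinset]
        exact ⟨b1, b2, a2, b4, b5⟩
      calc ∑ s ∈ E2, ((1 : ℕ) : ℝ) ≤ ∑ s ∈ E2, (mult F s : ℝ) := by
            refine Finset.sum_le_sum fun s hs => ?_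
            exact_mod_cast hmulti s (Finset.mem_filter.mp hs).1
        _ ≤ ∑ s ∈ hf.toFinset, (mult F s : ℝ) :=
            Finset.sum_le_sum_of_subset_of_nonneg h2 fun _ _ _ => Nat.cast_nonneg _
    have h2 := hcount Q F a hQ hFU (2 * T - κ - 1) (2 * T) (by linarith) (by linarith)
    have h3 : Real.log (Q * (2 * T)) ≤ 2 * Real.log (Q * T) :=
      log_bd hQ (by linarith) (by linarith) (by linarith)
    have h4 : 0 ≤ Real.log (Q * (2 * T)) := Real.log_nonneg (by nlinarith)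
    calc (E2.card : ℝ) ≤ C0 * (2 * T - (2 * T - κ - 1)) * Real.log (Q * (2 * T)) := h1.trans h2
      _ ≤ C0 * (2 * κ) * (2 * Real.log (Q * T)) := by
          apply mul_le_mul _ h3 h4 (by positivity)
          exact mul_le_mul_of_nonneg_left (by linarith) hC0.le
  have hcov1 : SS ⊆ IB ∪ NI ∪ (E1 ∪ E2) := by
    intro s hs
    have hs' := hs
    rw [hSS, Finset.mem_filter] at hs'
    obtain ⟨a1, a2, a3⟩ := hs'
    by_cases c1 : s.im ≤ T + κ + 1
    · exact Finset.mem_union_right _ (Finset.mem_union_left _ (Finset.mem_filter.mpr ⟨a1, c1⟩))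
    by_cases c2 : 2 * T - κ - 1 < s.im
    · exact Finset.mem_union_right _ (Finset.mem_union_right _ (Finset.mem_filter.mpr ⟨a1, c2⟩))
    push Not at c1 c2
    apply Finset.mem_union_left
    by_cases c3 : s ∈ isoB F T ρ h
    · exact Finset.mem_union_left _ (Finset.mem_filter.mpr ⟨a1, c3⟩)
    · apply Finset.mem_union_right
      rw [hNI, Finset.mem_filter]
      refine ⟨hs, by linarith, by linarith, ?_⟩
      have c4 : ∃ s' : ℂ, 0 < s'.re ∧ s'.re < 1 ∧ F s' = 0 ∧ s' ≠ s ∧ |s'.im - s.im| ≤ ρ ∧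
          |s'.re - 1 / 2| ≤ h := by
        by_contra hcon
        push Not at hcon
        exact c3 ⟨hmem.mp a1, a2, a3, fun s' d1 d2 d3 d4 d5 => hcon s' d1 d2 d3 d4 d5⟩
      obtain ⟨s', d1, d2, d3, d4, d5, d6⟩ := c4
      obtain ⟨d7, d8⟩ := abs_le.mp d5
      refine ⟨s', ?_, d4, d5, d6⟩
      rw [Set.Finite.mem_toFinset]
      exact ⟨d1, d2, by linarith, by linarith, d3⟩
  have hc1 : (SS.card : ℝ) ≤ IB.card + NI.card + (E1.card + E2.card) := by
    have h1 := Finset.card_le_card hcov1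
    have h2 := Finset.card_union_le (IB ∪ NI) (E1 ∪ E2)
    have h3 := Finset.card_union_le IB NI
    have h4 := Finset.card_union_le E1 E2
    have h5 : SS.card ≤ IB.card + NI.card + (E1.card + E2.card) := by omega
    exact_mod_cast h5
  set K := IB.filter (fun s => s ∉ isoT F T ρ ∧ T + ρ < s.im ∧ s.im ≤ 2 * T - ρ) with hK
  have hcov2 : IB ⊆ IT ∪ K ∪ (E1 ∪ E2) := by
    intro s hs
    have hs' := hs
    rw [hIB, Finset.mem_filter] at hs'
    obtain ⟨a1, a2⟩ := hs'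
    by_cases c1 : s.im ≤ T + κ + 1
    · exact Finset.mem_union_right _ (Finset.mem_union_left _ (Finset.mem_filter.mpr ⟨a1, c1⟩))
    by_cases c2 : 2 * T - κ - 1 < s.im
    · exact Finset.mem_union_right _ (Finset.mem_union_right _ (Finset.mem_filter.mpr ⟨a1, c2⟩))
    push Not at c1 c2
    apply Finset.mem_union_left
    by_cases c3 : s ∈ isoT F T ρ
    · exact Finset.mem_union_left _ (Finset.mem_filter.mpr ⟨a1, c3⟩)
    · apply Finset.mem_union_right
      rw [hK, Finset.mem_filter]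
      exact ⟨hs, c3, by linarith, by linarith⟩
  have hc2 : (IB.card : ℝ) ≤ IT.card + K.card + (E1.card + E2.card) := by
    have h1 := Finset.card_le_card hcov2
    have h2 := Finset.card_union_le (IT ∪ K) (E1 ∪ E2)
    have h3 := Finset.card_union_le IT K
    have h4 := Finset.card_union_le E1 E2
    have h5 : IB.card ≤ IT.card + K.card + (E1.card + E2.card) := by omega
    exact_mod_cast h5
  have hKc := far_count hFU T ρ h (by linarith) hh hfin hmulti K (by
    intro s hs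
    rw [hK, Finset.mem_filter] at hs
    exact ⟨(Finset.mem_filter.mp hs.1).2, hs.2⟩)
  -- the main inequality
  have h1 := hcore Q F a hQ hFU
    (fun s => 2 * (mult F s : ℝ) - if (s.re = 1 / 2 ∧ mult F s = 1) then 1 else 0) ?_ ?_
    T κ Λ V1 V2 ρ h q hκ hκT hΛ hV1 hV1' hV2 hV2' hρ hq0 hker hfinV NI ?_ hfin
  · have h2 : ∑ s ∈ hfin.toFinset, (2 * (mult F s : ℝ) -
        if (s.re = 1 / 2 ∧ mult F s = 1) then 1 else 0) =
        2 * (NN F T (2 * T) : ℝ) - (Ns F T (2 * T) : ℝ) := by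
      rw [Finset.sum_sub_distrib, ← Finset.mul_sum]
      congr 1
      · congr 1
        unfold NN
        rw [finsum_mem_eq_finite_toFinset_sum _ hfin]
        push_cast; rfl
      · rw [hNs, hSS, Finset.card_filter]
        push_cast; rfl
    rw [h2] at h1
    have he0 : 0 < Real.exp (-κ ^ 2 / 2) := Real.exp_pos _
    set TR := (2 / (Real.sqrt Real.pi * Λ)) * (∫ u in (0 : ℝ)..Λ, Rw γ (u / Λ) *
          ∫ t : ℝ, ‖BB F V1 V2 T u t‖ ^ 2) with hTR
    have hEE : (E1.card + E2.card : ℝ) ≤ 8 * C0 * κ * Real.log (Q * T) := by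
      linarith
    have hE0 : (0 : ℝ) ≤ (E1.card + E2.card : ℝ) := by positivity
    have g1 : q * ((SS.card : ℝ) - IB.card) ≤ q * NI.card + 8 * C0 * κ * Real.log (Q * T) := by
      have g2 : q * ((SS.card : ℝ) - IB.card) ≤ q * (NI.card + (E1.card + E2.card)) :=
        mul_le_mul_of_nonneg_left (by linarith) hq0
      have g3 : q * (E1.card + E2.card : ℝ) ≤ 1 * (E1.card + E2.card : ℝ) :=
        mul_le_mul_of_nonneg_right hq1 hE0
      linarith
    have g4 : q * ((IB.card : ℝ) - IT.card - K.card) ≤ 8 * C0 * κ * Real.log (Q * T) := by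
      have g2 : q * ((IB.card : ℝ) - IT.card - K.card) ≤ q * (E1.card + E2.card : ℝ) :=
        mul_le_mul_of_nonneg_left (by linarith) hq0
      have g3 : q * (E1.card + E2.card : ℝ) ≤ 1 * (E1.card + E2.card : ℝ) :=
        mul_le_mul_of_nonneg_right hq1 hE0
      linarith
    have g5 : q * (K.card : ℝ) ≤ q * (NN F T (2 * T) - Ns F T (2 * T) : ℝ) :=
      mul_le_mul_of_nonneg_left (by linarith) hq0
    have p1 : 0 ≤ C0 * T * Real.exp (-κ ^ 2 / 2) * Real.log (Q * T) := by positivity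
    have p2 : 0 ≤ C0 * κ * Real.log (Q * T) := by positivity
    have e1 : (C1 + 40 * C0) * (κ + T * Real.exp (-κ ^ 2 / 2)) * Real.log (Q * T) =
        C1 * (κ + T * Real.exp (-κ ^ 2 / 2)) * Real.log (Q * T) +
          40 * (C0 * κ * Real.log (Q * T)) +
          40 * (C0 * T * Real.exp (-κ ^ 2 / 2) * Real.log (Q * T)) := by ring
    rw [hNB, hNT, hNs, e1]
    rw [hNs] at h1 g5
    constructor
    · linarith
    · have e2 : q * (2 * (SS.card : ℝ) - (NN F T (2 * T) : ℝ) - IT.card) =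
          q * ((SS.card : ℝ) - IB.card) + q * ((IB.card : ℝ) - IT.card - K.card) + q * K.card -
            q * (NN F T (2 * T) - SS.card : ℝ) := by ring
      rw [e2]
      linarith
  · intro s hs
    have hs' : (1 : ℝ) ≤ (mult F s : ℝ) := by exact_mod_cast hs
    unfold kk
    by_cases h2 : s.re = 1 / 2
    · by_cases h3 : mult F s = 1
      · simp only [if_pos h2, if_pos h3, if_pos (And.intro h2 h3)]; linarith
      · have h4 : 2 ≤ mult F s := by omega
        have h5 : (2 : ℝ) ≤ (mult F s : ℝ) := by exact_mod_cast h4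
        have h6 : ¬ (s.re = 1 / 2 ∧ mult F s = 1) := fun h => h3 h.2
        simp only [if_pos h2, if_neg h3, if_neg h6]; linarith
    · have h6 : ¬ (s.re = 1 / 2 ∧ mult F s = 1) := fun h => h2 h.1
      simp only [if_neg h2, if_neg h6]; linarith
  · intro s hs
    have hs' : (1 : ℝ) ≤ (mult F s : ℝ) := by exact_mod_cast hs
    by_cases h6 : (s.re = 1 / 2 ∧ mult F s = 1)
    · simp only [if_pos h6]; linarith
    · simp only [if_neg h6]; linarith
  · intro s hs
    rw [hNI, Finset.mem_filter] at hs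
    obtain ⟨a1, a2, a3, a4⟩ := hs
    rw [hSS, Finset.mem_filter] at a1
    refine ⟨?_, a1.2.1, a1.2.2, a2, a3, a4⟩
    have b1 := hmem.mp a1.1
    rw [Set.Finite.mem_toFinset]
    exact ⟨b1.1, b1.2.1, by linarith [b1.2.2.1], by linarith [b1.2.2.2.1], b1.2.2.2.2⟩

end V8H36.IS
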