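import Pool.Agent.V8H36.IS.FinG
import Pool.Agent.V8H36.IS.PerD
import Pool.Agent.V8H36.IS.Kern
import Pool.Agent.W388.TW.Parts
import Pool.Agent.H385R2.WinE

/-!
Isolated zeros in families (helper36): the constants.
-/

set_option autoImplicit false
set_option maxHeartbeats 4000000

open Complex Filter Topology Set MeasureTheory
open H370 (zset mult NN Nd Ns)

namespace V8H36.IS

open H385 W388

/-- the family theorem for any functional, given a numerical bound for the constant -/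
theorem final_const_G (d A : ℝ) (hd : 1 ≤ d) (hA : 1 ≤ A) (C3 : ℝ) (hC3 : 0 < C3) (M : ℕ)
    (hM : Squarefree M)
    (c : ℕ → ℂ) (F : (q : ℕ) → DirichletCharacter ℂ q → ℂ → ℂ) (hF : TwE d A M c F)
    (hS : SelE c) (γ κ : ℝ) (h0 : 0 < γ) (hπ : γ < Real.pi)
    (hκ : d / 2 * Rw γ 0 + 4 / d * (∫ α in (0 : ℝ)..1, α * Rw γ α) < κ) :
    ∃ β : ℝ, 0 < β ∧ β < 2 ∧ ∃ K η X0 : ℝ, 1 ≤ K ∧ 0 < η ∧ 1 ≤ X0 ∧
    ∀ (X Y : ℕ) (T : ℝ), X0 ≤ X → K * X ≤ Y → (Y : ℝ) ≤ (X : ℝ) ^ (1 + η) →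
      (Real.log X) ^ 2 ≤ T → T ≤ (X : ℝ) ^ η →
      ∀ G : (q : ℕ) → DirichletCharacter ℂ q → ℝ,
      (∀ (q : ℕ) (χ : DirichletCharacter ℂ q), X < q → q ≤ Y → Nat.Coprime q M → χ.IsPrimitive →
        ∀ V1 V2 : ℝ, T - 3 * Real.log X ≤ V1 → V1 ≤ T - 3 * Real.log X + 1 →
        2 * T + 3 * Real.log X - 1 ≤ V2 → V2 ≤ 2 * T + 3 * Real.log X → G q χ ≤
        (2 / (Real.sqrt Real.pi * (β * Real.log X))) *
          (∫ u in (0 : ℝ)..(β * Real.log X), Rw γ (u / (β * Real.log X)) *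
          ∫ t : ℝ, ‖BB (F q χ) V1 V2 T u t‖ ^ 2)
        + C3 * (Real.log X + T * Real.exp (-(Real.log X) ^ 2 / 2)) * Real.log (q * T)) →
      primFamM M X Y G ≤ κ * primFamM M X Y (fun q χ => (NN (F q χ) T (2 * T) : ℝ)) := by
  have hd0 : 0 < d := by linarith
  set R0 : ℝ := Rw γ 0 with hR0
  have hR0n : 0 ≤ R0 := Rw_nonneg γ h0 hπ 0
  set J : ℝ := ∫ α in (0 : ℝ)..1, α * Rw γ α with hJ
  have hJn : 0 ≤ J := I1_nonneg γ h0 hπ
  set e : ℝ := κ - (d / 2 * R0 + 4 / d * J) with he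
  have he0 : 0 < e := by rw [he]; linarith
  -- choose β
  set s : ℝ := min (1 / 2) (e / (d * R0 + 1)) with hs
  have hs0 : 0 < s := by positivity
  have hs1 : s ≤ 1 / 2 := min_le_left _ _
  have hs2 : d * R0 * s ≤ e := by
    have h1 : s ≤ e / (d * R0 + 1) := min_le_right _ _
    calc d * R0 * s ≤ d * R0 * (e / (d * R0 + 1)) := mul_le_mul_of_nonneg_left h1 (by positivity)
      _ = e * (d * R0 / (d * R0 + 1)) := by ring
      _ ≤ e * 1 := by
        refine mul_le_mul_of_nonneg_left ?_ he0.le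
        rw [div_le_one (by positivity)]; linarith
      _ = e := mul_one e
  set β : ℝ := 2 - s with hβ
  have hβ1 : 1 < β := by rw [hβ]; linarith
  have hβ2 : β < 2 := by rw [hβ]; linarith
  have hβ0 : 0 < β := by linarith
  have e2 : d * R0 / β ≤ d / 2 * R0 + e / 2 := by
    have : d * R0 / β = d / 2 * R0 + d * R0 * s / (2 * β) := by
      rw [hβ]
      have : (2 - s) ≠ 0 := by linarith
      field_simp
      ring
    rw [this]
    have h3 : d * R0 * s / (2 * β) ≤ e / 2 := by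
      rw [div_le_div_iff₀ (by positivity) (by norm_num)]
      nlinarith [mul_nonneg (mul_nonneg hd0.le hR0n) hs0.le]
    linarith
  have hcp : 0 ≤ 2 * β * J := by positivity
  obtain ⟨K, η, X0, hK, hη, hX0, h⟩ := final_core_G d A hd hA C3 hC3 M c F hF γ β _ h0 hπ hβ0 hcp
    hR0n (p_mean M hM c hS γ β h0 hπ hβ0 hβ2) (e / 2) (by positivity)
  refine ⟨β, hβ0, hβ2, K, η, X0, hK, hη, hX0, ?_⟩
  intro X Y T a1 a2 a3 a4 a5 G hG
  have b1 := h X Y T a1 a2 a3 a4 a5 G hG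
  have hN : 0 ≤ primFamM M X Y (fun q χ => (NN (F q χ) T (2 * T) : ℝ)) :=
    primFamM_nonneg _ _ _ _ (fun _ _ => Nat.cast_nonneg _)
  have hJ2 : 2 * β * J / d ≤ 4 / d * J := by
    calc 2 * β * J / d ≤ 2 * 2 * J / d := by gcongr
      _ = _ := by ring
  have hcc : d * R0 / β + 2 * β * J / d + e / 2 ≤ κ := by
    have : d / 2 * R0 + 4 / d * J + e = κ := by rw [he]; ring
    linarith
  exact b1.trans (mul_le_mul_of_nonneg_right hcc hN)

lemma primFamM_lin3 (M X Y : ℕ) (a b c : ℝ) (f g k : (q : ℕ) → DirichletCharacter ℂ q → ℝ) :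
    primFamM M X Y (fun q χ => a * f q χ + b * g q χ + c * k q χ) =
      a * primFamM M X Y f + b * primFamM M X Y g + c * primFamM M X Y k := by
  rw [primFamM_eq, primFamM_eq, primFamM_eq, primFamM_eq, Finset.mul_sum, Finset.mul_sum,
    Finset.mul_sum, ← Finset.sum_add_distrib, ← Finset.sum_add_distrib]
  exact Finset.sum_congr rfl (fun p _ => by ring)

/-- the arithmetic of the first bound -/
lemma arith1 {N S B κ e1 q K2 : ℝ} (hN : 0 ≤ N) (hSN : S ≤ N) (hq : q = (1 - e1) * K2)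
    (hK : 0 < K2) (hK1 : K2 ≤ 1) (he : 0 < e1) (he' : e1 ≤ 1 / 50)
    (hκ : κ - 1 ≤ 0.3275 * (1 - e1))
    (h : 2 * N - S + q * (S - B) ≤ κ * N) : (1 - 0.3275 / K2) * N ≤ B := by
  have hq0 : 0 < q := by rw [hq]; apply mul_pos <;> linarith
  have hq1 : q ≤ 1 := by rw [hq]; nlinarith
  have h1 : (2 - κ) * N - (1 - q) * S ≤ q * B := by linarith
  have h2 : (1 - q) * S ≤ (1 - q) * N := mul_le_mul_of_nonneg_left hSN (by linarith)
  have h3 : (1 + q - κ) * N ≤ q * B := by linarith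
  have h4 : q * ((1 - 0.3275 / K2) * N) ≤ (1 + q - κ) * N := by
    have h5 : q * (1 - 0.3275 / K2) = q - 0.3275 * (1 - e1) := by
      rw [hq]; field_simp
    rw [← mul_assoc, h5]
    exact mul_le_mul_of_nonneg_right (by linarith) hN
  exact le_of_mul_le_mul_left (h4.trans h3) hq0

/-- the arithmetic of the second bound -/
lemma arith2 {N S B κ q : ℝ} (hN : 0 ≤ N) (hq : 1 / 2 ≤ q) (hκ : κ ≤ 1.3275)
    (hS : (2 - κ) * N ≤ S)
    (h : 2 * N - S + q * (2 * S - N - B) ≤ κ * N) : 0.345 * N ≤ B := by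
  have hq0 : 0 < q := by linarith
  have h1 : (2 - κ - q) * N + (2 * q - 1) * S ≤ q * B := by linarith
  have h2 : (2 * q - 1) * ((2 - κ) * N) ≤ (2 * q - 1) * S :=
    mul_le_mul_of_nonneg_left hS (by linarith)
  have h3 : q * ((3 - 2 * κ) * N) ≤ q * B := by linarith
  have h4 := le_of_mul_le_mul_left h3 hq0
  have h5 : 0.345 * N ≤ (3 - 2 * κ) * N := mul_le_mul_of_nonneg_right (by linarith) hN
  linarith

/-- degree 2 -/
theorem final_iso (A : ℝ) (hA : 1 ≤ A) (M : ℕ) (hM : Squarefree M)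
    (c : ℕ → ℂ) (F : (q : ℕ) → DirichletCharacter ℂ q → ℂ → ℂ) (hF : TwE 2 A M c F)
    (hS : SelE c) :
    ∃ K η X0 : ℝ, 1 ≤ K ∧ 0 < η ∧ 1 ≤ X0 ∧
    ∀ (X Y : ℕ) (T : ℝ), X0 ≤ X → K * X ≤ Y → (Y : ℝ) ≤ (X : ℝ) ^ (1 + η) →
      (Real.log X) ^ 2 ≤ T → T ≤ (X : ℝ) ^ η →
      (∀ b : ℝ, 0 ≤ b → b ≤ 13 / 10 → (1 - 0.3275 / (1 - b ^ 2 / 6) ^ 2) *
          primFamM M X Y (fun q χ => (NN (F q χ) T (2 * T) : ℝ)) ≤
        primFamM M X Y (fun q χ =>
          ((isoB (F q χ) T (b / Real.log X) (5 / 4 / Real.log X)).ncard : ℝ))) ∧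
      0.345 * primFamM M X Y (fun q χ => (NN (F q χ) T (2 * T) : ℝ)) ≤
        primFamM M X Y (fun q χ => ((isoT (F q χ) T (13 / 10 / Real.log X)).ncard : ℝ)) := by
  have h0 : (0 : ℝ) < 1.414 := by norm_num
  have hπ : (1.414 : ℝ) < Real.pi := by linarith [Real.pi_gt_three]
  have hval := Rw_const_d2
  set val := Rw 1.414 0 + 2 * ∫ α in (0 : ℝ)..1, α * Rw 1.414 α with hvald
  set κ : ℝ := (val + 1.3275) / 2 with hκ
  have hκ1 : κ < 1.3275 := by rw [hκ]; linarith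
  have hκ2 : val < κ := by rw [hκ]; linarith
  obtain ⟨e1, he1, he1', he1''⟩ : ∃ e1 : ℝ, 0 < e1 ∧ e1 ≤ 1 / 50 ∧ κ - 1 ≤ 0.3275 * (1 - e1) := by
    refine ⟨min (1 / 50) (1.3275 - κ), lt_min (by norm_num) (by linarith), min_le_left _ _, ?_⟩
    have h1 := min_le_right (1 / 50 : ℝ) (1.3275 - κ)
    have h2 : 0 < min (1 / 50 : ℝ) (1.3275 - κ) := lt_min (by norm_num) (by linarith)
    nlinarith
  obtain ⟨C3, hC3, hper⟩ := per_chi_iso 1.414 h0 hπ 2 A (by norm_num) hA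
  obtain ⟨β, hβ0, hβ2, K, η, X0, hK, hη, hX0, h⟩ := final_const_G 2 A (by norm_num) hA C3 hC3 M hM
    c F hF hS 1.414 κ h0 hπ (by
      have e1 : (2 : ℝ) / 2 * Rw 1.414 0 + 4 / 2 * (∫ α in (0 : ℝ)..1, α * Rw 1.414 α) = val := by
        rw [hvald]; ring
      rw [e1]; exact hκ2)
  -- thresholds for the kernel, uniform in `b`
  have hker : ∃ L0 : ℝ, 1 ≤ L0 ∧ ∀ b : ℝ, 0 ≤ b → b ≤ 13 / 10 → ∀ L : ℝ, L0 ≤ L → ∀ Λ : ℝ, 0 ≤ Λ →
      Λ ≤ 2 * L → KerOK 1.414 Λ (2 * Real.exp (-L ^ 2 / 2)) (b / L) (5 / 4 / L)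
        ((1 - e1) * (1 - b ^ 2 / 6) ^ 2) := by
    refine ⟨max 100 (1 / e1), le_max_of_le_left (by norm_num), fun b hb0 hb1 => ?_⟩
    exact kernel_ok' h0 hπ b hb0 hb1 e1 he1 (by linarith)
  obtain ⟨L0, hL0, hker⟩ := hker
  refine ⟨K, η, max X0 (Real.exp (max L0 (max 100 (1 / β)))), hK, hη, le_max_of_le_left hX0, ?_⟩
  intro X Y T a1 a2 a3 a4 a5
  have a1' : X0 ≤ X := (le_max_left _ _).trans a1
  have hX1 : (1 : ℝ) ≤ X := hX0.trans a1'
  have hXpos : (0 : ℝ) < X := by linarith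
  set L := Real.log X with hLd
  have hLm : max L0 (max 100 (1 / β)) ≤ L := by
    rw [hLd, Real.le_log_iff_exp_le hXpos]
    exact (le_max_right _ _).trans a1
  have hL1 : L0 ≤ L := (le_max_left _ _).trans hLm
  have hL2 : 100 ≤ L := (le_max_left _ _).trans ((le_max_right _ _).trans hLm)
  have hL3 : 1 / β ≤ L := (le_max_right _ _).trans ((le_max_right _ _).trans hLm)
  have hLpos : 0 < L := by linarith
  have hβL : 1 ≤ β * L := by
    rw [div_le_iff₀ hβ0] at hL3; linarith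
  have hLT : 8 * L ≤ T := by nlinarith
  have hT1 : 1 ≤ T := by linarith
  have hmass := h X Y T a1' a2 a3 a4 a5
  have hN0 : 0 ≤ primFamM M X Y (fun q χ => (NN (F q χ) T (2 * T) : ℝ)) :=
    primFamM_nonneg _ _ _ _ (fun _ _ => Nat.cast_nonneg _)
  have hSN : primFamM M X Y (fun q χ => (Ns (F q χ) T (2 * T) : ℝ)) ≤
      primFamM M X Y (fun q χ => (NN (F q χ) T (2 * T) : ℝ)) := by
    refine primFamM_mono _ _ _ _ _ (fun q χ hq1 hq2 hqM hχ => ?_)
    have hX2 : 1 ≤ X := by exact_mod_cast hX1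
    have hg := hF q χ (by omega) hqM hχ
    have hq' : (1 : ℝ) ≤ q := by exact_mod_cast (show 1 ≤ q by omega)
    have hfin : (zset (F q χ) T (2 * T)).Finite := zset_finite_D hA hq' hg T _ (by linarith)
    have := off_count hg T hT1 hfin (by
      intro s hs
      rw [Set.Finite.mem_toFinset] at hs
      exact LocD.mult_pos_D hA hg (by linarith [hs.2.2.1]) hs.2.2.2.2)
    have h2 : (0 : ℝ) ≤ 2 * ((hfin.toFinset.filter (fun s => 1 / 2 < s.re)).card : ℝ) := by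
      positivity
    linarith
  -- the two inequalities for `b`
  have hboth : ∀ b : ℝ, 0 ≤ b → b ≤ 13 / 10 →
      2 * primFamM M X Y (fun q χ => (NN (F q χ) T (2 * T) : ℝ)) -
        primFamM M X Y (fun q χ => (Ns (F q χ) T (2 * T) : ℝ)) +
        ((1 - e1) * (1 - b ^ 2 / 6) ^ 2) *
          (primFamM M X Y (fun q χ => (Ns (F q χ) T (2 * T) : ℝ)) -
          primFamM M X Y (fun q χ => ((isoB (F q χ) T (b / L) (5 / 4 / L)).ncard : ℝ))) ≤
        κ * primFamM M X Y (fun q χ => (NN (F q χ) T (2 * T) : ℝ)) ∧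
      2 * primFamM M X Y (fun q χ => (NN (F q χ) T (2 * T) : ℝ)) -
        primFamM M X Y (fun q χ => (Ns (F q χ) T (2 * T) : ℝ)) +
        ((1 - e1) * (1 - b ^ 2 / 6) ^ 2) *
          (2 * primFamM M X Y (fun q χ => (Ns (F q χ) T (2 * T) : ℝ)) -
          primFamM M X Y (fun q χ => (NN (F q χ) T (2 * T) : ℝ)) -
          primFamM M X Y (fun q χ => ((isoT (F q χ) T (b / L)).ncard : ℝ))) ≤
        κ * primFamM M X Y (fun q χ => (NN (F q χ) T (2 * T) : ℝ)) := by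
    intro b hb0 hb1
    set q0 : ℝ := (1 - e1) * (1 - b ^ 2 / 6) ^ 2 with hq0
    have hb2 : b ^ 2 ≤ 1.69 := by nlinarith
    have hK0 : 0 ≤ 1 - b ^ 2 / 6 := by norm_num at hb2 ⊢; linarith
    have hK1 : (1 - b ^ 2 / 6) ^ 2 ≤ 1 := by
      have : 1 - b ^ 2 / 6 ≤ 1 := by have := sq_nonneg b; linarith
      calc (1 - b ^ 2 / 6) ^ 2 ≤ 1 ^ 2 := pow_le_pow_left₀ hK0 this 2
        _ = 1 := by norm_num
    have hq00 : 0 ≤ q0 := by
      have : 0 ≤ 1 - e1 := by linarith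
      positivity
    have hq01 : q0 ≤ 1 := by
      rw [hq0]
      calc (1 - e1) * (1 - b ^ 2 / 6) ^ 2 ≤ 1 * 1 :=
            mul_le_mul (by linarith) hK1 (sq_nonneg _) (by norm_num)
        _ = 1 := by norm_num
    have hk := hker b hb0 hb1 L hL1 (β * L) (by positivity)
      (mul_le_mul_of_nonneg_right hβ2.le hLpos.le)
    have hρ0 : 0 ≤ b / L := by positivity
    have hρ1 : b / L ≤ 1 := by rw [div_le_one hLpos]; linarith
    have hh0 : 0 ≤ 5 / 4 / L := by positivity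
    have hp : ∀ (q : ℕ) (χ : DirichletCharacter ℂ q), X < q → q ≤ Y → Nat.Coprime q M →
        χ.IsPrimitive → ∀ V1 V2 : ℝ, T - 3 * L ≤ V1 → V1 ≤ T - 3 * L + 1 →
        2 * T + 3 * L - 1 ≤ V2 → V2 ≤ 2 * T + 3 * L →
        _ := fun q χ hq1 hq2 hqM hχ V1 V2 v1 v2 v3 v4 =>
      hper q (F q χ) _ (by exact_mod_cast (show 1 ≤ q by omega))
        (hF q χ (by
          have : 1 ≤ X := by exact_mod_cast hX1
          omega) hqM hχ) T L (β * L) V1 V2 (b / L) (5 / 4 / L) q0 (by linarith) hLT hβL v1 v2 v3 v4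
        hρ0 hρ1 hh0 hq00 hq01 hk
    constructor
    · have k1 := hmass (fun q χ => 2 * (NN (F q χ) T (2 * T) : ℝ) - (Ns (F q χ) T (2 * T) : ℝ) +
        q0 * ((Ns (F q χ) T (2 * T) : ℝ) - ((isoB (F q χ) T (b / L) (5 / 4 / L)).ncard : ℝ)))
        (fun q χ hq1 hq2 hqM hχ V1 V2 v1 v2 v3 v4 => (hp q χ hq1 hq2 hqM hχ V1 V2 v1 v2 v3 v4).1)
      have l1 := primFamM_lin3 M X Y 2 (q0 - 1) (-q0) (fun q χ => (NN (F q χ) T (2 * T) : ℝ))
        (fun q χ => (Ns (F q χ) T (2 * T) : ℝ))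
        (fun q χ => ((isoB (F q χ) T (b / L) (5 / 4 / L)).ncard : ℝ))
      have l2 : (fun (q : ℕ) (χ : DirichletCharacter ℂ q) => 2 * (NN (F q χ) T (2 * T) : ℝ) -
          (Ns (F q χ) T (2 * T) : ℝ) + q0 * ((Ns (F q χ) T (2 * T) : ℝ) -
          ((isoB (F q χ) T (b / L) (5 / 4 / L)).ncard : ℝ))) =
          (fun (q : ℕ) (χ : DirichletCharacter ℂ q) => 2 * (NN (F q χ) T (2 * T) : ℝ) +
          (q0 - 1) * (Ns (F q χ) T (2 * T) : ℝ) + (-q0) *
          ((isoB (F q χ) T (b / L) (5 / 4 / L)).ncard : ℝ)) := by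
        funext q χ; ring
      rw [l2, l1] at k1
      linarith
    · have k1 := hmass (fun q χ => 2 * (NN (F q χ) T (2 * T) : ℝ) - (Ns (F q χ) T (2 * T) : ℝ) +
        q0 * (2 * (Ns (F q χ) T (2 * T) : ℝ) - (NN (F q χ) T (2 * T) : ℝ) -
          ((isoT (F q χ) T (b / L)).ncard : ℝ)))
        (fun q χ hq1 hq2 hqM hχ V1 V2 v1 v2 v3 v4 => (hp q χ hq1 hq2 hqM hχ V1 V2 v1 v2 v3 v4).2)
      have l1 := primFamM_lin3 M X Y (2 - q0) (2 * q0 - 1) (-q0)
        (fun q χ => (NN (F q χ) T (2 * T) : ℝ))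
        (fun q χ => (Ns (F q χ) T (2 * T) : ℝ))
        (fun q χ => ((isoT (F q χ) T (b / L)).ncard : ℝ))
      have l2 : (fun (q : ℕ) (χ : DirichletCharacter ℂ q) => 2 * (NN (F q χ) T (2 * T) : ℝ) -
          (Ns (F q χ) T (2 * T) : ℝ) + q0 * (2 * (Ns (F q χ) T (2 * T) : ℝ) -
          (NN (F q χ) T (2 * T) : ℝ) - ((isoT (F q χ) T (b / L)).ncard : ℝ))) =
          (fun (q : ℕ) (χ : DirichletCharacter ℂ q) => (2 - q0) * (NN (F q χ) T (2 * T) : ℝ) +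
          (2 * q0 - 1) * (Ns (F q χ) T (2 * T) : ℝ) + (-q0) *
          ((isoT (F q χ) T (b / L)).ncard : ℝ)) := by
        funext q χ; ring
      rw [l2, l1] at k1
      linarith
  have hfirst : ∀ b : ℝ, 0 ≤ b → b ≤ 13 / 10 → (1 - 0.3275 / (1 - b ^ 2 / 6) ^ 2) *
          primFamM M X Y (fun q χ => (NN (F q χ) T (2 * T) : ℝ)) ≤
        primFamM M X Y (fun q χ => ((isoB (F q χ) T (b / L) (5 / 4 / L)).ncard : ℝ)) := by
    intro b hb0 hb1
    have hb2 : b ^ 2 ≤ 1.69 := by nlinarith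
    have hK0 : 0 < 1 - b ^ 2 / 6 := by norm_num at hb2 ⊢; linarith
    have hK1 : (1 - b ^ 2 / 6) ^ 2 ≤ 1 := by
      have : 1 - b ^ 2 / 6 ≤ 1 := by have := sq_nonneg b; linarith
      calc (1 - b ^ 2 / 6) ^ 2 ≤ 1 ^ 2 := pow_le_pow_left₀ hK0.le this 2
        _ = 1 := by norm_num
    exact arith1 hN0 hSN rfl (by positivity) hK1 he1 he1' he1'' (hboth b hb0 hb1).1
  refine ⟨hfirst, ?_⟩
  have hB0 := (hboth 0 le_rfl (by norm_num)).1
  have hBS : primFamM M X Y (fun q χ => ((isoB (F q χ) T (0 / L) (5 / 4 / L)).ncard : ℝ)) ≤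
      primFamM M X Y (fun q χ => (Ns (F q χ) T (2 * T) : ℝ)) := by
    refine primFamM_mono _ _ _ _ _ (fun q χ hq1 hq2 hqM hχ => ?_)
    have hX2 : 1 ≤ X := by exact_mod_cast hX1
    have hg := hF q χ (by omega) hqM hχ
    have hq' : (1 : ℝ) ≤ q := by exact_mod_cast (show 1 ≤ q by omega)
    have hfin : (zset (F q χ) T (2 * T)).Finite := zset_finite_D hA hq' hg T _ (by linarith)
    have : (isoB (F q χ) T (0 / L) (5 / 4 / L)).ncard ≤ Ns (F q χ) T (2 * T) := by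
      unfold Ns
      apply Set.ncard_le_ncard
      · intro s hs
        exact ⟨hs.1, hs.2.1, hs.2.2.1⟩
      · exact hfin.subset fun s hs => hs.1
    exact_mod_cast this
  have hS2 : (2 - κ) * primFamM M X Y (fun q χ => (NN (F q χ) T (2 * T) : ℝ)) ≤
      primFamM M X Y (fun q χ => (Ns (F q χ) T (2 * T) : ℝ)) := by
    have hq0 : 0 ≤ (1 - e1) * (1 - (0 : ℝ) ^ 2 / 6) ^ 2 := by
      have : 0 ≤ 1 - e1 := by linarith
      positivity
    have := mul_nonneg hq0 (sub_nonneg.mpr hBS)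
    linarith
  refine arith2 hN0 (q := (1 - e1) * (1 - (13 / 10 : ℝ) ^ 2 / 6) ^ 2) ?_ hκ1.le hS2
    (hboth (13 / 10) (by norm_num) le_rfl).2
  norm_num
  nlinarith

end V8H36.IS
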