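import Pool.Agent.V8H36.IS.FinIso
import Pool.Agent.W388.TW.Final

/-!
Isolated zeros in families (helper36): twists of a newform.
-/

set_option autoImplicit false
set_option maxHeartbeats 4000000

open Complex Filter Topology Set MeasureTheory UpperHalfPlane MatrixGroups CongruenceSubgroup

namespace V8H36.IS

open H385 W388
open H370 (zset mult NN Nd Ns)

/-- isolated zeros for the twists of a newform, analytic normalisation. -/
theorem newf_iso {N : ℕ} [NeZero N] {k : ℤ} (hk : 1 ≤ k)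
    {f : CuspForm (Gamma0 N : Subgroup (GL (Fin 2) ℝ)) k} {ε : ℝ} (hf : IsNewf N k f ε) :
    ∃ F : (q : ℕ) → DirichletCharacter ℂ q → ℂ → ℂ,
      (∀ (q : ℕ) (χ : DirichletCharacter ℂ q), 1 ≤ q → Nat.Coprime q N → χ.IsPrimitive →
        Differentiable ℂ (F q χ) ∧ ∀ s : ℂ, 1 < s.re →
          HasProd (fun p : Nat.Primes =>
            (1 - χ ((p : ℕ) : ZMod q) * (lamf f p : ℂ) * ((p : ℕ) : ℂ) ^ (-s) +
              (if (p : ℕ) ∣ N then 0 else
                χ ((p : ℕ) : ZMod q) ^ 2 * ((p : ℕ) : ℂ) ^ (-2 * s)))⁻¹) (F q χ s)) ∧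
      ∃ K η X0 : ℝ, 1 ≤ K ∧ 0 < η ∧ 1 ≤ X0 ∧
      ∀ (X Y : ℕ) (T : ℝ), X0 ≤ X → K * X ≤ Y → (Y : ℝ) ≤ (X : ℝ) ^ (1 + η) →
        (Real.log X) ^ 2 ≤ T → T ≤ (X : ℝ) ^ η →
        (∀ b : ℝ, 0 ≤ b → b ≤ 13 / 10 → (1 - 0.3275 / (1 - b ^ 2 / 6) ^ 2) *
            primFamM N X Y (fun q χ => (NN (F q χ) T (2 * T) : ℝ)) ≤
          primFamM N X Y (fun q χ =>
            ((isoB (F q χ) T (b / Real.log X) (5 / 4 / Real.log X)).ncard : ℝ))) ∧
        0.345 * primFamM N X Y (fun q χ => (NN (F q χ) T (2 * T) : ℝ)) ≤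
          primFamM N X Y (fun q χ => ((isoT (F q χ) T (13 / 10 / Real.log X)).ncard : ℝ)) := by
  obtain ⟨A, F, hA, h1, h2, h3⟩ := newf_twists Pool.Agent.W440.TW.t_twist
    Pool.Agent.W108.TW.t_mellin Pool.Agent.W820.TW.t_fe p_dir p_nzr p_rs p_sel hk hf
  have hN : N ≠ 0 := NeZero.ne N
  have h1' : TwE 2 A (rad N) (fun n => (cS N (lamf f) n : ℂ)) F := by
    intro q χ hq hqN hχ
    exact h1 q χ hq ((coprime_rad hN q).mp hqN) hχ
  obtain ⟨K, η, X0, hK, hη, hX0, h⟩ := final_iso A hA (rad N) (rad_squarefree N) _ F h1' h2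
  refine ⟨F, h3, K, η, X0, hK, hη, hX0, fun X Y T a1 a2 a3 a4 a5 => ?_⟩
  have := h X Y T a1 a2 a3 a4 a5
  simp only [primFamM_rad hN] at this
  exact this

end V8H36.IS
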