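import Pool.Agent.V8H36.IS.BlocksW
import Pool.Agent.V8H36.IS.CloseG
import Pool.Agent.W388.TW.PerChiE

/-!
Isolated zeros in families (helper36): auxiliary lemmas for one L-function.
-/

open Complex Filter Topology Set MeasureTheory
open scoped BigOperators ComplexConjugate
open H370 (zset mult NN Nd Ns)

namespace V8H36.IS

open H385 W388
open H385.PerChi (zz_spec zz_refl zz_inj zz_re zz_im kk phiw_even phiw_zero Rw_cont aw aw_zz)
open W388.PerChiD (zset_refl mult_refl)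

/-- square root with nonnegative real part -/
lemma sqrt_exists (c : ℂ) : ∃ s : ℂ, s ^ 2 = c ∧ 0 ≤ s.re := by
  obtain ⟨s, hs⟩ := IsAlgClosed.exists_pow_nat_eq c (n := 2) two_pos
  rcases le_total 0 s.re with h | h
  · exact ⟨s, hs, h⟩
  · exact ⟨-s, by rw [neg_sq, hs], by rw [Complex.neg_re]; linarith⟩

/-- the square root of a nonnegative real number -/
lemma sqrt_real {s c : ℂ} (hs : s ^ 2 = c) (h0 : 0 ≤ s.re) (h1 : c.im = 0) (h2 : 0 ≤ c.re) :
    s = ((Real.sqrt c.re : ℝ) : ℂ) := by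
  have e1 : (s ^ 2).im = 0 := by rw [hs]; exact h1
  have e2 : (s ^ 2).re = c.re := by rw [hs]
  rw [sq, Complex.mul_im] at e1
  rw [sq, Complex.mul_re] at e2
  have h3 : s.im = 0 := by
    by_contra hne
    have h4 : s.re = 0 := by
      have : s.im * s.re = 0 := by linarith
      rcases mul_eq_zero.1 this with h | h
      · exact absurd h hne
      · exact h
    rw [h4] at e2
    have := mul_self_pos.2 hne
    linarith
  have h5 : s.re = Real.sqrt c.re := by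
    rw [h3, mul_zero, sub_zero] at e2
    rw [← e2, Real.sqrt_mul_self h0]
  apply Complex.ext
  · rw [Complex.ofReal_re, h5]
  · rw [Complex.ofReal_im, h3]

/-- the square root of a number close to a positive real number -/
lemma sqrt_near {s c : ℂ} {r e : ℝ} (hs : s ^ 2 = c) (h0 : 0 ≤ s.re) (hr : 0 < r)
    (hc : ‖c - r‖ ≤ e * r) : ‖s - Real.sqrt r‖ ≤ e * Real.sqrt r := by
  have hr' : 0 < Real.sqrt r := Real.sqrt_pos.mpr hr
  have e1 : (s - Real.sqrt r) * (s + Real.sqrt r) = c - r := by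
    have : ((Real.sqrt r : ℝ) : ℂ) ^ 2 = r := by
      rw [← Complex.ofReal_pow, Real.sq_sqrt hr.le]
    rw [← hs, ← this]; ring
  have e2 : Real.sqrt r ≤ ‖s + Real.sqrt r‖ := by
    refine le_trans ?_ (Complex.re_le_norm _)
    rw [Complex.add_re, Complex.ofReal_re]; linarith
  have e3 : ‖s - Real.sqrt r‖ * ‖s + Real.sqrt r‖ ≤ e * r := by
    rw [← norm_mul, e1]; exact hc
  have e4 : ‖s - Real.sqrt r‖ * Real.sqrt r ≤ (e * Real.sqrt r) * Real.sqrt r := by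
    calc ‖s - Real.sqrt r‖ * Real.sqrt r ≤ ‖s - Real.sqrt r‖ * ‖s + Real.sqrt r‖ :=
          mul_le_mul_of_nonneg_left e2 (norm_nonneg _)
      _ ≤ e * r := e3
      _ = (e * Real.sqrt r) * Real.sqrt r := by
          rw [mul_assoc, Real.mul_self_sqrt hr.le]
  exact le_of_mul_le_mul_right e4 hr'

/-- the Gram matrix entry between a real point and any point -/
lemma rw_real {φ : ℂ → ℂ} (hcj : ∀ z, conj (φ z) = φ (conj z)) (s : ℂ → ℂ) (x w : ℂ) (σ : ℝ)
    (hx : x.im = 0) (hsx : s x = ((σ : ℝ) : ℂ)) :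
    rw' φ s x w = 4 * σ * (s w * φ (w - x)).re := by
  have hxc : conj x = x := Complex.conj_eq_iff_im.mpr hx
  unfold rw'
  rw [hsx, hxc, Complex.conj_ofReal]
  have e1 : φ (conj w - x) = conj (φ (w - x)) := by
    rw [hcj, map_sub, hxc]
  rw [e1, mul_assoc, Complex.re_ofReal_mul, mul_assoc, Complex.re_ofReal_mul, ← map_mul,
    Complex.conj_re]
  ring

lemma rw_diag {φ : ℂ → ℂ} (h0 : φ 0 = 1) (s : ℂ → ℂ) (w : ℂ) :
    rw' φ s w w = 2 * (‖s w ^ 2‖ * (φ (w - conj w)).re + (s w ^ 2).re) := by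
  unfold rw'
  rw [sub_self, h0, mul_one]
  have e1 : conj (s w) * s w = ((‖s w ^ 2‖ : ℝ) : ℂ) := by
    rw [Complex.conj_mul', norm_pow]; push_cast; rfl
  rw [e1, Complex.re_ofReal_mul, ← map_mul, Complex.conj_re, ← sq]
  ring

/-- **attaching** a real point `x` (weight `u`) to a point `w` (weight `c = s²` close to `r`) -/
lemma attach {φ : ℂ → ℂ} (hcj : ∀ z, conj (φ z) = φ (conj z)) (h0 : φ 0 = 1) (s : ℂ → ℂ)
    (x w : ℂ) (u r e q : ℝ) (hx : x.im = 0) (hsx : s x = ((Real.sqrt u / 2 : ℝ) : ℂ))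
    (he : 0 ≤ e) (he1 : e ≤ 1 / 2) (hu0 : 1 - e ≤ u) (hr : 1 / 2 ≤ r)
    (hsw : 0 ≤ (s w).re) (hw : ‖s w ^ 2 - r‖ ≤ e * r)
    (hφ0 : 0 ≤ (φ (w - conj w)).re) (hq : 0 ≤ q)
    (hr4 : 4 * (s w ^ 2).re ≤ rw' φ s w w)
    (h1 : e * ‖φ (w - x)‖ ≤ (φ (w - x)).re)
    (h2 : q * (1 + e) * ((φ (w - conj w)).re + 1) ≤
      4 * (1 - e) * ((φ (w - x)).re - e * ‖φ (w - x)‖) ^ 2) :
    1 ≤ rw' φ s w w ∧ q ≤ 2 * rw' φ s x w ^ 2 / rw' φ s w w := by
  have hr0 : 0 < r := by linarith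
  have hu : 0 ≤ u := by linarith
  have e1 : ‖s w - Real.sqrt r‖ ≤ e * Real.sqrt r := sqrt_near rfl hsw hr0 hw
  have e2 : ‖s w ^ 2‖ ≤ (1 + e) * r := by
    have := norm_sub_norm_le (s w ^ 2) (r : ℂ)
    rw [Complex.norm_real, Real.norm_eq_abs, abs_of_pos hr0] at this
    linarith
  have e3 : (1 - e) * r ≤ (s w ^ 2).re ∧ (s w ^ 2).re ≤ (1 + e) * r := by
    have h3 := Complex.abs_re_le_norm (s w ^ 2 - r)
    rw [Complex.sub_re, Complex.ofReal_re] at h3
    obtain ⟨h4, h5⟩ := abs_le.mp (h3.trans hw)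
    constructor <;> linarith
  have e4 : rw' φ s w w ≤ 2 * ((1 + e) * r) * ((φ (w - conj w)).re + 1) := by
    rw [rw_diag h0]
    have : ‖s w ^ 2‖ * (φ (w - conj w)).re ≤ (1 + e) * r * (φ (w - conj w)).re :=
      mul_le_mul_of_nonneg_right e2 hφ0
    linarith [e3.2]
  have e5 : 1 ≤ rw' φ s w w := by
    have e7 : 1 / 4 ≤ (1 - e) * r := by nlinarith
    linarith [e3.1]
  refine ⟨e5, ?_⟩
  have e6 : Real.sqrt r * ((φ (w - x)).re - e * ‖φ (w - x)‖) ≤ (s w * φ (w - x)).re := by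
    have e7 : s w * φ (w - x) = (Real.sqrt r : ℂ) * φ (w - x) + (s w - Real.sqrt r) * φ (w - x) := by
      ring
    rw [e7, Complex.add_re, Complex.re_ofReal_mul]
    have e8 := Complex.abs_re_le_norm ((s w - Real.sqrt r) * φ (w - x))
    rw [norm_mul] at e8
    have e9 : ‖s w - Real.sqrt r‖ * ‖φ (w - x)‖ ≤ e * Real.sqrt r * ‖φ (w - x)‖ :=
      mul_le_mul_of_nonneg_right e1 (norm_nonneg _)
    have e10 := (abs_le.mp e8).1
    nlinarith
  have e11 : 0 ≤ Real.sqrt r * ((φ (w - x)).re - e * ‖φ (w - x)‖) :=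
    mul_nonneg (Real.sqrt_nonneg _) (by linarith)
  have e12 : 4 * (1 - e) * (r * ((φ (w - x)).re - e * ‖φ (w - x)‖) ^ 2) ≤ rw' φ s x w ^ 2 := by
    rw [rw_real hcj s x w (Real.sqrt u / 2) hx hsx]
    have e13 : (Real.sqrt r * ((φ (w - x)).re - e * ‖φ (w - x)‖)) ^ 2 ≤
        (s w * φ (w - x)).re ^ 2 := pow_le_pow_left₀ e11 e6 2
    rw [mul_pow, Real.sq_sqrt hr0.le] at e13
    have e14 : (4 * (Real.sqrt u / 2) * (s w * φ (w - x)).re) ^ 2 =
        4 * u * (s w * φ (w - x)).re ^ 2 := by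
      have := Real.sq_sqrt hu
      calc (4 * (Real.sqrt u / 2) * (s w * φ (w - x)).re) ^ 2 =
          4 * (Real.sqrt u ^ 2) * (s w * φ (w - x)).re ^ 2 := by ring
        _ = _ := by rw [this]
    rw [e14]
    have e15 : 0 ≤ r * ((φ (w - x)).re - e * ‖φ (w - x)‖) ^ 2 := by positivity
    calc 4 * (1 - e) * (r * ((φ (w - x)).re - e * ‖φ (w - x)‖) ^ 2) ≤
        4 * u * (r * ((φ (w - x)).re - e * ‖φ (w - x)‖) ^ 2) :=
          mul_le_mul_of_nonneg_right (by linarith) e15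
      _ ≤ 4 * u * (s w * φ (w - x)).re ^ 2 := mul_le_mul_of_nonneg_left e13 (by linarith)
  rw [le_div_iff₀ (by linarith)]
  calc q * rw' φ s w w ≤ q * (2 * ((1 + e) * r) * ((φ (w - conj w)).re + 1)) :=
        mul_le_mul_of_nonneg_left e4 hq
    _ = 2 * r * (q * (1 + e) * ((φ (w - conj w)).re + 1)) := by ring
    _ ≤ 2 * r * (4 * (1 - e) * ((φ (w - x)).re - e * ‖φ (w - x)‖) ^ 2) :=
        mul_le_mul_of_nonneg_left h2 (by linarith)
    _ ≤ 2 * rw' φ s x w ^ 2 := by linarith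

end V8H36.IS
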