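import Pool.Agent.V8H36.IS.PerA

/-!
Isolated zeros in families (helper36): the trace inequality for one L-function with the gain from
zeros that are not isolated.
-/

open Complex Filter Topology Set MeasureTheory
open scoped BigOperators ComplexConjugate
open H370 (zset mult NN Nd Ns)

namespace V8H36.IS

open H385 W388
open H385.PerChi (zz_spec zz_refl zz_inj zz_re zz_im kk phiw_even phiw_zero Rw_cont aw aw_zz)
open W388.PerChiD (zset_refl mult_refl)

/-- the combinatorial left hand side -/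
theorem lhs_eq {d A Q : ℝ} {F : ℂ → ℂ} {a : ℕ → ℂ} (hF : GoodE d A Q F a) (T V1 V2 : ℝ)
    (hV : 1 ≤ V1) (hfin : (zset F V1 V2).Finite) (Z : Finset ℂ)
    (hZdef : Z = hfin.toFinset.image zz) (S : Finset ℂ)
    (hS : S = Z.filter (fun z => z.im = 0 ∧ mult F (1 / 2 + I * z) = 1)) :
    ∑ s ∈ hfin.toFinset, (4 * (mult F s : ℝ) * (cc T (zz s)).re - kk F s) =
      4 * (∑ z ∈ Z, aw F T z).re - 3 * (S.card : ℝ) -
      4 * (((Z.filter (fun z => 0 ≤ z.im)) \ S).card : ℝ) := by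
  classical
  set Zf := hfin.toFinset with hZf
  have hmem : ∀ {s}, s ∈ Zf ↔ s ∈ zset F V1 V2 := by
    intro s; rw [hZf, Set.Finite.mem_toFinset]
  have hinj : Set.InjOn zz (Zf : Set ℂ) := fun s _ s' _ h => zz_inj h
  have hZ : ∀ z ∈ Z, (starRingEnd ℂ) z ∈ Z := by
    intro z hz
    rw [hZdef] at hz ⊢
    obtain ⟨s, hs, rfl⟩ := Finset.mem_image.mp hz
    rw [← zz_refl]
    exact Finset.mem_image_of_mem _ (hmem.2 (zset_refl hF hV (hmem.1 hs)))
  have hSim : ∀ z ∈ S, z.im = 0 := by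
    intro z hz
    rw [hS, Finset.mem_filter] at hz
    exact hz.2.1
  have c1 : (∑ z ∈ Z, aw F T z).re = ∑ s ∈ Zf, (mult F s : ℝ) * (cc T (zz s)).re := by
    rw [hZdef, Finset.sum_image hinj, Complex.re_sum]
    refine Finset.sum_congr rfl fun s _ => ?_
    rw [aw_zz, ← Complex.ofReal_natCast, Complex.re_ofReal_mul]
  have him0 : ∀ s, (zz s).im = 0 ↔ s.re = 1 / 2 := by
    intro s; rw [zz_im]; constructor <;> intro h <;> linarith
  have c2 : (S.card : ℝ) = ∑ s ∈ Zf, if (s.re = 1 / 2 ∧ mult F s = 1) then 1 else 0 := by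
    rw [hS, Finset.card_filter, Nat.cast_sum, hZdef, Finset.sum_image hinj]
    refine Finset.sum_congr rfl fun s _ => ?_
    simp only [him0, zz_spec, Nat.cast_ite, Nat.cast_one, Nat.cast_zero]
  have c3 : (((Z \ S).filter (fun z => z.im = 0)).card : ℝ) =
      ∑ s ∈ Zf, if (s.re = 1 / 2 ∧ mult F s ≠ 1) then 1 else 0 := by
    have : (Z \ S).filter (fun z => z.im = 0) =
        Z.filter (fun z => z.im = 0 ∧ mult F (1 / 2 + I * z) ≠ 1) := by
      ext z
      simp only [hS, Finset.mem_filter, Finset.mem_sdiff]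
      tauto
    rw [this, Finset.card_filter, Nat.cast_sum, hZdef, Finset.sum_image hinj]
    refine Finset.sum_congr rfl fun s _ => ?_
    simp only [him0, zz_spec, Nat.cast_ite, Nat.cast_one, Nat.cast_zero]
  have c4 : 2 * ((Z.filter (fun z => 0 < z.im)).card : ℝ) =
      ∑ s ∈ Zf, if s.re = 1 / 2 then 0 else 1 := by
    have e1 : (Z.filter (fun z => z.im < 0)).card = (Z.filter (fun z => 0 < z.im)).card := by
      refine Finset.card_nbij' (fun z => (starRingEnd ℂ) z) (fun z => (starRingEnd ℂ) z) ?_ ?_ ?_ ?_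
      · intro z hz
        simp only [Finset.coe_filter, Set.mem_ofPred_eq] at hz ⊢
        refine ⟨hZ z hz.1, ?_⟩
        rw [Complex.conj_im]; linarith [hz.2]
      · intro z hz
        simp only [Finset.coe_filter, Set.mem_ofPred_eq] at hz ⊢
        refine ⟨hZ z hz.1, ?_⟩
        rw [Complex.conj_im]; linarith [hz.2]
      · intro z _; simp
      · intro z _; simp
    have e2 : (Z.filter (fun z => ¬ z.im = 0)).card =
        (Z.filter (fun z => z.im < 0)).card + (Z.filter (fun z => 0 < z.im)).card := by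
      rw [← Finset.card_union_of_disjoint]
      · congr 1
        ext z
        simp only [Finset.mem_filter, Finset.mem_union]
        constructor
        · rintro ⟨h1, h2⟩
          rcases lt_or_gt_of_ne h2 with h | h
          · exact Or.inl ⟨h1, h⟩
          · exact Or.inr ⟨h1, h⟩
        · rintro (⟨h1, h2⟩ | ⟨h1, h2⟩)
          · exact ⟨h1, ne_of_lt h2⟩
          · exact ⟨h1, ne_of_gt h2⟩
      · rw [Finset.disjoint_filter]
        intro z _ h1 h2
        linarith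
    have e3 : 2 * ((Z.filter (fun z => 0 < z.im)).card : ℝ) =
        ((Z.filter (fun z => ¬ z.im = 0)).card : ℝ) := by
      rw [e2, e1]; push_cast; ring
    rw [e3, Finset.card_filter, Nat.cast_sum, hZdef, Finset.sum_image hinj]
    refine Finset.sum_congr rfl fun s _ => ?_
    simp only [him0, Nat.cast_ite, Nat.cast_one, Nat.cast_zero, ite_not]
  have c6 : (((Z.filter (fun z => 0 ≤ z.im)) \ S).card : ℝ) =
      (((Z \ S).filter (fun z => z.im = 0)).card : ℝ) +
        ((Z.filter (fun z => 0 < z.im)).card : ℝ) := by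
    rw [← Nat.cast_add, ← Finset.card_union_of_disjoint]
    · congr 2
      ext z
      simp only [Finset.mem_sdiff, Finset.mem_filter, Finset.mem_union]
      constructor
      · rintro ⟨⟨h1, h2⟩, h3⟩
        rcases h2.eq_or_lt with h4 | h4
        · left
          exact ⟨⟨h1, h3⟩, h4.symm⟩
        · right
          exact ⟨h1, h4⟩
      · rintro (⟨⟨h1, h3⟩, h2⟩ | ⟨h1, h2⟩)
        · exact ⟨⟨h1, h2.ge⟩, h3⟩
        · exact ⟨⟨h1, h2.le⟩, fun h => by linarith [hSim z h]⟩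
    · rw [Finset.disjoint_left]
      intro z h1 h2
      simp only [Finset.mem_filter] at h1 h2
      linarith [h1.2, h2.2]
  have c5 : ∑ s ∈ Zf, (4 * (mult F s : ℝ) * (cc T (zz s)).re - kk F s) =
      4 * (∑ s ∈ Zf, (mult F s : ℝ) * (cc T (zz s)).re) -
      3 * (∑ s ∈ Zf, if (s.re = 1 / 2 ∧ mult F s = 1) then (1 : ℝ) else 0) -
      (4 * (∑ s ∈ Zf, if (s.re = 1 / 2 ∧ mult F s ≠ 1) then (1 : ℝ) else 0) +
        2 * (∑ s ∈ Zf, if s.re = 1 / 2 then (0 : ℝ) else 1)) := by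
    rw [Finset.mul_sum, Finset.mul_sum, Finset.mul_sum, Finset.mul_sum, ← Finset.sum_sub_distrib,
      ← Finset.sum_add_distrib, ← Finset.sum_sub_distrib]
    refine Finset.sum_congr rfl fun s _ => ?_
    unfold kk
    by_cases h1 : s.re = 1 / 2
    · by_cases h2 : mult F s = 1
      · rw [if_pos h1, if_pos h2, if_pos ⟨h1, h2⟩, if_neg (fun h => h.2 h2), if_pos h1]; ring
      · rw [if_pos h1, if_neg h2, if_neg (fun h => h2 h.2), if_pos ⟨h1, h2⟩, if_pos h1]; ring
    · rw [if_neg h1, if_neg (fun h => h1 h.1), if_neg (fun h => h1 h.1), if_neg h1]; ring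
  rw [c5, c1, c2, c6, c3, ← c4]
  ring

theorem trace_iso (γ : ℝ) (h0 : 0 < γ) (hπ : γ < Real.pi) {d A Q : ℝ} {F : ℂ → ℂ}
    {a : ℕ → ℂ} (hF : GoodE d A Q F a) (T Λ V1 V2 κ e ρ h q : ℝ) (hΛ : 0 < Λ) (hT : 0 ≤ T)
    (hV : 1 ≤ V1) (hfin : (zset F V1 V2).Finite)
    (hmp : ∀ s ∈ hfin.toFinset, 1 ≤ mult F s)
    (hρ : 0 ≤ ρ) (he0 : 0 ≤ e) (he1 : e ≤ 1 / 2) (hq0 : 0 ≤ q)
    (hcc : ∀ z : ℂ, |z.im| ≤ 1 / 2 → T + κ ≤ z.re → z.re ≤ 2 * T - κ → ‖cc T z - 1‖ ≤ e)
    (hq1 : ∀ x y : ℝ, |x - y| ≤ ρ → q ≤ (1 - e) ^ 2 * (phiw γ Λ ((x : ℂ) - y)).re ^ 2)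
    (hq2 : ∀ (x : ℝ) (w : ℂ), |w.re - x| ≤ ρ → 0 ≤ w.im → w.im ≤ h →
      e * ‖phiw γ Λ (w - x)‖ ≤ (phiw γ Λ (w - x)).re ∧
      q * (1 + e) * ((phiw γ Λ (w - conj w)).re + 1) ≤
        4 * (1 - e) * ((phiw γ Λ (w - x)).re - e * ‖phiw γ Λ (w - x)‖) ^ 2)
    (NI : Finset ℂ) (hNI : ∀ s ∈ NI, s ∈ hfin.toFinset ∧ s.re = 1 / 2 ∧ mult F s = 1 ∧
      T + κ + ρ ≤ s.im ∧ s.im ≤ 2 * T - κ - ρ ∧
      ∃ s' ∈ hfin.toFinset, s' ≠ s ∧ |s'.im - s.im| ≤ ρ ∧ |s'.re - 1 / 2| ≤ h) :
    ∑ s ∈ hfin.toFinset, (4 * (mult F s : ℝ) * (cc T (zz s)).re - kk F s) + q * (NI.card : ℝ) ≤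
      (2 / (Real.sqrt Real.pi * Λ)) * (∫ u in (0 : ℝ)..Λ, Rw γ (u / Λ) *
          ∫ t : ℝ, ‖BB F V1 V2 T u t‖ ^ 2) := by
  classical
  set Zf := hfin.toFinset with hZf
  have hmem : ∀ {s}, s ∈ Zf ↔ s ∈ zset F V1 V2 := by
    intro s; rw [hZf, Set.Finite.mem_toFinset]
  set Z := Zf.image zz with hZdef
  have hinj : Set.InjOn zz (Zf : Set ℂ) := fun s _ s' _ h => zz_inj h
  have hZ : ∀ z ∈ Z, (starRingEnd ℂ) z ∈ Z := by
    intro z hz
    obtain ⟨s, hs, rfl⟩ := Finset.mem_image.mp hz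
    rw [← zz_refl]
    exact Finset.mem_image_of_mem _ (hmem.2 (zset_refl hF hV (hmem.1 hs)))
  have hac : ∀ z ∈ Z, aw F T ((starRingEnd ℂ) z) = (starRingEnd ℂ) (aw F T z) := by
    intro z hz
    obtain ⟨s, hs, rfl⟩ := Finset.mem_image.mp hz
    obtain ⟨h1, h2, h3, h4, h5⟩ := hmem.1 hs
    rw [← zz_refl, aw_zz, aw_zz, map_mul, Complex.conj_natCast, cc_conj, zz_refl,
      mult_refl hF h1 h2 (by linarith)]
  obtain ⟨E, i1, i2, k, hk⟩ := gram_w γ h0 hπ Λ
  set S := Z.filter (fun z => z.im = 0 ∧ mult F (1 / 2 + I * z) = 1) with hS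
  have hSZ : S ⊆ Z := Finset.filter_subset _ _
  have hSr : ∀ z ∈ S, z.im = 0 ∧ 0 ≤ (aw F T z).re ∧ (aw F T z).re ≤ 1 := by
    intro z hz
    obtain ⟨hz1, hz2, hz3⟩ := Finset.mem_filter.mp hz
    have hzr : z = ((z.re : ℝ) : ℂ) := by
      apply Complex.ext
      · simp
      · simp [hz2]
    have h4 := cc_real T z.re hT
    rw [← hzr] at h4
    refine ⟨hz2, ?_⟩
    unfold aw
    rw [hz3, Nat.cast_one, one_mul]
    exact h4.2
  -- kernel facts
  set φ := phiw γ Λ with hφ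
  have hev : ∀ z, φ (-z) = φ z := phiw_even γ Λ
  have hφ0 : φ 0 = 1 := phiw_zero γ h0 hπ Λ
  have hcj : ∀ z, conj (φ z) = φ (conj z) := by
    intro z
    have h1 := hk 0 z
    have h2 := hk z 0
    rw [← inner_conj_symm, h1] at h2
    simp only [map_zero, sub_zero, zero_sub] at h2
    rw [h2, hev]
  have hφd : ∀ w, 0 ≤ (φ (w - conj w)).re := by
    intro w
    have h1 := hk w w
    rw [inner_self_eq_norm_sq_to_K] at h1
    rw [← h1]
    have : (((‖k w‖ : ℝ) : ℂ) ^ 2).re = ‖k w‖ ^ 2 := by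
      rw [← Complex.ofReal_pow, Complex.ofReal_re]
    exact le_of_le_of_eq (by positivity) this.symm
  have hφr : ∀ x y : ℝ, |(φ ((x : ℂ) - y)).re| ≤ 1 := by
    intro x y
    have h1 : ∀ x : ℝ, ‖k (x : ℂ)‖ = 1 := by
      intro x
      have := hk x x
      rw [Complex.conj_ofReal, sub_self, hφ0] at this
      have h2 : ‖k (x : ℂ)‖ ^ 2 = 1 := by
        have h3 := inner_self_eq_norm_sq (𝕜 := ℂ) (k (x : ℂ))
        rw [this] at h3
        simpa using h3.symm
      nlinarith [norm_nonneg (k (x : ℂ))]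
    have h2 := hk (y : ℂ) (x : ℂ)
    rw [Complex.conj_ofReal] at h2
    rw [← h2]
    refine (Complex.abs_re_le_norm _).trans ?_
    refine (norm_inner_le_norm _ _).trans ?_
    rw [h1, h1, one_mul]
  -- square roots
  have hsq : ∀ z, ∃ σ : ℂ, σ ^ 2 = cw (aw F T) z ∧ 0 ≤ σ.re := fun z => sqrt_exists _
  choose s hs hs0 using hsq
  set u : ℝ → ℝ := fun x => (cc T x).re with hu
  have hu0 : ∀ x, 0 ≤ u x := fun x => (cc_real T x hT).2.1
  have hu1 : ∀ x, u x ≤ 1 := fun x => (cc_real T x hT).2.2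
  have hure : ∀ z ∈ S, z = ((z.re : ℝ) : ℂ) := by
    intro z hz
    apply Complex.ext
    · simp
    · simp [(hSr z hz).1]
  have haS : ∀ z ∈ S, aw F T z = ((u z.re : ℝ) : ℂ) := by
    intro z hz
    have h1 := hure z hz
    have h3 : mult F (1 / 2 + I * z) = 1 := (Finset.mem_filter.mp hz).2.2
    have h2 := cc_real T z.re hT
    unfold aw
    rw [h3, Nat.cast_one, one_mul]
    apply Complex.ext
    · rw [Complex.ofReal_re]
      simp only [hu]
      rw [← h1]
    · rw [Complex.ofReal_im, h1]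
      exact h2.1
  have hsS : ∀ z ∈ S, s z = ((Real.sqrt (u z.re) / 2 : ℝ) : ℂ) := by
    intro z hz
    have h1 : cw (aw F T) z = ((u z.re / 4 : ℝ) : ℂ) := by
      unfold cw
      rw [if_pos (hSr z hz).1, haS z hz]
      push_cast; rfl
    have h2 := sqrt_real (hs z) (hs0 z) (by rw [h1, Complex.ofReal_im])
      (by rw [h1, Complex.ofReal_re]; have := hu0 z.re; positivity)
    rw [h2, h1, Complex.ofReal_re]
    congr 1
    rw [Real.sqrt_div (hu0 _), show (4 : ℝ) = 2 ^ 2 by norm_num, Real.sqrt_sq (by norm_num)]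
  set R : ℝ → ℝ → ℝ := fun x y => Real.sqrt (u x) * Real.sqrt (u y) * (φ ((x : ℂ) - y)).re with hR
  have hφs : ∀ x y : ℝ, (φ ((x : ℂ) - y)).re = (φ ((y : ℂ) - x)).re := by
    intro x y
    rw [← hev]; congr 2; ring
  have hRs : ∀ x y, R x y = R y x := by
    intro x y
    simp only [hR]
    rw [hφs x y]; ring
  have hsq1 : ∀ x, Real.sqrt (u x) ≤ 1 := fun x => Real.sqrt_le_one.mpr (hu1 x)
  have hR1 : ∀ x y, |R x y| ≤ 1 := by
    intro x y
    simp only [hR]
    rw [abs_mul, abs_mul, abs_of_nonneg (Real.sqrt_nonneg _), abs_of_nonneg (Real.sqrt_nonneg _)]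
    have h1 : Real.sqrt (u x) * Real.sqrt (u y) ≤ 1 * 1 :=
      mul_le_mul (hsq1 x) (hsq1 y) (Real.sqrt_nonneg _) (by norm_num)
    calc Real.sqrt (u x) * Real.sqrt (u y) * |(φ ((x : ℂ) - y)).re| ≤ (1 * 1) * 1 :=
          mul_le_mul h1 (hφr x y) (abs_nonneg _) (by norm_num)
      _ = 1 := by norm_num
  have hrR : ∀ z ∈ S, ∀ w ∈ S, rw' φ s z w = R z.re w.re := by
    intro z hz w hw
    rw [rw_real hcj s z w _ (hSr z hz).1 (hsS z hz), hsS w hw, Complex.re_ofReal_mul]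
    simp only [hR]
    have h1 := hure z hz
    have h2 := hure w hw
    have h3 : φ (w - z) = φ ((z.re : ℂ) - w.re) := by
      rw [← hev, ← h1, ← h2]; congr 1; ring
    rw [h3]
    ring
  -- bulk
  set Sb : Finset ℝ := (S.filter (fun z => T + κ ≤ z.re ∧ z.re ≤ 2 * T - κ)).image Complex.re
    with hSb
  have hSbm : ∀ x : ℝ, x ∈ Sb ↔ (x : ℂ) ∈ S ∧ T + κ ≤ x ∧ x ≤ 2 * T - κ := by
    intro x
    rw [hSb, Finset.mem_image]
    constructor
    · rintro ⟨z, hz, rfl⟩
      rw [Finset.mem_filter] at hz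
      rw [← hure z hz.1]
      exact hz
    · rintro ⟨h1, h2⟩
      exact ⟨(x : ℂ), Finset.mem_filter.mpr ⟨h1, by simpa using h2⟩, by simp⟩
  have hub : ∀ x ∈ Sb, 1 - e ≤ u x := by
    intro x hx
    obtain ⟨-, h2, h3⟩ := (hSbm x).mp hx
    have h4 := hcc (x : ℂ) (by simp) (by simpa using h2) (by simpa using h3)
    have h5 := Complex.abs_re_le_norm (cc T x - 1)
    rw [Complex.sub_re, Complex.one_re] at h5
    have := (abs_le.mp (h5.trans h4)).1
    simp only [hu]
    linarith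
  have hqR : ∀ x ∈ Sb, ∀ y ∈ Sb, |x - y| ≤ ρ → q ≤ R x y ^ 2 := by
    intro x hx y hy hxy
    refine (hq1 x y hxy).trans ?_
    simp only [hR]
    rw [mul_pow, mul_pow, Real.sq_sqrt (hu0 x), Real.sq_sqrt (hu0 y)]
    apply mul_le_mul_of_nonneg_right _ (sq_nonneg _)
    rw [sq]
    exact mul_le_mul (hub x hx) (hub y hy) (by linarith) (hu0 x)
  set C1 := H344.closeS ρ Sb with hC1
  obtain ⟨Y, hY1, hY2⟩ := close_good_g hRs hR1 Sb hqR _ Sb rfl (Finset.Subset.refl _)
  change (q * (C1.card : ℝ) ≤ YTg R C1 Y) at hY2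
  have hC1b : C1 ⊆ Sb := H344.closeS_sub
  set NIr : Finset ℝ := NI.image Complex.im with hNIr
  have hNIcard : NIr.card = NI.card := by
    rw [hNIr, Finset.card_image_of_injOn]
    intro s1 h1 s2 h2 h12
    have a1 := (hNI s1 h1).2.1
    have a2 := (hNI s2 h2).2.1
    exact Complex.ext (by rw [a1, a2]) h12
  have hzzr : ∀ s : ℂ, s.re = 1 / 2 → zz s = ((s.im : ℝ) : ℂ) := by
    intro s hs1
    apply Complex.ext
    · rw [zz_re, Complex.ofReal_re]
    · rw [zz_im, Complex.ofReal_im, hs1]; ring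
  have hNIb : NIr ⊆ Sb := by
    intro x hx
    obtain ⟨s1, hs1, rfl⟩ := Finset.mem_image.mp hx
    obtain ⟨b1, b2, b3, b4, b5, b6⟩ := hNI s1 hs1
    rw [hSbm]
    refine ⟨?_, by linarith, by linarith⟩
    rw [← hzzr s1 b2, hS, Finset.mem_filter]
    refine ⟨Finset.mem_image_of_mem _ b1, ?_, ?_⟩
    · rw [zz_im, b2]; ring
    · rw [zz_spec]; exact b3
  set S2r := NIr \ C1 with hS2r
  set SA : Finset ℂ := C1.image (fun x : ℝ => (x : ℂ)) with hSA
  set S2 : Finset ℂ := S2r.image (fun x : ℝ => (x : ℂ)) with hS2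
  have hinjR : ∀ A : Finset ℝ, Set.InjOn (fun x : ℝ => (x : ℂ)) (A : Set ℝ) :=
    fun A x _ y _ hxy => Complex.ofReal_injective hxy
  have himg : ∀ (A : Finset ℝ) {M : Type} [AddCommMonoid M] (f : ℂ → M),
      ∑ z ∈ A.image (fun x : ℝ => (x : ℂ)), f z = ∑ x ∈ A, f (x : ℂ) := by
    intro A M _ f
    rw [Finset.sum_image (hinjR A)]
  have hSAS : SA ⊆ S := by
    intro z hz
    obtain ⟨x, hx, rfl⟩ := Finset.mem_image.mp hz
    exact ((hSbm x).mp (hC1b hx)).1
  have hS2b : S2r ⊆ Sb := Finset.sdiff_subset.trans hNIb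
  have hS2S : S2 ⊆ S := by
    intro z hz
    obtain ⟨x, hx, rfl⟩ := Finset.mem_image.mp hz
    exact ((hSbm x).mp (hS2b hx)).1
  have hd : Disjoint SA S2 := by
    rw [hSA, hS2, Finset.disjoint_image Complex.ofReal_injective, hS2r]
    exact Finset.disjoint_sdiff
  -- attach map
  set Pw : ℂ → ℂ → Prop := fun x w => w ∈ Z ∧ 0 ≤ w.im ∧ w.im ≤ h ∧ |w.re - x.re| ≤ ρ ∧
    T + κ ≤ w.re ∧ w.re ≤ 2 * T - κ ∧ w ∉ S with hPw
  have hex : ∀ x ∈ S2, ∃ w, Pw x w := by
    intro x hx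
    rw [hS2, Finset.mem_image] at hx
    obtain ⟨x, hx, rfl⟩ := hx
    rw [hS2r, Finset.mem_sdiff] at hx
    obtain ⟨hxN, hxC⟩ := hx
    obtain ⟨s1, hs1, rfl⟩ := Finset.mem_image.mp hxN
    obtain ⟨b1, b2, b3, b4, b5, s', b6, b7, b8, b9⟩ := hNI s1 hs1
    have hre : (zz s').re = s'.im := zz_re s'
    have him : (zz s').im = -(s'.re - 1 / 2) := zz_im s'
    have hzs : zz s' ∈ Z := Finset.mem_image_of_mem _ b6
    obtain ⟨b10, b11⟩ := abs_le.mp b8
    have hnS : zz s' ∉ S := by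
      intro hcon
      apply hxC
      have h1 := hure _ hcon
      rw [hre] at h1
      refine H344.mem_closeS.mpr ⟨hNIb hxN, s'.im, (hSbm _).mpr ⟨by rw [← h1]; exact hcon, ?_, ?_⟩,
        ?_, ?_⟩
      · linarith
      · linarith
      · intro h2
        apply b7
        have h3 : zz s' = zz s1 := by
          rw [h1, h2, hzzr s1 b2]
        exact zz_inj h3
      · rw [abs_sub_comm]; exact b8
    rcases le_or_gt 0 (zz s').im with h3 | h3
    · refine ⟨zz s', hzs, h3, ?_, ?_, ?_, ?_, hnS⟩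
      · rw [him]
        exact (le_abs_self _).trans (by rw [abs_neg]; exact b9)
      · rw [hre, Complex.ofReal_re]; exact b8
      · rw [hre]; linarith
      · rw [hre]; linarith
    · refine ⟨conj (zz s'), hZ _ hzs, ?_, ?_, ?_, ?_, ?_, ?_⟩
      · rw [Complex.conj_im]; linarith
      · rw [Complex.conj_im, him, neg_neg]
        exact (le_abs_self _).trans b9
      · rw [Complex.conj_re, hre, Complex.ofReal_re]; exact b8
      · rw [Complex.conj_re, hre]; linarith
      · rw [Complex.conj_re, hre]; linarith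
      · intro h4
        have := (hSr _ h4).1
        rw [Complex.conj_im] at this
        linarith
  set o : ℂ → ℂ := fun x => if hx : ∃ w, Pw x w then hx.choose else 0 with ho'
  have hoP : ∀ x ∈ S2, Pw x (o x) := by
    intro x hx
    simp only [ho', dif_pos (hex x hx)]
    exact (hex x hx).choose_spec
  have ho : ∀ x ∈ S2, o x ∈ Z.filter (fun z => 0 ≤ z.im) ∧ o x ∉ S := by
    intro x hx
    obtain ⟨a1, a2, a3, a4, a5, a6, a7⟩ := hoP x hx
    exact ⟨Finset.mem_filter.mpr ⟨a1, a2⟩, a7⟩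
  have hS2far : ∀ x ∈ S2r, ∀ y ∈ S2r, |x - y| ≤ ρ → x = y := by
    intro x hx y hy hxy
    by_contra hne
    have hx1 := hS2b hx
    have hy1 := hS2b hy
    rw [hS2r, Finset.mem_sdiff] at hx hy
    apply hx.2
    exact H344.mem_closeS.mpr ⟨hx1, y, hy1, fun h => hne h.symm, hxy⟩
  have hcard : ∀ z, (S2.filter (fun x => o x = z)).card ≤ 2 := by
    intro z
    have h1 : S2.filter (fun x => o x = z) ⊆
        (S2.filter (fun x => o x = z ∧ x.re ≤ z.re)) ∪ (S2.filter (fun x => o x = z ∧ z.re < x.re)) := by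
      intro x hx
      rw [Finset.mem_union, Finset.mem_filter, Finset.mem_filter]
      rw [Finset.mem_filter] at hx
      rcases le_or_gt x.re z.re with h | h
      · exact Or.inl ⟨hx.1, hx.2, h⟩
      · exact Or.inr ⟨hx.1, hx.2, h⟩
    have h2 : (S2.filter (fun x => o x = z ∧ x.re ≤ z.re)).card ≤ 1 := by
      rw [Finset.card_le_one]
      intro x hx y hy
      rw [Finset.mem_filter] at hx hy
      have bx := (hoP x hx.1).2.2.2.1
      have bY := (hoP y hy.1).2.2.2.1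
      rw [hx.2.1] at bx
      rw [hy.2.1] at bY
      obtain ⟨hx1, hx2, hx3⟩ := hx
      obtain ⟨hy1, hy2, hy3⟩ := hy
      rw [hS2, Finset.mem_image] at hx1 hy1
      obtain ⟨x, hx, rfl⟩ := hx1
      obtain ⟨y, hy, rfl⟩ := hy1
      simp only [Complex.ofReal_re] at *
      rw [abs_le] at bx bY
      rw [hS2far x hx y hy (by rw [abs_le]; constructor <;> linarith [bx.1, bx.2, bY.1, bY.2])]
    have h3 : (S2.filter (fun x => o x = z ∧ z.re < x.re)).card ≤ 1 := by
      rw [Finset.card_le_one]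
      intro x hx y hy
      rw [Finset.mem_filter] at hx hy
      have bx := (hoP x hx.1).2.2.2.1
      have bY := (hoP y hy.1).2.2.2.1
      rw [hx.2.1] at bx
      rw [hy.2.1] at bY
      obtain ⟨hx1, hx2, hx3⟩ := hx
      obtain ⟨hy1, hy2, hy3⟩ := hy
      rw [hS2, Finset.mem_image] at hx1 hy1
      obtain ⟨x, hx, rfl⟩ := hx1
      obtain ⟨y, hy, rfl⟩ := hy1
      simp only [Complex.ofReal_re] at *
      rw [abs_le] at bx bY
      rw [hS2far x hx y hy (by rw [abs_le]; constructor <;> linarith [bx.1, bx.2, bY.1, bY.2])]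
    have h4 := Finset.card_le_card h1
    have h5 := Finset.card_union_le (S2.filter (fun x => o x = z ∧ x.re ≤ z.re))
      (S2.filter (fun x => o x = z ∧ z.re < x.re))
    omega
  obtain ⟨hCS, hcr, hsym, -, -⟩ := trace_gen_w φ k hk hev hφ0 Z hZ (aw F T) hac s hs
    (fun _ _ => 0) (by
      intro v
      simp only [zero_mul, Finset.sum_const_zero]
      positivity)
  -- the attached points
  have hatt : ∀ x ∈ S2, 1 ≤ rw' φ s (o x) (o x) ∧
      q ≤ 2 * rw' φ s x (o x) ^ 2 / rw' φ s (o x) (o x) := by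
    intro x hx
    obtain ⟨a1, a2, a3, a4, a5, a6, a7⟩ := hoP x hx
    have hxS := hS2S hx
    have hx0 := (hSr x hxS).1
    have hxb : x.re ∈ Sb := by
      rw [hS2, Finset.mem_image] at hx
      obtain ⟨y, hy, rfl⟩ := hx
      rw [Complex.ofReal_re]
      exact hS2b hy
    obtain ⟨w1, w2⟩ := hq2 x.re (o x) a4 a2 a3
    rw [← hure x hxS] at w1 w2
    -- the weight of the point `o x`
    obtain ⟨s', hs', hs'e⟩ := Finset.mem_image.mp a1
    obtain ⟨c1, c2, c3, c4, c5⟩ := hmem.mp hs'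
    have him' : |(o x).im| ≤ 1 / 2 := by
      rw [← hs'e, zz_im, abs_le]; constructor <;> linarith
    have hm := hmp s' hs'
    have hmo : mult F (1 / 2 + I * o x) = mult F s' := by rw [← hs'e, zz_spec]
    have hcn := hcc (o x) him' a5 a6
    have hm1 : (1 : ℝ) ≤ (mult F s' : ℝ) := by exact_mod_cast hm
    obtain ⟨r, hr, hrw⟩ : ∃ r : ℝ, 1 / 2 ≤ r ∧ ‖s (o x) ^ 2 - r‖ ≤ e * r := by
      by_cases hi : (o x).im = 0
      · have hm2 : mult F s' ≠ 1 := by
          intro hm2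
          apply a7
          rw [hS, Finset.mem_filter]
          exact ⟨a1, hi, by rw [hmo]; exact hm2⟩
        have hm3 : 2 ≤ mult F s' := by omega
        have hm4 : (2 : ℝ) ≤ (mult F s' : ℝ) := by exact_mod_cast hm3
        refine ⟨(mult F s' : ℝ) / 4, by linarith, ?_⟩
        rw [hs]
        unfold cw aw
        rw [if_pos hi, hmo]
        have : (mult F s' : ℂ) * cc T (o x) / 4 - (((mult F s' : ℝ) / 4 : ℝ) : ℂ) =
            (((mult F s' : ℝ) / 4 : ℝ) : ℂ) * (cc T (o x) - 1) := by push_cast; ring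
        rw [this, norm_mul, Complex.norm_real, Real.norm_eq_abs, abs_of_nonneg (by positivity),
          mul_comm]
        exact mul_le_mul_of_nonneg_right hcn (by positivity)
      · refine ⟨(mult F s' : ℝ) / 2, by linarith, ?_⟩
        rw [hs]
        unfold cw aw
        rw [if_neg hi, hmo]
        have : (mult F s' : ℂ) * cc T (o x) / 2 - (((mult F s' : ℝ) / 2 : ℝ) : ℂ) =
            (((mult F s' : ℝ) / 2 : ℝ) : ℂ) * (cc T (o x) - 1) := by push_cast; ring
        rw [this, norm_mul, Complex.norm_real, Real.norm_eq_abs, abs_of_nonneg (by positivity),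
          mul_comm]
        exact mul_le_mul_of_nonneg_right hcn (by positivity)
    exact attach hcj hφ0 s x (o x) (u x.re) r e q hx0 (hsS x hxS) he0 he1 (hub _ hxb) hr
      (hs0 _) hrw (hφd _) hq0 (by rw [hs]; exact hcr _) w1 w2
  set t : ℂ → ℝ := fun x => rw' φ s x (o x) / rw' φ s (o x) (o x) with ht
  have ht1 : ∀ x ∈ S2, t x ^ 2 ≤ 1 := by
    intro x hx
    obtain ⟨c1, -⟩ := hatt x hx
    have c2 := hCS x (o x)
    have c3 : rw' φ s x x ≤ 1 := by
      rw [hrR x (hS2S hx) x (hS2S hx)]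
      exact (le_abs_self _).trans (hR1 _ _)
    simp only [ht]
    rw [div_pow, div_le_one (by positivity)]
    calc rw' φ s x (o x) ^ 2 ≤ rw' φ s x x * rw' φ s (o x) (o x) := c2
      _ ≤ 1 * rw' φ s (o x) (o x) := mul_le_mul_of_nonneg_right c3 (by linarith)
      _ ≤ rw' φ s (o x) (o x) * rw' φ s (o x) (o x) :=
          mul_le_mul_of_nonneg_right c1 (by linarith)
      _ = _ := by ring
  have ht2 : ∀ z, ∑ x ∈ S2.filter (fun x => o x = z), t x ^ 2 ≤ 2 := by
    intro z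
    calc ∑ x ∈ S2.filter (fun x => o x = z), t x ^ 2 ≤
        ∑ x ∈ S2.filter (fun x => o x = z), (1 : ℝ) :=
          Finset.sum_le_sum fun x hx => ht1 x (Finset.mem_filter.mp hx).1
      _ = ((S2.filter (fun x => o x = z)).card : ℝ) := by simp
      _ ≤ 2 := by exact_mod_cast hcard z
  have hmain := trace_blocks_w φ k hk hev hφ0 Z hZ (aw F T) hac s hs S SA S2 hSZ hSr hd hSAS hS2S
    o ho t ht2 (fun z w => Y z.re w.re) (by
      intro v
      rw [hSA, himg C1]
      simp only [himg C1, Complex.ofReal_re]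
      exact hY1 (fun x => v x))
  -- the gains
  have hYT : 2 * ∑ x ∈ SA, ∑ y ∈ SA, Y x.re y.re * (rw' φ s x y - if x = y then 1 else 0)
      - ∑ x ∈ SA, ∑ y ∈ SA, (Y x.re y.re) ^ 2 = YTg R C1 Y := by
    have e1 : ∀ x ∈ SA, ∀ y ∈ SA, Y x.re y.re * (rw' φ s x y - if x = y then 1 else 0) =
        Y x.re y.re * (R x.re y.re - if x = y then 1 else 0) := by
      intro x hx y hy
      rw [hrR x (hSAS hx) y (hSAS hy)]
    rw [Finset.sum_congr rfl fun x hx => Finset.sum_congr rfl fun y hy => e1 x hx y hy]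
    unfold YTg
    rw [hSA, himg C1, himg C1]
    simp only [himg C1, Complex.ofReal_re, Complex.ofReal_inj]
  have hg2 : q * (S2.card : ℝ) ≤ ∑ x ∈ S2, (4 * t x * rw' φ s x (o x) -
      2 * t x ^ 2 * rw' φ s (o x) (o x)) := by
    rw [mul_comm, ← nsmul_eq_mul, ← Finset.sum_const]
    refine Finset.sum_le_sum fun x hx => ?_
    obtain ⟨c1, c2⟩ := hatt x hx
    refine c2.trans (le_of_eq ?_)
    have c3 : rw' φ s (o x) (o x) ≠ 0 := by linarith
    simp only [ht]
    field_simp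
    ring
  have hcards : (NI.card : ℝ) ≤ C1.card + S2.card := by
    rw [hS2, Finset.card_image_of_injective _ Complex.ofReal_injective, ← hNIcard]
    have h1 : NIr ⊆ C1 ∪ S2r := by
      intro x hx
      rw [Finset.mem_union, hS2r, Finset.mem_sdiff]
      tauto
    have h2 := (Finset.card_le_card h1).trans (Finset.card_union_le _ _)
    exact_mod_cast h2
  have hqN : q * (NI.card : ℝ) ≤ q * C1.card + q * S2.card := by
    rw [← mul_add]; exact mul_le_mul_of_nonneg_left hcards hq0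
  rw [quad_form γ Λ hΛ (kapw_sq γ h0 hπ) (Rw_cont γ h0 hπ) (Rw_even γ) Z hZ (aw F T) hac] at hmain
  have hBB : ∀ u t : ℝ, ∑ z ∈ Z, aw F T z * (cexp (I * u * z) * cexp (-(z - t) ^ 2 / 2)) =
      BB F V1 V2 T u t := by
    intro u t
    unfold BB
    rw [finsum_mem_eq_finite_toFinset_sum _ hfin, hZdef, Finset.sum_image hinj]
    refine Finset.sum_congr rfl fun s _ => ?_
    rw [aw_zz]
  simp_rw [hBB] at hmain
  refine le_trans ?_ hmain
  rw [hYT]
  have hlhs : ∑ s ∈ Zf, (4 * (mult F s : ℝ) * (cc T (zz s)).re - kk F s) =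
      4 * (∑ z ∈ Z, aw F T z).re - 3 * (S.card : ℝ) -
      4 * (((Z.filter (fun z => 0 ≤ z.im)) \ S).card : ℝ) :=
    lhs_eq hF T V1 V2 hV hfin Z hZdef S hS
  rw [hlhs]
  linarith

end V8H36.IS
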