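import Pool.Agent.V8H36.IS.PerB

/-!
Isolated zeros in families (helper36): cutting off the edges.
-/

open Complex Filter Topology Set MeasureTheory
open scoped BigOperators ComplexConjugate
open H370 (zset mult NN Nd Ns)

namespace V8H36.IS

open H385 W388
open H385.PerChi (zz_spec zz_refl zz_inj zz_re zz_im kk phiw_even phiw_zero Rw_cont aw aw_zz log_bd)
open W388.PerChiD (zset_refl mult_refl)

/-- the conditions on the kernel -/
def KerOK (γ Λ e ρ h q : ℝ) : Prop :=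
  (∀ x y : ℝ, |x - y| ≤ ρ → q ≤ (1 - e) ^ 2 * (phiw γ Λ ((x : ℂ) - y)).re ^ 2) ∧
  (∀ (x : ℝ) (w : ℂ), |w.re - x| ≤ ρ → 0 ≤ w.im → w.im ≤ h →
      e * ‖phiw γ Λ (w - x)‖ ≤ (phiw γ Λ (w - x)).re ∧
      q * (1 + e) * ((phiw γ Λ (w - conj w)).re + 1) ≤
        4 * (1 - e) * ((phiw γ Λ (w - x)).re - e * ‖phiw γ Λ (w - x)‖) ^ 2)

theorem core_iso (γ : ℝ) (h0 : 0 < γ) (hπ : γ < Real.pi) (d A : ℝ) (hd : 1 ≤ d)
    (hA : 1 ≤ A) :
    ∃ C : ℝ, 0 < C ∧ ∀ (Q : ℝ) (F : ℂ → ℂ) (a : ℕ → ℂ), 1 ≤ Q → GoodE d A Q F a →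
    ∀ (w : ℂ → ℝ), (∀ s, 1 ≤ mult F s → w s ≤ 4 * (mult F s : ℝ) - kk F s) →
      (∀ s, 1 ≤ mult F s → w s ≤ 3 * (mult F s : ℝ)) →
    ∀ T κ Λ V1 V2 ρ h q : ℝ, 3 ≤ κ → 8 * κ ≤ T → 1 ≤ Λ → T - 3 * κ ≤ V1 → V1 ≤ T - 3 * κ + 1 →
      2 * T + 3 * κ - 1 ≤ V2 → V2 ≤ 2 * T + 3 * κ → 0 ≤ ρ → 0 ≤ q →
      KerOK γ Λ (2 * Real.exp (-κ ^ 2 / 2)) ρ h q →
      ∀ hfinV : (zset F V1 V2).Finite, ∀ NI : Finset ℂ,
      (∀ s ∈ NI, s ∈ hfinV.toFinset ∧ s.re = 1 / 2 ∧ mult F s = 1 ∧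
        T + κ + ρ ≤ s.im ∧ s.im ≤ 2 * T - κ - ρ ∧
        ∃ s' ∈ hfinV.toFinset, s' ≠ s ∧ |s'.im - s.im| ≤ ρ ∧ |s'.re - 1 / 2| ≤ h) →
      ∀ hfin : (zset F T (2 * T)).Finite, ∑ s ∈ hfin.toFinset, w s + q * (NI.card : ℝ) ≤
        (2 / (Real.sqrt Real.pi * Λ)) * (∫ u in (0 : ℝ)..Λ, Rw γ (u / Λ) *
          ∫ t : ℝ, ‖BB F V1 V2 T u t‖ ^ 2)
        + C * (κ + T * Real.exp (-κ ^ 2 / 2)) * Real.log (Q * T) := by
  obtain ⟨C0, hC0, hcount⟩ := zcount_long_D d A hd hA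
  refine ⟨240 * C0, by positivity, ?_⟩
  intro Q F a hQ hFU w hw1 hw2 T κ Λ V1 V2 ρ h q hκ hκT hΛ hV1 hV1' hV2 hV2' hρ hq0 hker hfinV
    NI hNI hfin
  have hV1pos : 15 ≤ V1 := by linarith
  have hT24 : 24 ≤ T := by linarith
  have hmulti : ∀ s ∈ hfinV.toFinset, 1 ≤ mult F s := by
    intro s hs
    rw [Set.Finite.mem_toFinset] at hs
    exact LocD.mult_pos_D hA hFU (by linarith [hs.2.2.1]) hs.2.2.2.2
  have he1 : 2 * Real.exp (-κ ^ 2 / 2) ≤ 1 / 2 := by
    have h1 : Real.exp (-κ ^ 2 / 2) ≤ Real.exp (-(4 : ℝ)) := Real.exp_le_exp.mpr (by nlinarith)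
    have h2 : (4 : ℝ) + 1 ≤ Real.exp 4 := Real.add_one_le_exp 4
    have h3 : Real.exp (-(4 : ℝ)) ≤ 1 / 4 := by
      rw [Real.exp_neg, ← one_div]
      exact one_div_le_one_div_of_le (by norm_num) (by linarith)
    linarith
  have htr := trace_iso γ h0 hπ hFU T Λ V1 V2 κ (2 * Real.exp (-κ ^ 2 / 2)) ρ h q
    (by linarith) (by linarith) (by linarith) hfinV hmulti hρ (by positivity) he1 hq0
    (fun z h1 h2 h3 => cc_near T κ (by linarith) z h1 h2 h3) hker.1 hker.2 NI hNI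
  set e := Real.exp (-κ ^ 2 / 2) with he
  have he0 : 0 < e := Real.exp_pos _
  -- counts
  have hNV := hcount Q F a hQ hFU V1 V2 (by linarith) (by linarith)
  have hNa := hcount Q F a hQ hFU V1 (T + κ) (by linarith) (by linarith)
  have hNb := hcount Q F a hQ hFU (2 * T - κ) V2 (by linarith) (by linarith)
  set L := Real.log (Q * T) with hL
  have hL0 : 0 ≤ L := Real.log_nonneg (by nlinarith)
  have l1 : Real.log (Q * V2) ≤ 2 * L := log_bd hQ (by linarith) (by linarith) (by linarith)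
  have l2 : Real.log (Q * (T + κ)) ≤ 2 * L := log_bd hQ (by linarith) (by linarith) (by linarith)
  have aux : ∀ x y z w : ℝ, 0 ≤ y → x ≤ y → z ≤ 2 * L → 0 ≤ z → w ≤ C0 * x * z →
      w ≤ C0 * y * (2 * L) := by
    intro x y z w hy hxy hz hz0 hw
    refine hw.trans ?_
    have h1 : C0 * x * z ≤ C0 * y * z := by gcongr
    refine h1.trans ?_
    gcongr
  have p1 : 0 ≤ Real.log (Q * V2) := Real.log_nonneg (by nlinarith)
  have p2 : 0 ≤ Real.log (Q * (T + κ)) := Real.log_nonneg (by nlinarith)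
  have b1 : (NN F V1 V2 : ℝ) ≤ C0 * (2 * T) * (2 * L) :=
    aux _ _ _ _ (by linarith) (by linarith) l1 p1 hNV
  have b2 : (NN F V1 (T + κ) : ℝ) ≤ C0 * (4 * κ) * (2 * L) :=
    aux _ _ _ _ (by linarith) (by linarith) l2 p2 hNa
  have b3 : (NN F (2 * T - κ) V2 : ℝ) ≤ C0 * (4 * κ) * (2 * L) :=
    aux _ _ _ _ (by linarith) (by linarith) l1 p1 hNb
  -- sums over zeros
  have n1 : (NN F V1 V2 : ℝ) = ∑ s ∈ hfinV.toFinset, (mult F s : ℝ) := by
    unfold NN
    rw [finsum_mem_eq_finite_toFinset_sum _ hfinV]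
    push_cast; rfl
  have n2 : (NN F V1 (T + κ) : ℝ) =
      ∑ s ∈ hfinV.toFinset, if s.im ≤ T + κ then (mult F s : ℝ) else 0 := by
    have hf : (zset F V1 (T + κ)).Finite := zset_finite_D hA hQ hFU V1 _ (by linarith)
    unfold NN
    rw [finsum_mem_eq_finite_toFinset_sum _ hf, ← Finset.sum_filter]
    push_cast
    refine Finset.sum_congr ?_ fun _ _ => rfl
    ext s
    simp only [Finset.mem_filter, Set.Finite.mem_toFinset]
    constructor
    · rintro ⟨h1, h2, h3, h4, h5⟩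
      exact ⟨⟨h1, h2, h3, by linarith, h5⟩, h4⟩
    · rintro ⟨⟨h1, h2, h3, h4, h5⟩, h6⟩
      exact ⟨h1, h2, h3, h6, h5⟩
  have n3 : (NN F (2 * T - κ) V2 : ℝ) =
      ∑ s ∈ hfinV.toFinset, if 2 * T - κ < s.im then (mult F s : ℝ) else 0 := by
    have hf : (zset F (2 * T - κ) V2).Finite := zset_finite_D hA hQ hFU _ _ (by linarith)
    unfold NN
    rw [finsum_mem_eq_finite_toFinset_sum _ hf, ← Finset.sum_filter]
    push_cast
    refine Finset.sum_congr ?_ fun _ _ => rfl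
    ext s
    simp only [Finset.mem_filter, Set.Finite.mem_toFinset]
    constructor
    · rintro ⟨h1, h2, h3, h4, h5⟩
      exact ⟨⟨h1, h2, by linarith, h4, h5⟩, h3⟩
    · rintro ⟨⟨h1, h2, h3, h4, h5⟩, h6⟩
      exact ⟨h1, h2, h6, h4, h5⟩
  have n4 : ∑ s ∈ hfin.toFinset, w s =
      ∑ s ∈ hfinV.toFinset, if T < s.im ∧ s.im ≤ 2 * T then w s else 0 := by
    rw [← Finset.sum_filter]
    refine Finset.sum_congr ?_ fun _ _ => rfl
    ext s
    simp only [Finset.mem_filter, Set.Finite.mem_toFinset]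
    constructor
    · rintro ⟨h1, h2, h3, h4, h5⟩
      exact ⟨⟨h1, h2, by linarith, by linarith, h5⟩, h3, h4⟩
    · rintro ⟨⟨h1, h2, h3, h4, h5⟩, h6, h7⟩
      exact ⟨h1, h2, h6, h7, h5⟩
  have hpt : ∀ s ∈ hfinV.toFinset, (if T < s.im ∧ s.im ≤ 2 * T then w s else 0) ≤
      (4 * (mult F s : ℝ) * (cc T (zz s)).re - kk F s) + 8 * e * (mult F s : ℝ) +
        15 * (if s.im ≤ T + κ then (mult F s : ℝ) else 0) +
        15 * (if 2 * T - κ < s.im then (mult F s : ℝ) else 0) := by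
    intro s hs
    have hm := hmulti s hs
    have hm' : (1 : ℝ) ≤ (mult F s : ℝ) := by exact_mod_cast hm
    have h1 := hw1 s hm
    have h2 := hw2 s hm
    rw [Set.Finite.mem_toFinset] at hs
    have him : |(zz s).im| ≤ 1 / 2 := by
      rw [zz_im, abs_le]; constructor <;> linarith [hs.1, hs.2.1]
    have hk2 : kk F s ≤ 4 := by
      unfold kk; split_ifs <;> norm_num
    have hcre : -2 ≤ (cc T (zz s)).re := by
      have h3 := cc_bound T (by linarith) (zz s) him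
      have h4 := Complex.abs_re_le_norm (cc T (zz s))
      linarith [neg_abs_le (cc T (zz s)).re]
    have hedge : ∀ X : ℝ, X ≤ 3 * (mult F s : ℝ) → X ≤
        (4 * (mult F s : ℝ) * (cc T (zz s)).re - kk F s) + 8 * e * (mult F s : ℝ) +
        15 * (mult F s : ℝ) := by
      intro X hX
      have h5 : 4 * (mult F s : ℝ) * (-2) ≤ 4 * (mult F s : ℝ) * (cc T (zz s)).re :=
        mul_le_mul_of_nonneg_left hcre (by positivity)
      have h6 : 0 ≤ 8 * e * (mult F s : ℝ) := by positivity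
      linarith
    have hX3 : (if T < s.im ∧ s.im ≤ 2 * T then w s else 0) ≤ 3 * (mult F s : ℝ) := by
      split_ifs
      · exact h2
      · positivity
    by_cases c1 : s.im ≤ T + κ
    · rw [if_pos c1]
      have h7 : 0 ≤ 15 * (if 2 * T - κ < s.im then (mult F s : ℝ) else 0) := by
        split_ifs <;> positivity
      linarith [hedge _ hX3]
    · rw [if_neg c1]
      by_cases c2 : 2 * T - κ < s.im
      · rw [if_pos c2]
        linarith [hedge _ hX3]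
      · rw [if_neg c2, if_pos ⟨by push Not at c1; linarith, by push Not at c2; linarith⟩]
        push Not at c1 c2
        have h8 := cc_near T κ (by linarith) (zz s) him (by rw [zz_re]; linarith)
          (by rw [zz_re]; linarith)
        have h9 : 1 - 2 * e ≤ (cc T (zz s)).re := by
          have h10 := Complex.abs_re_le_norm (cc T (zz s) - 1)
          rw [Complex.sub_re, Complex.one_re] at h10
          linarith [neg_abs_le ((cc T (zz s)).re - 1)]
        have h11 : 4 * (mult F s : ℝ) * (1 - 2 * e) ≤ 4 * (mult F s : ℝ) * (cc T (zz s)).re :=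
          mul_le_mul_of_nonneg_left h9 (by positivity)
        linarith
  have hsum := Finset.sum_le_sum hpt
  rw [← n4] at hsum
  rw [Finset.sum_add_distrib, Finset.sum_add_distrib, Finset.sum_add_distrib, ← Finset.mul_sum,
    ← Finset.mul_sum, ← Finset.mul_sum, ← n1, ← n2, ← n3] at hsum
  have f1 : 8 * e * (NN F V1 V2 : ℝ) ≤ 8 * e * (C0 * (2 * T) * (2 * L)) :=
    mul_le_mul_of_nonneg_left b1 (by positivity)
  have f2 : 0 ≤ C0 * T * e * L := by positivity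
  have f3 : 0 ≤ C0 * κ * L := by positivity
  nlinarith

end V8H36.IS
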