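import Pool.Agent.H385R2.TraceW

/-!
Isolated zeros in families (helper36): the general weighted trace inequality
(combination of `H385.trace_w` and `H344.trace_gen`).
-/

open scoped BigOperators ComplexConjugate

namespace V8H36.IS

/-- weight of a point in the half plane `0 ≤ im` -/
noncomputable def cw (a : ℂ → ℂ) (z : ℂ) : ℂ := if z.im = 0 then a z / 4 else a z / 2

/-- Gram matrix of the positive vectors -/
noncomputable def rw' (φ : ℂ → ℂ) (s : ℂ → ℂ) (z w : ℂ) : ℝ :=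
  2 * (conj (s z) * s w * φ (w - conj z)).re + 2 * (conj (s z) * conj (s w) *
    φ (conj w - conj z)).re

/-- The general weighted trace inequality: any test matrix `D ≤ 2` on the points with `0 ≤ im`. -/
theorem trace_gen_w {E : Type*} [NormedAddCommGroup E] [InnerProductSpace ℂ E]
    (φ : ℂ → ℂ) (k : ℂ → E) (hk : ∀ z w, inner ℂ (k z) (k w) = φ (w - (starRingEnd ℂ) z))
    (hev : ∀ z, φ (-z) = φ z) (h0 : φ 0 = 1)
    (Z : Finset ℂ) (hZ : ∀ z ∈ Z, (starRingEnd ℂ) z ∈ Z) (a : ℂ → ℂ)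
    (hac : ∀ z ∈ Z, a ((starRingEnd ℂ) z) = (starRingEnd ℂ) (a z))
    (s : ℂ → ℂ) (hs : ∀ z, s z ^ 2 = cw a z)
    (D : ℂ → ℂ → ℝ)
    (hD : ∀ v : ℂ → ℂ, ∑ i ∈ Z.filter (fun z => 0 ≤ z.im), ∑ j ∈ Z.filter (fun z => 0 ≤ z.im),
      D i j * ((starRingEnd ℂ (v i)) * v j).re ≤ 2 * ∑ i ∈ Z.filter (fun z => 0 ≤ z.im), ‖v i‖ ^ 2) :
    (∀ z w, rw' φ s z w ^ 2 ≤ rw' φ s z z * rw' φ s w w) ∧
    (∀ z, 4 * (cw a z).re ≤ rw' φ s z z) ∧
    (∀ z w, rw' φ s z w = rw' φ s w z) ∧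
    (∑ z ∈ Z.filter (fun z => 0 ≤ z.im), 4 * (cw a z).re = (∑ z ∈ Z, a z).re) ∧
    2 * ∑ z ∈ Z.filter (fun z => 0 ≤ z.im), ∑ w ∈ Z.filter (fun z => 0 ≤ z.im), D z w * rw' φ s z w
      - ∑ z ∈ Z.filter (fun z => 0 ≤ z.im), ∑ w ∈ Z.filter (fun z => 0 ≤ z.im), (D z w) ^ 2
      - 4 * ∑ z ∈ Z.filter (fun z => 0 ≤ z.im), (rw' φ s z z - 4 * (cw a z).re)
      ≤ (∑ z ∈ Z, ∑ w ∈ Z, a z * a w * (φ (z - w)) ^ 2).re := by
  classical
  set P := Z.filter (fun z => 0 ≤ z.im) with hP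
  -- conj relation
  have hcj : ∀ z, (starRingEnd ℂ) (φ z) = φ ((starRingEnd ℂ) z) := by
    intro z
    have h1 := hk 0 z
    have h2 := hk z 0
    rw [← inner_conj_symm, h1] at h2
    simp only [map_zero, sub_zero, zero_sub] at h2
    rw [h2, hev]
  -- coefficients
  set c : ℂ → ℂ := cw a with hc
  have hsplit : ∀ G : ℂ → ℂ, ∑ z ∈ Z, a z * G z =
      ∑ z ∈ P, (2 * c z * G z + 2 * (starRingEnd ℂ) (c z) * G ((starRingEnd ℂ) z)) :=
    fun G => H385.trw_split Z hZ a hac G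
  set x : ℂ → E := fun z => s z • k z + (starRingEnd ℂ) (s z) • k ((starRingEnd ℂ) z) with hx
  set b : ℂ → E := fun z => s z • k z - (starRingEnd ℂ) (s z) • k ((starRingEnd ℂ) z) with hb
  set p : ℂ → ℂ → ℂ := fun z w => (starRingEnd ℂ) (s z) * s w * φ (w - (starRingEnd ℂ) z) with hp
  set q : ℂ → ℂ → ℂ := fun z w => (starRingEnd ℂ) (s z) * (starRingEnd ℂ) (s w) *
    φ ((starRingEnd ℂ) w - (starRingEnd ℂ) z) with hq
  -- inner products
  have hA : ∀ z w, φ ((starRingEnd ℂ) w - z) = (starRingEnd ℂ) (φ (w - (starRingEnd ℂ) z)) := by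
    intro z w
    rw [hcj]; simp
  have hB : ∀ z w, φ (w - z) = (starRingEnd ℂ) (φ ((starRingEnd ℂ) w - (starRingEnd ℂ) z)) := by
    intro z w
    rw [hcj]; simp
  have hxx : ∀ z w, inner ℂ (x z) (x w) = p z w + q z w + (starRingEnd ℂ) (q z w) +
      (starRingEnd ℂ) (p z w) := by
    intro z w
    simp only [hx, hp, hq, map_mul, Complex.conj_conj, ← hA z w, ← hB z w]
    rw [inner_add_left, inner_add_right, inner_add_right]
    simp only [inner_smul_left, inner_smul_right, hk, Complex.conj_conj]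
    ring
  have hxb : ∀ z w, inner ℂ (x z) (b w) = p z w - q z w + (starRingEnd ℂ) (q z w) -
      (starRingEnd ℂ) (p z w) := by
    intro z w
    simp only [hx, hb, hp, hq, map_mul, Complex.conj_conj, ← hA z w, ← hB z w]
    rw [inner_add_left, inner_sub_right, inner_sub_right]
    simp only [inner_smul_left, inner_smul_right, hk, Complex.conj_conj]
    ring
  have hbb : ∀ z w, inner ℂ (b z) (b w) = p z w - q z w - (starRingEnd ℂ) (q z w) +
      (starRingEnd ℂ) (p z w) := by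
    intro z w
    simp only [hb, hp, hq, map_mul, Complex.conj_conj, ← hA z w, ← hB z w]
    rw [inner_sub_left, inner_sub_right, inner_sub_right]
    simp only [inner_smul_left, inner_smul_right, hk, Complex.conj_conj]
    ring
  -- real forms
  set r : ℂ → ℂ → ℝ := rw' φ s with hr
  have hrz : ∀ z w, r z w = 2 * (p z w).re + 2 * (q z w).re := fun z w => rfl
  have hxxr : ∀ z w, inner ℂ (x z) (x w) = (r z w : ℂ) := by
    intro z w
    rw [hxx, hrz]
    apply Complex.ext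
    · simp; ring
    · simp
  have hbbr : ∀ z w, inner ℂ (b z) (b w) = ((2 * (p z w).re - 2 * (q z w).re : ℝ) : ℂ) := by
    intro z w
    rw [hbb]
    apply Complex.ext
    · simp; ring
    · simp
  have hxbr : ∀ z w, ‖inner ℂ (x z) (b w)‖ ^ 2 = 4 * ((p z w).im - (q z w).im) ^ 2 := by
    intro z w
    rw [hxb, ← Complex.normSq_eq_norm_sq, Complex.normSq_apply]
    simp only [Complex.sub_re, Complex.add_re, Complex.conj_re, Complex.conj_im, Complex.sub_im,
      Complex.add_im]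
    ring
  have hpsym : ∀ z w, p w z = (starRingEnd ℂ) (p z w) := by
    intro z w
    simp only [hp, map_mul, Complex.conj_conj, ← hA z w]
    rw [← hev (z - (starRingEnd ℂ) w)]
    have : -(z - (starRingEnd ℂ) w) = (starRingEnd ℂ) w - z := by ring
    rw [this]
    ring
  have hqsym : ∀ z w, q w z = q z w := by
    intro z w
    simp only [hq]
    rw [← hev ((starRingEnd ℂ) z - (starRingEnd ℂ) w)]
    have : -((starRingEnd ℂ) z - (starRingEnd ℂ) w) = (starRingEnd ℂ) w - (starRingEnd ℂ) z := by ring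
    rw [this]
    ring
  have hxbr' : ∀ z w, ‖inner ℂ (x w) (b z)‖ ^ 2 = 4 * ((p z w).im + (q z w).im) ^ 2 := by
    intro z w
    rw [hxbr w z, hpsym, hqsym, Complex.conj_im]
    ring
  -- trace of T^2
  have htr : (∑ z ∈ Z, ∑ w ∈ Z, a z * a w * (φ (z - w)) ^ 2).re =
      ∑ z ∈ P, ∑ w ∈ P, 8 * ((p z w ^ 2).re + (q z w ^ 2).re) := by
    have h1 : ∑ z ∈ Z, ∑ w ∈ Z, a z * a w * (φ (z - w)) ^ 2 =
        ∑ z ∈ Z, a z * ∑ w ∈ P, (2 * c w * φ (z - w) ^ 2 +
          2 * (starRingEnd ℂ) (c w) * φ (z - (starRingEnd ℂ) w) ^ 2) := by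
      refine Finset.sum_congr rfl fun z _ => ?_
      rw [← hsplit (fun w => φ (z - w) ^ 2), Finset.mul_sum]
      refine Finset.sum_congr rfl fun w _ => ?_
      ring
    rw [h1, hsplit (fun z => ∑ w ∈ P, (2 * c w * φ (z - w) ^ 2 +
          2 * (starRingEnd ℂ) (c w) * φ (z - (starRingEnd ℂ) w) ^ 2)), Complex.re_sum]
    refine Finset.sum_congr rfl fun z _ => ?_
    rw [Finset.mul_sum, Finset.mul_sum, ← Finset.sum_add_distrib, Complex.re_sum]
    refine Finset.sum_congr rfl fun w _ => ?_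
    have e1 : φ (z - w) = (starRingEnd ℂ) (φ ((starRingEnd ℂ) w - (starRingEnd ℂ) z)) := by
      rw [← hB z w, ← hev]; congr 1; ring
    have e2 : φ (z - (starRingEnd ℂ) w) = (starRingEnd ℂ) (φ (w - (starRingEnd ℂ) z)) := by
      rw [← hA z w, ← hev]; congr 1; ring
    have e3 : φ ((starRingEnd ℂ) z - w) = φ (w - (starRingEnd ℂ) z) := by
      rw [← hev]; congr 1; ring
    have e4 : φ ((starRingEnd ℂ) z - (starRingEnd ℂ) w) =
        φ ((starRingEnd ℂ) w - (starRingEnd ℂ) z) := by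
      rw [← hev]; congr 1; ring
    have hp2 : p z w ^ 2 = (starRingEnd ℂ) (c z) * c w * φ (w - (starRingEnd ℂ) z) ^ 2 := by
      simp only [hp]
      rw [← hs z, ← hs w, map_pow]; ring
    have hq2 : q z w ^ 2 = (starRingEnd ℂ) (c z) * (starRingEnd ℂ) (c w) *
        φ ((starRingEnd ℂ) w - (starRingEnd ℂ) z) ^ 2 := by
      simp only [hq]
      rw [← hs z, ← hs w, map_pow, map_pow]; ring
    have key : 2 * c z * (2 * c w * φ (z - w) ^ 2 +
          2 * (starRingEnd ℂ) (c w) * φ (z - (starRingEnd ℂ) w) ^ 2) +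
        2 * (starRingEnd ℂ) (c z) * (2 * c w * φ ((starRingEnd ℂ) z - w) ^ 2 +
          2 * (starRingEnd ℂ) (c w) * φ ((starRingEnd ℂ) z - (starRingEnd ℂ) w) ^ 2) =
        4 * (p z w ^ 2 + (starRingEnd ℂ) (p z w ^ 2)) +
          4 * (q z w ^ 2 + (starRingEnd ℂ) (q z w ^ 2)) := by
      rw [hp2, hq2, e1, e2, e3, e4]
      simp only [map_mul, map_pow, Complex.conj_conj]
      ring
    rw [key]
    have hgen : ∀ A B : ℂ, (4 * (A + (starRingEnd ℂ) A) + 4 * (B + (starRingEnd ℂ) B)).re =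
        8 * (A.re + B.re) := by
      intro A B
      simp
      ring
    rw [hgen]
  have htr2 : ∑ z ∈ P, ∑ w ∈ P, 8 * ((p z w ^ 2).re + (q z w ^ 2).re) =
      ∑ z ∈ P, ∑ w ∈ P, (r z w) ^ 2 - 2 * ∑ z ∈ P, ∑ w ∈ P, ‖inner ℂ (x z) (b w)‖ ^ 2 +
        ∑ z ∈ P, ∑ w ∈ P, ‖inner ℂ (b z) (b w)‖ ^ 2 := by
    have h1 : 2 * ∑ z ∈ P, ∑ w ∈ P, ‖inner ℂ (x z) (b w)‖ ^ 2 =
        ∑ z ∈ P, ∑ w ∈ P, (‖inner ℂ (x z) (b w)‖ ^ 2 + ‖inner ℂ (x w) (b z)‖ ^ 2) := by
      simp_rw [Finset.sum_add_distrib]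
      rw [Finset.sum_comm (f := fun z w => ‖inner ℂ (x w) (b z)‖ ^ 2)]
      ring
    rw [h1, ← Finset.sum_sub_distrib, ← Finset.sum_add_distrib]
    refine Finset.sum_congr rfl fun z _ => ?_
    rw [← Finset.sum_sub_distrib, ← Finset.sum_add_distrib]
    refine Finset.sum_congr rfl fun w _ => ?_
    have hA2 : ∀ A : ℂ, (A ^ 2).re = A.re ^ 2 - A.im ^ 2 := by
      intro A
      rw [sq, Complex.mul_re]
      ring
    have hrz : r z w = 2 * (p z w).re + 2 * (q z w).re := rfl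
    rw [hxbr, hxbr', hbbr, Complex.norm_real, Real.norm_eq_abs, sq_abs, hA2, hA2, hrz]
    generalize p z w = p'
    generalize q z w = q'
    ring
  have hqz : ∀ z, (q z z).re = (c z).re := by
    intro z
    simp only [hq, sub_self, h0, mul_one]
    rw [← hs z, ← map_mul, Complex.conj_re, sq]
  have hrd : ∀ z, r z z = 4 * (c z).re + ‖b z‖ ^ 2 := by
    intro z
    have h1 : ((‖b z‖ ^ 2 : ℝ) : ℂ) = inner ℂ (b z) (b z) := by
      rw [inner_self_eq_norm_sq_to_K]; push_cast; rfl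
    rw [hbbr] at h1
    have h2 := Complex.ofReal_injective h1
    rw [h2, hrz, hqz z]
    ring
  have hxn : ∀ z, ‖x z‖ ^ 2 = r z z := by
    intro z
    have h1 : ((‖x z‖ ^ 2 : ℝ) : ℂ) = inner ℂ (x z) (x z) := by
      rw [inner_self_eq_norm_sq_to_K]; push_cast; rfl
    rw [hxxr] at h1
    exact Complex.ofReal_injective h1
  have hN : ∑ z ∈ P, 4 * (c z).re = (∑ z ∈ Z, a z).re := by
    have h1 := hsplit (fun _ => 1)
    simp only [mul_one] at h1
    rw [h1, Complex.re_sum]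
    refine Finset.sum_congr rfl fun z _ => ?_
    simp only [Complex.add_re, Complex.mul_re, Complex.conj_re, Complex.conj_im]
    norm_num
    ring
  refine ⟨?_, ?_, ?_, hN, ?_⟩
  · intro z w
    have h1 := norm_inner_le_norm (𝕜 := ℂ) (x z) (x w)
    rw [hxxr, Complex.norm_real, Real.norm_eq_abs] at h1
    rw [← hxn z, ← hxn w, ← sq_abs, ← mul_pow]
    exact pow_le_pow_left₀ (abs_nonneg _) h1 2
  · intro z
    have := hrd z
    have h2 : 0 ≤ ‖b z‖ ^ 2 := by positivity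
    linarith
  · intro z w
    rw [hrz z w, hrz w z, hpsym, hqsym, Complex.conj_re]
  · have hmain := H370.la_core_finset P x b D hD
    have hDr : ∑ z ∈ P, ∑ w ∈ P, ‖inner ℂ (x z) (x w) - (D z w : ℂ)‖ ^ 2 =
        ∑ z ∈ P, ∑ w ∈ P, (r z w) ^ 2 - 2 * ∑ z ∈ P, ∑ w ∈ P, D z w * r z w
          + ∑ z ∈ P, ∑ w ∈ P, (D z w) ^ 2 := by
      rw [Finset.mul_sum, ← Finset.sum_sub_distrib, ← Finset.sum_add_distrib]
      refine Finset.sum_congr rfl fun z _ => ?_
      rw [Finset.mul_sum, ← Finset.sum_sub_distrib, ← Finset.sum_add_distrib]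
      refine Finset.sum_congr rfl fun w _ => ?_
      rw [hxxr, ← Complex.ofReal_sub, Complex.norm_real, Real.norm_eq_abs, sq_abs]
      ring
    have hbs : ∑ l ∈ P, ‖b l‖ ^ 2 = ∑ z ∈ P, (r z z - 4 * (c z).re) :=
      Finset.sum_congr rfl fun z _ => by rw [hrd z]; ring
    rw [htr, htr2]
    rw [hDr, hbs] at hmain
    linarith

end V8H36.IS
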